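import Pool.Agent.Q197.FM.Ind

/-!
# Existence of random sets with independent elements and given probabilities
-/

set_option autoImplicit false
set_option linter.unusedSectionVars false

namespace Pool.Agent.Q197.FM

open Finset Filter MeasureTheory ProbabilityTheory

/-- A biased coin. -/
noncomputable def coin (p : ℕ → ℝ) (n : ℕ) : Measure Bool :=
  ENNReal.ofReal (p n) • Measure.dirac true + ENNReal.ofReal (1 - p n) • Measure.dirac false

theorem coin_prob {p : ℕ → ℝ} (hp : ∀ n, 0 ≤ p n ∧ p n ≤ 1) (n : ℕ) : IsProbabilityMeasure (coin p n) := by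
  refine ⟨?_⟩
  obtain ⟨h1, h2⟩ := hp n
  unfold coin
  rw [Measure.add_apply, Measure.smul_apply, Measure.smul_apply, measure_univ, measure_univ,
    smul_eq_mul, smul_eq_mul, mul_one, mul_one, ← ENNReal.ofReal_add h1 (by linarith)]
  simp

/-- Random sets with independent elements and given probabilities exist. -/
theorem exists_indep (p : ℕ → ℝ) (hp : ∀ n, 0 ≤ p n ∧ p n ≤ 1) :
    ∃ (μ : Measure (ℕ → Bool)) (_ : IsProbabilityMeasure μ) (A : (ℕ → Bool) → Set ℕ),
      IndepElems μ A ∧ ∀ n, μ.real {ω | n ∈ A ω} = p n := by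
  classical
  have : ∀ n, IsProbabilityMeasure (coin p n) := coin_prob hp
  have hmeas : ∀ a : ℕ, MeasurableSet {ω : ℕ → Bool | a ∈ {n : ℕ | ω n = true}} := by
    intro a
    have : {ω : ℕ → Bool | a ∈ {n : ℕ | ω n = true}} = (fun ω => ω a) ⁻¹' {true} := rfl
    rw [this]
    exact (measurable_pi_apply a) (MeasurableSet.singleton _)
  have hset : ∀ s : Finset ℕ, Measure.infinitePi (coin p) (⋂ i ∈ s, {ω : ℕ → Bool | i ∈ {n : ℕ | ω n = true}}) =
      ∏ i ∈ s, coin p i {true} := by
    intro s
    have h1 : (⋂ i ∈ s, {ω : ℕ → Bool | i ∈ {n : ℕ | ω n = true}}) = Set.pi (s : Set ℕ) (fun _ => {true}) := by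
      ext ω
      simp [Set.mem_pi]
    rw [h1, Measure.infinitePi_pi _ (fun _ _ => MeasurableSet.of_discrete)]
  have hone : ∀ a : ℕ, Measure.infinitePi (coin p) {ω : ℕ → Bool | a ∈ {n : ℕ | ω n = true}} = coin p a {true} := by
    intro a
    have := hset {a}
    simpa using this
  refine ⟨Measure.infinitePi (coin p), inferInstance, fun ω => {n | ω n = true}, ⟨hmeas, ?_⟩, fun n => ?_⟩
  · rw [iIndepSet_iff_meas_biInter hmeas]
    intro s
    rw [hset]
    exact prod_congr rfl (fun i _ => (hone i).symm)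
  · unfold Measure.real
    rw [hone]
    unfold coin
    rw [Measure.add_apply, Measure.smul_apply, Measure.smul_apply]
    rw [Measure.dirac_apply' _ MeasurableSet.of_discrete, Measure.dirac_apply' _ MeasurableSet.of_discrete]
    simp [ENNReal.toReal_ofReal, (hp n).1]

end Pool.Agent.Q197.FM
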