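import Pool.Agent.W65.FS.Final
import Pool.Agent.H510R2.Div
import Pool.Agent.Q197.FM.Ex

/-!
# The multiplicity of the values of `x² + 3 y² + 5 z² + 7 w²` on the representations of `n`
-/

set_option autoImplicit false
set_option linter.unusedSectionVars false

namespace Pool.Agent.Q197.FM

open Finset Pool.Agent.W65.FS

/-- The divisors of an integer, with both signs. -/
def sdiv (m : ℤ) : Finset ℤ := m.natAbs.divisors.image (fun d : ℕ => (d : ℤ)) ∪ m.natAbs.divisors.image (fun d : ℕ => -(d : ℤ))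

theorem card_sdiv (m : ℤ) : (sdiv m).card ≤ 2 * m.natAbs.divisors.card := by
  unfold sdiv
  refine (card_union_le _ _).trans ?_
  have h1 : (m.natAbs.divisors.image (fun d : ℕ => (d : ℤ))).card ≤ m.natAbs.divisors.card := card_image_le
  have h2 : (m.natAbs.divisors.image (fun d : ℕ => -(d : ℤ))).card ≤ m.natAbs.divisors.card := card_image_le
  omega

theorem mem_sdiv {m d : ℤ} (hm : m ≠ 0) (h : d ∣ m) : d ∈ sdiv m := by
  unfold sdiv
  rw [mem_union, mem_image, mem_image]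
  have h1 : d.natAbs ∈ m.natAbs.divisors := Nat.mem_divisors.2 ⟨Int.natAbs_dvd_natAbs.2 h, Int.natAbs_ne_zero.2 hm⟩
  rcases Int.natAbs_eq d with h2 | h2
  · exact Or.inl ⟨_, h1, h2.symm⟩
  · exact Or.inr ⟨_, h1, h2.symm⟩

theorem sign_eq {y y' : ℤ} (h : y ^ 2 = y' ^ 2) (hs : decide (0 ≤ y) = decide (0 ≤ y')) : y = y' := by
  rcases sq_eq_sq_iff_eq_or_eq_neg.1 h with h1 | h1
  · exact h1
  · rw [decide_eq_decide] at hs
    by_cases h2 : 0 ≤ y
    · have := hs.1 h2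
      omega
    · have : ¬ 0 ≤ y' := fun h3 => h2 (hs.2 h3)
      omega

theorem fiber_ne {n : ℕ} {v w : ℤ} (hm : 3 * (n : ℤ) - v + 4 * w ^ 2 ≠ 0) (S : Finset (Fin 4 → ℤ))
    (hS : ∀ X ∈ S, ∑ i, X i ^ 2 = n ∧ pf X = v ∧ X 3 = w) :
    S.card ≤ 4 * (3 * (n : ℤ) - v + 4 * w ^ 2).natAbs.divisors.card := by
  classical
  obtain ⟨m, hmd⟩ : ∃ m : ℤ, m = 3 * (n : ℤ) - v + 4 * w ^ 2 := ⟨_, rfl⟩
  rw [← hmd] at hm ⊢
  have key : ∀ X ∈ S, (X 0 - X 2) * (2 * (X 0 + X 2)) = m := by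
    intro X hX
    obtain ⟨h1, h2, h3⟩ := hS X hX
    rw [Fin.sum_univ_four] at h1
    unfold pf at h2
    rw [hmd, ← h3]
    linear_combination 3 * h1 - h2
  have h1 : S.card ≤ (sdiv m ×ˢ (univ : Finset Bool)).card := by
    refine card_le_card_of_injOn (fun X => (X 0 - X 2, decide (0 ≤ X 1))) (fun X hX => ?_) ?_
    · have h2 : X 0 - X 2 ∣ m := ⟨_, (key X hX).symm⟩
      simp only [coe_product, Set.mem_prod, mem_coe, mem_univ, and_true]
      exact mem_sdiv hm h2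
    · intro X hX Y hY hXY
      simp only [Prod.mk.injEq] at hXY
      obtain ⟨e1, e2⟩ := hXY
      have k1 := key X hX
      have k2 := key Y hY
      obtain ⟨s1, s2, s3⟩ := hS X hX
      obtain ⟨t1, t2, t3⟩ := hS Y hY
      rw [← e1] at k2
      have hne : X 0 - X 2 ≠ 0 := by
        intro h0
        rw [h0, zero_mul] at k1
        exact hm k1.symm
      have e3 : 2 * (X 0 + X 2) = 2 * (Y 0 + Y 2) := mul_left_cancel₀ hne (k1.trans k2.symm)
      have e4 : X 0 = Y 0 := by omega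
      have e5 : X 2 = Y 2 := by omega
      have e6 : X 3 = Y 3 := s3.trans t3.symm
      rw [Fin.sum_univ_four] at s1 t1
      have e7 : X 1 ^ 2 = Y 1 ^ 2 := by
        rw [e4, e5, e6] at s1
        linarith
      have e8 := sign_eq e7 e2
      funext i
      fin_cases i
      · exact e4
      · exact e8
      · exact e5
      · exact e6
  rw [card_product, card_univ, Fintype.card_bool] at h1
  have h2 := card_sdiv m
  omega

theorem coord_mem {n : ℕ} {X : Fin 4 → ℤ} (h : ∑ i, X i ^ 2 = n) (i : Fin 4) :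
    X i ∈ Icc (-(Nat.sqrt n : ℤ)) (Nat.sqrt n : ℤ) := by
  have h1 : X i ^ 2 ≤ n := by
    rw [← h]
    exact single_le_sum (f := fun i => X i ^ 2) (fun j _ => sq_nonneg _) (mem_univ i)
  have h2 : (X i).natAbs ≤ Nat.sqrt n := by
    rw [Nat.le_sqrt']
    have : ((X i).natAbs : ℤ) ^ 2 ≤ n := by rw [Int.natAbs_sq]; exact h1
    exact_mod_cast this
  rw [mem_Icc]
  omega

theorem fiber_eq {n : ℕ} {v w : ℤ} (hm : 3 * (n : ℤ) - v + 4 * w ^ 2 = 0) (S : Finset (Fin 4 → ℤ))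
    (hS : ∀ X ∈ S, ∑ i, X i ^ 2 = n ∧ pf X = v ∧ X 3 = w) :
    S.card ≤ 4 * (2 * Nat.sqrt n + 1) := by
  classical
  have h1 : S.card ≤ (Icc (-(Nat.sqrt n : ℤ)) (Nat.sqrt n : ℤ) ×ˢ ((univ : Finset Bool) ×ˢ (univ : Finset Bool))).card := by
    refine card_le_card_of_injOn (fun X => (X 2, decide (0 ≤ X 0), decide (0 ≤ X 1))) (fun X hX => ?_) ?_
    · simp only [coe_product, Set.mem_prod, mem_coe, mem_univ, and_true]
      exact coord_mem (hS X hX).1 2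
    · intro X hX Y hY hXY
      simp only [Prod.mk.injEq] at hXY
      obtain ⟨e1, e2, e3⟩ := hXY
      obtain ⟨s1, s2, s3⟩ := hS X hX
      obtain ⟨t1, t2, t3⟩ := hS Y hY
      rw [Fin.sum_univ_four] at s1 t1
      unfold pf at s2 t2
      rw [← s3] at hm
      have k1 : X 0 ^ 2 = X 2 ^ 2 := by linarith
      have e6 : X 3 = Y 3 := s3.trans t3.symm
      rw [e6] at hm
      have k2 : Y 0 ^ 2 = Y 2 ^ 2 := by linarith
      have e4 : X 0 = Y 0 := sign_eq (by rw [k1, k2, e1]) e2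
      have e7 : X 1 ^ 2 = Y 1 ^ 2 := by
        rw [e4, e1, e6] at s1
        linarith
      have e8 := sign_eq e7 e3
      funext i
      fin_cases i
      · exact e4
      · exact e8
      · exact e1
      · exact e6
  rw [card_product, card_product, card_univ, Fintype.card_bool, Int.card_Icc] at h1
  omega

/-- A value `v` of `pf` is taken at most `C n ^ (1 / 2 + ε)` times. -/
theorem mult (ε : ℝ) (hε : 0 < ε) : ∃ C : ℝ, 0 < C ∧ ∀ n : ℕ, 1 ≤ n → ∀ v : ℤ, ∀ S : Finset (Fin 4 → ℤ),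
    (∀ X ∈ S, ∑ i, X i ^ 2 = n ∧ pf X = v) → (S.card : ℝ) ≤ C * (n : ℝ) ^ (1 / 2 + ε) := by
  classical
  obtain ⟨C, hC, hdiv⟩ := H510R2.divisor_bound ε hε
  refine ⟨3 * (4 * (C * 8 ^ ε)) + 24, by positivity, fun n hn v S hS => ?_⟩
  obtain ⟨N, hN⟩ : ∃ N : ℕ, N = Nat.sqrt n := ⟨_, rfl⟩
  have hn1 : (1 : ℝ) ≤ n := by exact_mod_cast hn
  have hN1 : 1 ≤ N := by
    rw [hN]
    exact Nat.sqrt_pos.2 hn
  have hNr : (N : ℝ) ≤ (n : ℝ) ^ (1 / 2 : ℝ) := by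
    rw [← Real.sqrt_eq_rpow, hN]
    exact Real.nat_sqrt_le_real_sqrt
  have hS3 : ∀ X ∈ S, X 3 ∈ Icc (-(N : ℤ)) (N : ℤ) := fun X hX => hN ▸ coord_mem (hS X hX).1 3
  obtain ⟨T, hT⟩ : ∃ T : ℤ → Finset (Fin 4 → ℤ), T = fun w => S.filter (fun X => X 3 = w) := ⟨_, rfl⟩
  have hTm : ∀ w, ∀ X ∈ T w, ∑ i, X i ^ 2 = n ∧ pf X = v ∧ X 3 = w := by
    intro w X hX
    rw [hT, mem_filter] at hX
    exact ⟨(hS X hX.1).1, (hS X hX.1).2, hX.2⟩
  have hcard : S.card = ∑ w ∈ Icc (-(N : ℤ)) (N : ℤ), (T w).card := by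
    rw [hT]
    exact card_eq_sum_card_fiberwise (fun X hX => hS3 X hX)
  obtain ⟨Z, hZ⟩ : ∃ Z : Finset ℤ, Z = (Icc (-(N : ℤ)) (N : ℤ)).filter (fun w => 3 * (n : ℤ) - v + 4 * w ^ 2 = 0) := ⟨_, rfl⟩
  have hZc : Z.card ≤ 2 := by
    by_contra hlt
    have hpos : Z.Nonempty := card_pos.1 (by omega)
    obtain ⟨w0, hw0⟩ := hpos
    have hsub : Z ⊆ {w0, -w0} := by
      intro w hw
      rw [hZ, mem_filter] at hw hw0
      have h2 : w ^ 2 = w0 ^ 2 := by linarith [hw.2, hw0.2]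
      rcases sq_eq_sq_iff_eq_or_eq_neg.1 h2 with h3 | h3 <;> simp [h3]
    have := (card_le_card hsub).trans card_le_two
    omega
  have hbound : ∀ w ∈ Icc (-(N : ℤ)) (N : ℤ), ((T w).card : ℝ) ≤
      4 * (C * 8 ^ ε * (n : ℝ) ^ ε) + (if 3 * (n : ℤ) - v + 4 * w ^ 2 = 0 then 4 * (2 * (N : ℝ) + 1) else 0) := by
    intro w hw
    have hnn : 0 ≤ C * 8 ^ ε * (n : ℝ) ^ ε := by positivity
    by_cases h0 : 3 * (n : ℤ) - v + 4 * w ^ 2 = 0
    · rw [if_pos h0]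
      have h1 := fiber_eq h0 (T w) (hTm w)
      rw [← hN] at h1
      have h2 : ((T w).card : ℝ) ≤ 4 * (2 * (N : ℝ) + 1) := by exact_mod_cast h1
      linarith
    · rw [if_neg h0, add_zero]
      rcases (T w).eq_empty_or_nonempty with h1 | ⟨X, hX⟩
      · rw [h1, card_empty, Nat.cast_zero]
        positivity
      · obtain ⟨s1, s2, s3⟩ := hTm w X hX
        have l1 := pf_lower n X s1
        have l2 := pf_upper n X s1
        rw [s2] at l1 l2
        have l3 : w ^ 2 ≤ n := by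
          rw [← s3, ← s1]
          exact single_le_sum (f := fun i => X i ^ 2) (fun j _ => sq_nonneg _) (mem_univ 3)
        have l4 : 0 ≤ w ^ 2 := sq_nonneg w
        have h3 : (3 * (n : ℤ) - v + 4 * w ^ 2).natAbs ≤ 8 * n := by omega
        have h4 := fiber_ne h0 (T w) (hTm w)
        have h5 := hdiv (3 * (n : ℤ) - v + 4 * w ^ 2).natAbs (Int.natAbs_pos.2 h0)
        have h6 : (((3 * (n : ℤ) - v + 4 * w ^ 2).natAbs : ℝ)) ^ ε ≤ (8 * (n : ℝ)) ^ ε := by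
          refine Real.rpow_le_rpow (Nat.cast_nonneg _) ?_ hε.le
          exact_mod_cast h3
        rw [Real.mul_rpow (by norm_num) (Nat.cast_nonneg _)] at h6
        have h7 : ((T w).card : ℝ) ≤ 4 * ((3 * (n : ℤ) - v + 4 * w ^ 2).natAbs.divisors.card : ℝ) := by exact_mod_cast h4
        calc ((T w).card : ℝ) ≤ 4 * ((3 * (n : ℤ) - v + 4 * w ^ 2).natAbs.divisors.card : ℝ) := h7
          _ ≤ 4 * (C * (((3 * (n : ℤ) - v + 4 * w ^ 2).natAbs : ℝ)) ^ ε) := by linarith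
          _ ≤ 4 * (C * (8 ^ ε * (n : ℝ) ^ ε)) := by
            have := mul_le_mul_of_nonneg_left h6 hC.le
            linarith
          _ = _ := by ring
  have hsum : (S.card : ℝ) ≤ (2 * N + 1) * (4 * (C * 8 ^ ε * (n : ℝ) ^ ε)) + 2 * (4 * (2 * (N : ℝ) + 1)) := by
    rw [hcard, Nat.cast_sum]
    refine (sum_le_sum hbound).trans ?_
    rw [sum_add_distrib, sum_const, Int.card_Icc, ← sum_filter, ← hZ, sum_const, nsmul_eq_mul, nsmul_eq_mul]
    have e1 : (((N : ℤ) + 1 - -(N : ℤ)).toNat : ℝ) = 2 * N + 1 := by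
      have : ((N : ℤ) + 1 - -(N : ℤ)).toNat = 2 * N + 1 := by omega
      rw [this]
      push_cast
      ring
    rw [e1]
    have e2 : (Z.card : ℝ) ≤ 2 := by exact_mod_cast hZc
    have e3 : 0 ≤ 4 * (2 * (N : ℝ) + 1) := by positivity
    have := mul_le_mul_of_nonneg_right e2 e3
    linarith
  have hNN : 2 * (N : ℝ) + 1 ≤ 3 * (n : ℝ) ^ (1 / 2 : ℝ) := by
    have : (1 : ℝ) ≤ (n : ℝ) ^ (1 / 2 : ℝ) := Real.one_le_rpow hn1 (by norm_num)
    linarith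
  have hne : (1 : ℝ) ≤ (n : ℝ) ^ ε := Real.one_le_rpow hn1 hε.le
  have hadd : (n : ℝ) ^ (1 / 2 + ε) = (n : ℝ) ^ (1 / 2 : ℝ) * (n : ℝ) ^ ε := Real.rpow_add (by linarith) _ _
  rw [hadd]
  have hp0 : 0 ≤ (n : ℝ) ^ (1 / 2 : ℝ) := by positivity
  have hp1 : 0 ≤ C * 8 ^ ε := by positivity
  calc (S.card : ℝ) ≤ (2 * N + 1) * (4 * (C * 8 ^ ε * (n : ℝ) ^ ε)) + 2 * (4 * (2 * (N : ℝ) + 1)) := hsum
    _ ≤ (3 * (n : ℝ) ^ (1 / 2 : ℝ)) * (4 * (C * 8 ^ ε * (n : ℝ) ^ ε)) + 8 * (3 * (n : ℝ) ^ (1 / 2 : ℝ)) * (n : ℝ) ^ ε := by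
      have a1 := mul_le_mul_of_nonneg_right hNN (show 0 ≤ 4 * (C * 8 ^ ε * (n : ℝ) ^ ε) by positivity)
      have a2 : 8 * (3 * (n : ℝ) ^ (1 / 2 : ℝ)) ≤ 8 * (3 * (n : ℝ) ^ (1 / 2 : ℝ)) * (n : ℝ) ^ ε :=
        le_mul_of_one_le_right (by positivity) hne
      linarith
    _ = _ := by ring

end Pool.Agent.Q197.FM
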