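import Pool.Agent.Q197.FM.Four1

/-!
# Random sets and four squares with `x² + 3 y² + 5 z² + 7 w²`
-/

set_option autoImplicit false
set_option linter.unusedSectionVars false

namespace Pool.Agent.Q197.FM

open Finset Filter MeasureTheory Pool.Agent.W65.FS

/-- A quarter of the elements lies in one class modulo 4. -/
theorem class_four (P : Finset ℕ) : ∃ Q ⊆ P, P.card ≤ 4 * Q.card ∧ ∀ p ∈ Q, ∀ q ∈ Q, p % 4 = q % 4 := by
  classical
  have h1 : P.card = ∑ r ∈ range 4, (P.filter (fun p => p % 4 = r)).card :=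
    card_eq_sum_card_fiberwise (fun p _ => mem_coe.2 (mem_range.2 (Nat.mod_lt _ (by norm_num))))
  by_contra hne
  push Not at hne
  have h2 : ∀ r ∈ range 4, (P.filter (fun p => p % 4 = r)).card * 4 < P.card := by
    intro r _
    by_contra hlt
    obtain ⟨p, hp, q, hq, hpq⟩ := hne _ (filter_subset (fun p => p % 4 = r) P) (by omega)
    exact hpq (by rw [(mem_filter.1 hp).2, (mem_filter.1 hq).2])
  have h3 := sum_lt_sum_of_nonempty (s := range 4) (by simp) h2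
  rw [← sum_mul, ← h1, sum_const, card_range, smul_eq_mul] at h3
  omega

/-- Many values with two rough numbers. -/
theorem values (ε : ℝ) (hε : 0 < ε) : ∃ δ : ℝ, 0 < δ ∧ ∃ c : ℝ, 0 < c ∧ ∀ n : ℕ, 7 ≤ n → Odd n →
    ∃ P : Finset ℕ, c * (n : ℝ) ^ (1 / 2 - ε) ≤ P.card ∧ (∀ p ∈ P, ∀ q ∈ P, p % 4 = q % 4) ∧
      ∀ p ∈ P, n ≤ p ∧ p ≤ 7 * n ∧
        (∀ q : ℕ, q.Prime → q ∣ p → (p : ℝ) ^ δ < q) ∧ (∀ q : ℕ, q.Prime → q ∣ p - 2 → ((p - 2 : ℕ) : ℝ) ^ δ < q) ∧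
        ∃ x y z w : ℤ, (n : ℤ) = x ^ 2 + y ^ 2 + z ^ 2 + w ^ 2 ∧
          (p : ℤ) = x ^ 2 + 3 * y ^ 2 + 5 * z ^ 2 + 7 * w ^ 2 := by
  classical
  obtain ⟨K, δ, hδ, c, hc, h⟩ := uniform (ε / 2) (by linarith)
  obtain ⟨C, hC, hmult⟩ := mult (ε / 2) (by linarith)
  refine ⟨δ / 2, by linarith, c / (4 * C), by positivity, fun n hn hodd => ?_⟩
  obtain ⟨S, hS1, hS2⟩ := h n hodd
  have hn0 : (0 : ℝ) < n := by exact_mod_cast (show 0 < n by omega)
  obtain ⟨V, hV⟩ : ∃ V : Finset ℤ, V = S.image pf := ⟨_, rfl⟩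
  have hV1 : (S.card : ℝ) ≤ V.card * (C * (n : ℝ) ^ (1 / 2 + ε / 2)) := by
    have h1 : (S.card : ℝ) = ∑ v ∈ V, ((S.filter (fun X => pf X = v)).card : ℝ) := by
      rw [card_eq_sum_card_fiberwise (f := pf) (t := V) (fun X hX => by rw [hV]; exact mem_coe.2 (mem_image_of_mem _ hX))]
      push_cast
      rfl
    rw [h1, ← nsmul_eq_mul]
    refine sum_le_card_nsmul V _ _ (fun v _ => ?_)
    refine hmult n (by omega) v _ (fun X hX => ?_)
    rw [mem_filter] at hX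
    exact ⟨(hS2 X hX.1).1, hX.2⟩
  have hVn : (V.image Int.toNat).card = V.card := by
    refine card_image_of_injOn (fun a ha b hb hab => ?_)
    rw [hV] at ha hb
    obtain ⟨X, hX, rfl⟩ := mem_image.1 (mem_coe.1 ha)
    obtain ⟨Y, hY, rfl⟩ := mem_image.1 (mem_coe.1 hb)
    have h1 := (hS2 X hX).2.2.1
    have h2 := (hS2 Y hY).2.2.1
    omega
  obtain ⟨Q, hQ1, hQ2, hQ3⟩ := class_four (V.image Int.toNat)
  refine ⟨Q, ?_, hQ3, fun p hp => ?_⟩
  · rw [hVn] at hQ2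
    have h1 : (V.card : ℝ) ≤ 4 * Q.card := by exact_mod_cast hQ2
    have h2 : c * (n : ℝ) ^ (1 - ε / 2) ≤ (4 * Q.card) * (C * (n : ℝ) ^ (1 / 2 + ε / 2)) :=
      (hS1.trans hV1).trans (mul_le_mul_of_nonneg_right h1 (by positivity))
    have h3 : (n : ℝ) ^ (1 - ε / 2) = (n : ℝ) ^ (1 / 2 - ε) * (n : ℝ) ^ (1 / 2 + ε / 2) := by
      rw [← Real.rpow_add hn0]
      congr 1
      ring
    rw [h3] at h2
    have h4 : 0 < (n : ℝ) ^ (1 / 2 + ε / 2) := by positivity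
    have h5 : c * (n : ℝ) ^ (1 / 2 - ε) ≤ 4 * Q.card * C := by
      refine le_of_mul_le_mul_right ?_ h4
      linarith
    rw [div_mul_eq_mul_div, div_le_iff₀ (by positivity)]
    linarith
  · have hp' := hQ1 hp
    rw [hV, mem_image] at hp'
    obtain ⟨v, hv, rfl⟩ := hp'
    rw [mem_image] at hv
    obtain ⟨X, hX, rfl⟩ := hv
    obtain ⟨s1, s2, s3, s4, s5, s6⟩ := hS2 X hX
    have l1 := pf_lower n X s1
    have l2 := pf_upper n X s1
    have hb1 : n ≤ (pf X).toNat := by omega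
    have hb2 : (pf X).toNat ≤ 7 * n := by omega
    have hpow : ∀ m : ℕ, m ≤ 7 * n → (m : ℝ) ^ (δ / 2) ≤ (n : ℝ) ^ δ := by
      intro m hm
      have h1 : (m : ℝ) ≤ (n : ℝ) ^ (2 : ℝ) := by
        have : m ≤ n ^ 2 := hm.trans (by nlinarith)
        rw [Real.rpow_two]
        exact_mod_cast this
      calc (m : ℝ) ^ (δ / 2) ≤ ((n : ℝ) ^ (2 : ℝ)) ^ (δ / 2) := Real.rpow_le_rpow (Nat.cast_nonneg _) h1 (by linarith)
        _ = (n : ℝ) ^ δ := by
          rw [← Real.rpow_mul hn0.le]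
          congr 1
          ring
    refine ⟨hb1, hb2, fun q hq hqp => ?_, fun q hq hqp => ?_, X 0, X 1, X 2, X 3, ?_, ?_⟩
    · refine (hpow _ hb2).trans_lt (s2 q hq ?_)
      have h1 : (q : ℤ) ∣ pf X := by
        have h2 : (q : ℤ) ∣ ((pf X).toNat : ℤ) := by exact_mod_cast hqp
        rwa [Int.toNat_of_nonneg (by omega)] at h2
      exact Dvd.dvd.mul_right h1 _
    · refine (hpow _ (by omega)).trans_lt (s2 q hq ?_)
      have h1 : (q : ℤ) ∣ pf X - 2 := by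
        have h2 : (q : ℤ) ∣ (((pf X).toNat - 2 : ℕ) : ℤ) := by exact_mod_cast hqp
        have h3 : (((pf X).toNat - 2 : ℕ) : ℤ) = pf X - 2 := by omega
        rwa [h3] at h2
      exact Dvd.dvd.mul_left h1 _
    · rw [← s1, Fin.sum_univ_four]
    · rw [Int.toNat_of_nonneg (by omega)]
      rfl

end Pool.Agent.Q197.FM
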