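import Pool.Agent.Q197.FM.Ex

/-!
# Many successes, when there is a power of `n` of them on average
-/

set_option autoImplicit false
set_option linter.unusedSectionVars false

namespace Pool.Agent.Q197.FM

open Finset Filter MeasureTheory ProbabilityTheory
open scoped Topology

variable {Ω : Type*} [MeasurableSpace Ω] {μ : Measure Ω} [IsProbabilityMeasure μ] {A : Ω → Set ℕ}

theorem log_small (a b ε : ℝ) (hε : 0 < ε) (hb : 0 < b) :
    ∀ᶠ n : ℕ in atTop, a * (Real.log n + 1) ≤ b * (n : ℝ) ^ ε := by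
  have h1 : Tendsto (fun n : ℕ => Real.log (n : ℝ) / (n : ℝ) ^ ε) atTop (𝓝 0) :=
    ((isLittleO_log_rpow_atTop hε).tendsto_div_nhds_zero).comp tendsto_natCast_atTop_atTop
  have h2 : Tendsto (fun n : ℕ => 1 / (n : ℝ) ^ ε) atTop (𝓝 0) := by
    have : Tendsto (fun n : ℕ => ((n : ℝ) ^ ε)⁻¹) atTop (𝓝 0) :=
      tendsto_inv_atTop_zero.comp ((tendsto_rpow_atTop hε).comp tendsto_natCast_atTop_atTop)
    simpa using this
  have h3 : Tendsto (fun n : ℕ => a * (Real.log (n : ℝ) / (n : ℝ) ^ ε + 1 / (n : ℝ) ^ ε)) atTop (𝓝 0) := by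
    have := (h1.add h2).const_mul a
    simpa using this
  filter_upwards [h3.eventually (gt_mem_nhds hb), eventually_ge_atTop 1] with n h4 h5
  have hn : (0 : ℝ) < (n : ℝ) ^ ε := Real.rpow_pos_of_pos (by exact_mod_cast h5) _
  have h6 : a * (Real.log n + 1) = (a * (Real.log (n : ℝ) / (n : ℝ) ^ ε + 1 / (n : ℝ) ^ ε)) * (n : ℝ) ^ ε := by
    field_simp
  rw [h6]
  exact mul_le_mul_of_nonneg_right h4.le hn.le

theorem IndepElems.many_pow (hA : IndepElems μ A) (G : ℕ → Prop) {ι : ℕ → Type*} (I : ∀ n, Finset (ι n))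
    (W : ∀ n, ι n → Finset ℕ)
    (hd : ∀ᶠ n : ℕ in atTop, G n → ∀ i ∈ I n, ∀ j ∈ I n, i ≠ j → Disjoint (W n i) (W n j))
    {s t ε κ c : ℝ} (hs : s ≤ 1) (ht : 0 ≤ t) (hε : 0 < ε) (hst : t + ε ≤ s) (hκ : 0 < κ) (hc : 0 < c)
    (hI : ∀ᶠ n : ℕ in atTop, G n → c * (n : ℝ) ^ s ≤ (I n).card)
    (hW : ∀ᶠ n : ℕ in atTop, G n → ∀ i ∈ I n, κ * (n : ℝ) ^ (-t) ≤ ∏ a ∈ W n i, μ.real {ω | a ∈ A ω}) :
    ∀ᵐ ω ∂μ, ∀ᶠ n : ℕ in atTop, G n → ∃ J ⊆ I n, (n : ℝ) ^ (s - t - ε) ≤ J.card ∧ ∀ i ∈ J, ∀ a ∈ W n i, a ∈ A ω := by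
  classical
  obtain ⟨n1, hn1⟩ := eventually_atTop.1 hd
  have h := hA.many (fun n => if G n ∧ n1 ≤ n then I n else ∅) W (fun n i hi j hj hij => by
      split_ifs at hi hj with hG
      · exact hn1 n hG.2 hG.1 i hi j hj hij
      · simp at hi) (fun n => κ * (n : ℝ) ^ (-t))
    (fun n => if G n ∧ n1 ≤ n then ⌈(n : ℝ) ^ (s - t - ε)⌉₊ else 0) (by
      filter_upwards [hW, eventually_ge_atTop 1] with n h1 h2
      have hn0 : (0 : ℝ) < n := by exact_mod_cast h2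
      refine ⟨by positivity, fun i hi => ?_⟩
      split_ifs at hi with hG
      · exact h1 hG.1 i hi
      · simp at hi) (by
      filter_upwards [hI, eventually_ge_atTop 1, log_small (2 * (4 / κ + 1)) c ε hε hc] with n h1 h2 h3
      have hn0 : (0 : ℝ) < n := by exact_mod_cast h2
      have hn1 : (1 : ℝ) ≤ n := by exact_mod_cast h2
      have hL : 0 ≤ Real.log (n : ℝ) := Real.log_nonneg hn1
      by_cases hG : G n ∧ n1 ≤ n
      · rw [if_pos hG, if_pos hG]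
        constructor
        · rw [Nat.ceil_le]
          calc (n : ℝ) ^ (s - t - ε) ≤ (n : ℝ) ^ (1 : ℝ) := Real.rpow_le_rpow_of_exponent_le hn1 (by linarith)
            _ = n := Real.rpow_one _
        · refine le_trans ?_ (h1 hG.1)
          have e1 : ((⌈(n : ℝ) ^ (s - t - ε)⌉₊ : ℕ) : ℝ) ≤ 2 * (n : ℝ) ^ (s - t - ε) := by
            have a1 : (1 : ℝ) ≤ (n : ℝ) ^ (s - t - ε) := Real.one_le_rpow hn1 (by linarith)
            have a2 := Nat.ceil_lt_add_one (show 0 ≤ (n : ℝ) ^ (s - t - ε) by positivity)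
            linarith
          have e2 : 4 * Real.log n / (κ * (n : ℝ) ^ (-t)) + 1 ≤ (4 / κ + 1) * ((n : ℝ) ^ t * (Real.log n + 1)) := by
            rw [Real.rpow_neg hn0.le]
            have a1 : (1 : ℝ) ≤ (n : ℝ) ^ t := Real.one_le_rpow hn1 ht
            have a2 : 4 * Real.log n / (κ * ((n : ℝ) ^ t)⁻¹) = 4 / κ * ((n : ℝ) ^ t * Real.log n) := by
              field_simp
            rw [a2]
            have a3 : 0 < 4 / κ := by positivity
            have a4 : 0 ≤ (n : ℝ) ^ t * Real.log n := by positivity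
            have a5 : 0 ≤ 4 / κ * (n : ℝ) ^ t := by positivity
            nlinarith
          have e3 : (n : ℝ) ^ s = (n : ℝ) ^ (s - t - ε) * (n : ℝ) ^ t * (n : ℝ) ^ ε := by
            rw [← Real.rpow_add hn0, ← Real.rpow_add hn0]
            congr 1
            ring
          have hp1 : 0 ≤ (n : ℝ) ^ (s - t - ε) := by positivity
          have hp2 : 0 ≤ (n : ℝ) ^ t := by positivity
          calc ((⌈(n : ℝ) ^ (s - t - ε)⌉₊ : ℕ) : ℝ) * (4 * Real.log n / (κ * (n : ℝ) ^ (-t)) + 1)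
              ≤ (2 * (n : ℝ) ^ (s - t - ε)) * ((4 / κ + 1) * ((n : ℝ) ^ t * (Real.log n + 1))) :=
                mul_le_mul e1 e2 (by positivity) (by positivity)
            _ = ((n : ℝ) ^ (s - t - ε) * (n : ℝ) ^ t) * (2 * (4 / κ + 1) * (Real.log n + 1)) := by ring
            _ ≤ ((n : ℝ) ^ (s - t - ε) * (n : ℝ) ^ t) * (c * (n : ℝ) ^ ε) :=
                mul_le_mul_of_nonneg_left h3 (by positivity)
            _ = c * (n : ℝ) ^ s := by rw [e3]; ring
      · rw [if_neg hG, if_neg hG]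
        simp)
  filter_upwards [h] with ω h1
  filter_upwards [h1, eventually_ge_atTop n1] with n h2 h3 hG
  obtain ⟨J, hJ1, hJ2, hJ3⟩ := h2
  rw [if_pos ⟨hG, h3⟩] at hJ1 hJ2
  exact ⟨J, hJ1, Nat.ceil_le.1 hJ2, hJ3⟩

end Pool.Agent.Q197.FM
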