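import Pool.Agent.Q197.FM.Four2
import Pool.Agent.Q197.FM.Pow

/-!
# Random sets and four squares with `x² + 3 y² + 5 z² + 7 w²`: the theorem
-/

set_option autoImplicit false
set_option linter.unusedSectionVars false

namespace Pool.Agent.Q197.FM

open Finset Filter MeasureTheory ProbabilityTheory
open scoped Topology

variable {Ω : Type*} [MeasurableSpace Ω] {μ : Measure Ω} [IsProbabilityMeasure μ] {A : Ω → Set ℕ}

theorem four_random (hA : IndepElems μ A) {β ε δ c : ℝ} (hβ : 0 ≤ β) (hε : 0 < ε) (hβε : 2 * β + 2 * ε ≤ 1 / 2)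
    (hc : 0 < c)
    (hval : ∀ n : ℕ, 7 ≤ n → Odd n →
      ∃ P : Finset ℕ, c * (n : ℝ) ^ (1 / 2 - ε) ≤ P.card ∧ (∀ p ∈ P, ∀ q ∈ P, p % 4 = q % 4) ∧
      ∀ p ∈ P, n ≤ p ∧ p ≤ 7 * n ∧
        (∀ q : ℕ, q.Prime → q ∣ p → (p : ℝ) ^ δ < q) ∧ (∀ q : ℕ, q.Prime → q ∣ p - 2 → ((p - 2 : ℕ) : ℝ) ^ δ < q) ∧
        ∃ x y z w : ℤ, (n : ℤ) = x ^ 2 + y ^ 2 + z ^ 2 + w ^ 2 ∧
          (p : ℤ) = x ^ 2 + 3 * y ^ 2 + 5 * z ^ 2 + 7 * w ^ 2)
    {m₀ : ℕ} (hm : ∀ m : ℕ, m₀ ≤ m → (∀ q : ℕ, q.Prime → q ∣ m → (m : ℝ) ^ δ < q) →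
      (m : ℝ) ^ (-β) ≤ μ.real {ω | m ∈ A ω}) :
    ∀ᵐ ω ∂μ, ∀ᶠ n : ℕ in atTop, Odd n → ∃ P : Finset ℕ, (n : ℝ) ^ (1 / 2 - 2 * β - 2 * ε) ≤ P.card ∧
      ∀ p ∈ P, 2 ≤ p ∧ p ∈ A ω ∧ p - 2 ∈ A ω ∧ ∃ x y z w : ℤ, (n : ℤ) = x ^ 2 + y ^ 2 + z ^ 2 + w ^ 2 ∧
          (p : ℤ) = x ^ 2 + 3 * y ^ 2 + 5 * z ^ 2 + 7 * w ^ 2 := by
  classical
  have hval' : ∀ n : ℕ, ∃ P : Finset ℕ, 7 ≤ n → Odd n → c * (n : ℝ) ^ (1 / 2 - ε) ≤ P.card ∧
      (∀ p ∈ P, ∀ q ∈ P, p % 4 = q % 4) ∧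
      ∀ p ∈ P, n ≤ p ∧ p ≤ 7 * n ∧
        (∀ q : ℕ, q.Prime → q ∣ p → (p : ℝ) ^ δ < q) ∧ (∀ q : ℕ, q.Prime → q ∣ p - 2 → ((p - 2 : ℕ) : ℝ) ^ δ < q) ∧
        ∃ x y z w : ℤ, (n : ℤ) = x ^ 2 + y ^ 2 + z ^ 2 + w ^ 2 ∧
          (p : ℤ) = x ^ 2 + 3 * y ^ 2 + 5 * z ^ 2 + 7 * w ^ 2 := by
    intro n
    by_cases h : 7 ≤ n ∧ Odd n
    · obtain ⟨P, hP⟩ := hval n h.1 h.2
      exact ⟨P, fun _ _ => hP⟩
    · exact ⟨∅, fun h1 h2 => absurd ⟨h1, h2⟩ h⟩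
  choose P hP using hval'
  have h := hA.many_pow (fun n => Odd n) P (fun _ p => {p, p - 2}) (s := 1 / 2 - ε) (t := 2 * β) (ε := ε)
    (κ := (7 : ℝ) ^ (-(2 * β))) (c := c) (by
      filter_upwards [eventually_ge_atTop 7] with n hn hodd p hp q hq hpq
      obtain ⟨_, h2, h3⟩ := hP n hn hodd
      have h4 := h2 p hp q hq
      have h5 := (h3 p hp).1
      have h6 := (h3 q hq).1
      rw [disjoint_left]
      intro a ha hb
      simp only [mem_insert, mem_singleton] at ha hb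
      omega) (by linarith) (by linarith) hε (by linarith) (by positivity) hc (by
      filter_upwards [eventually_ge_atTop 7] with n hn hodd
      exact (hP n hn hodd).1) (by
      filter_upwards [eventually_ge_atTop (m₀ + 7)] with n hn hodd p hp
      obtain ⟨_, _, h3⟩ := hP n (by omega) hodd
      obtain ⟨g1, g2, g3, g4, _⟩ := h3 p hp
      have hne : p ≠ p - 2 := by omega
      rw [prod_pair hne]
      have key : ∀ m : ℕ, 1 ≤ m → m ≤ 7 * n → (7 * (n : ℝ)) ^ (-β) ≤ (m : ℝ) ^ (-β) := by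
        intro m hm1 hm2
        have : (0 : ℝ) < m := by exact_mod_cast hm1
        exact Real.rpow_le_rpow_of_nonpos this (by exact_mod_cast hm2) (by linarith)
      have k1 := (key p (by omega) g2).trans (hm p (by omega) g3)
      have k2 : (7 * (n : ℝ)) ^ (-β) ≤ μ.real {ω | p - 2 ∈ A ω} := by
        have hp2 : n - 2 ≤ p - 2 := by omega
        refine (key (p - 2) (by omega) (by omega)).trans (hm (p - 2) (by omega) ?_)
        intro q hq hqp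
        exact g4 q hq hqp
      have hn0 : (0 : ℝ) < n := by exact_mod_cast (show 0 < n by omega)
      calc (7 : ℝ) ^ (-(2 * β)) * (n : ℝ) ^ (-(2 * β)) = (7 * (n : ℝ)) ^ (-β) * (7 * (n : ℝ)) ^ (-β) := by
            rw [← Real.rpow_add (by positivity), ← Real.mul_rpow (by norm_num) hn0.le]
            congr 1
            ring
        _ ≤ _ := mul_le_mul k1 k2 (by positivity) measureReal_nonneg)
  filter_upwards [h] with ω h1
  filter_upwards [h1, eventually_ge_atTop 7] with n h2 hn hodd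
  obtain ⟨J, hJ1, hJ2, hJ3⟩ := h2 hodd
  obtain ⟨_, _, h3⟩ := hP n hn hodd
  refine ⟨J, ?_, fun p hp => ?_⟩
  · convert hJ2 using 2
    ring
  · obtain ⟨g1, g2, g3, g4, g5⟩ := h3 p (hJ1 hp)
    exact ⟨by omega, hJ3 p hp p (by simp), hJ3 p hp (p - 2) (by simp), g5⟩

end Pool.Agent.Q197.FM
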