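import Pool.Agent.Q197.CI.RowU

/-!
# Random sets with independent elements
-/

set_option autoImplicit false
set_option linter.unusedSectionVars false

namespace Pool.Agent.Q197.FM

open Finset Filter MeasureTheory ProbabilityTheory
open scoped Topology

variable {Ω : Type*} [MeasurableSpace Ω] {μ : Measure Ω} [IsProbabilityMeasure μ] {A : Ω → Set ℕ}

/-- The events `a ∈ A` are measurable and independent. -/
structure IndepElems {Ω : Type*} [MeasurableSpace Ω] (μ : Measure Ω) (A : Ω → Set ℕ) : Prop where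
  meas : ∀ a : ℕ, MeasurableSet {ω | a ∈ A ω}
  indep : iIndepSet (fun a : ℕ => {ω | a ∈ A ω}) μ

theorem IndepElems.prob_all (hA : IndepElems μ A) (W : Finset ℕ) :
    μ.real {ω | ∀ a ∈ W, a ∈ A ω} = ∏ a ∈ W, μ.real {ω | a ∈ A ω} := by
  have h1 := hA.indep.meas_biInter W
  have h2 : {ω | ∀ a ∈ W, a ∈ A ω} = ⋂ a ∈ W, {ω | a ∈ A ω} := by
    ext ω
    simp
  unfold Measure.real
  rw [h2, h1, ENNReal.toReal_prod]

theorem IndepElems.prob_none (hA : IndepElems μ A) {ι : Type*} (I : Finset ι) (W : ι → Finset ℕ)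
    (hd : ∀ i ∈ I, ∀ j ∈ I, i ≠ j → Disjoint (W i) (W j)) :
    μ.real {ω | ∀ i ∈ I, ¬ ∀ a ∈ W i, a ∈ A ω} = ∏ i ∈ I, (1 - ∏ a ∈ W i, μ.real {ω | a ∈ A ω}) := by
  classical
  induction I using Finset.induction_on with
  | empty => simp
  | insert i I hi ih =>
    rw [prod_insert hi, ← ih (fun a ha b hb => hd a (mem_insert_of_mem ha) b (mem_insert_of_mem hb))]
    obtain ⟨T, hT⟩ : ∃ T : Finset ℕ, T = I.biUnion W := ⟨_, rfl⟩
    have hdis : Disjoint (W i) T := by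
      rw [hT, disjoint_biUnion_right]
      intro j hj
      exact hd i (mem_insert_self i I) j (mem_insert_of_mem hj) (fun h => hi (h ▸ hj))
    have hfun : iIndepFun (fun a => ({ω | a ∈ A ω} : Set Ω).indicator (fun _ => (1 : ℕ))) μ :=
      hA.indep.iIndepFun_indicator
    have h1 := hfun.indepFun_finset (W i) T hdis (fun a => (measurable_const.indicator (hA.meas a)))
    have hmem : ∀ (a : ℕ) (ω : Ω), ({ω | a ∈ A ω} : Set Ω).indicator (fun _ => (1 : ℕ)) ω = 1 ↔ a ∈ A ω := by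
      intro a ω
      by_cases h : a ∈ A ω
      · rw [Set.indicator_of_mem (show ω ∈ {ω | a ∈ A ω} from h)]
        simp [h]
      · rw [Set.indicator_of_notMem (show ω ∉ {ω | a ∈ A ω} from h)]
        simp [h]
    have h2 := h1.measure_inter_preimage_eq_mul {f | ¬ ∀ a, f a = 1} {f | ∀ j ∈ I, ¬ ∀ a, ∀ ha : a ∈ T, a ∈ W j → f ⟨a, ha⟩ = 1}
      MeasurableSet.of_discrete MeasurableSet.of_discrete
    have e1 : (fun ω (a : W i) => ({ω | (a : ℕ) ∈ A ω} : Set Ω).indicator (fun _ => (1 : ℕ)) ω) ⁻¹' {f | ¬ ∀ a, f a = 1} =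
        {ω | ¬ ∀ a ∈ W i, a ∈ A ω} := by
      ext ω
      simp only [Set.mem_preimage, Set.mem_ofPred_eq, hmem, Subtype.forall]
    have e2 : (fun ω (a : T) => ({ω | (a : ℕ) ∈ A ω} : Set Ω).indicator (fun _ => (1 : ℕ)) ω) ⁻¹'
        {f | ∀ j ∈ I, ¬ ∀ a, ∀ ha : a ∈ T, a ∈ W j → f ⟨a, ha⟩ = 1} = {ω | ∀ j ∈ I, ¬ ∀ a ∈ W j, a ∈ A ω} := by
      ext ω
      simp only [Set.mem_preimage, Set.mem_ofPred_eq, hmem]
      constructor
      · intro h j hj h3
        exact h j hj (fun a _ ha => h3 a ha)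
      · intro h j hj h3
        refine h j hj (fun a ha => h3 a ?_ ha)
        rw [hT, mem_biUnion]
        exact ⟨j, hj, ha⟩
    rw [e1, e2] at h2
    have e3 : {ω | ∀ j ∈ insert i I, ¬ ∀ a ∈ W j, a ∈ A ω} =
        {ω | ¬ ∀ a ∈ W i, a ∈ A ω} ∩ {ω | ∀ j ∈ I, ¬ ∀ a ∈ W j, a ∈ A ω} := by
      ext ω
      simp only [Set.mem_ofPred_eq, Set.mem_inter_iff, mem_insert, forall_eq_or_imp]
    have e4 : μ.real {ω | ¬ ∀ a ∈ W i, a ∈ A ω} = 1 - ∏ a ∈ W i, μ.real {ω | a ∈ A ω} := by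
      rw [← hA.prob_all]
      have h3 : MeasurableSet {ω | ∀ a ∈ W i, a ∈ A ω} := by
        have : {ω | ∀ a ∈ W i, a ∈ A ω} = ⋂ a ∈ W i, {ω | a ∈ A ω} := by
          ext ω
          simp
        rw [this]
        exact Finset.measurableSet_biInter _ (fun a _ => hA.meas a)
      have h4 := probReal_compl_eq_one_sub (μ := μ) h3
      rw [← h4]
      rfl
    rw [e3, ← e4]
    unfold Measure.real
    rw [h2, ENNReal.toReal_mul]

/-- An upper bound for the probability of no success. -/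
theorem IndepElems.prob_none_le (hA : IndepElems μ A) {ι : Type*} (I : Finset ι) (W : ι → Finset ℕ)
    (hd : ∀ i ∈ I, ∀ j ∈ I, i ≠ j → Disjoint (W i) (W j)) {τ : ℝ}
    (hτ : ∀ i ∈ I, τ ≤ ∏ a ∈ W i, μ.real {ω | a ∈ A ω}) :
    μ.real {ω | ∀ i ∈ I, ¬ ∀ a ∈ W i, a ∈ A ω} ≤ Real.exp (-(I.card * τ)) := by
  rw [hA.prob_none I W hd]
  have h1 : ∀ i ∈ I, 1 - ∏ a ∈ W i, μ.real {ω | a ∈ A ω} ≤ Real.exp (-τ) := by
    intro i hi
    have h2 := hτ i hi
    have h3 := Real.add_one_le_exp (-τ)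
    linarith
  refine (prod_le_prod (fun i _ => ?_) h1).trans (le_of_eq ?_)
  · have : ∏ a ∈ W i, μ.real {ω | a ∈ A ω} ≤ 1 := prod_le_one (fun _ _ => measureReal_nonneg) (fun _ _ => measureReal_le_one)
    linarith
  · rw [prod_const, ← Real.exp_nat_mul]
    congr 1
    ring

/-- Partition into groups. -/
theorem groups {ι : Type*} (I : Finset ι) (m K : ℕ) (hm : K * m ≤ I.card) : ∃ G : ℕ → Finset ι,
    (∀ k, G k ⊆ I) ∧ (∀ k < K, (G k).card = m) ∧ ∀ k < K, ∀ l < K, k ≠ l → Disjoint (G k) (G l) := by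
  classical
  obtain ⟨e⟩ : Nonempty (I ≃ Fin I.card) := ⟨I.equivFin⟩
  refine ⟨fun k => (univ.filter (fun i : I => k * m ≤ (e i : ℕ) ∧ (e i : ℕ) < (k + 1) * m)).map (Function.Embedding.subtype _),
    fun k => ?_, fun k hk => ?_, fun k _ l _ hkl => ?_⟩
  · intro i hi
    rw [Finset.mem_map] at hi
    obtain ⟨j, _, rfl⟩ := hi
    exact j.2
  · rw [card_map]
    have h1 : (univ.filter (fun i : I => k * m ≤ (e i : ℕ) ∧ (e i : ℕ) < (k + 1) * m)).card =
        (univ.filter (fun i : Fin I.card => k * m ≤ (i : ℕ) ∧ (i : ℕ) < (k + 1) * m)).card := by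
      refine card_bij (fun i _ => e i) (fun i hi => ?_) (fun i _ j _ h => e.injective h) (fun i hi => ?_)
      · rw [mem_filter] at hi ⊢
        exact ⟨mem_univ _, hi.2⟩
      · refine ⟨e.symm i, ?_, by simp⟩
        rw [mem_filter] at hi ⊢
        simpa using hi.2
    rw [h1]
    have h2 : (k + 1) * m ≤ I.card := (Nat.mul_le_mul_right m (by omega)).trans hm
    have h3 : (univ.filter (fun i : Fin I.card => k * m ≤ (i : ℕ) ∧ (i : ℕ) < (k + 1) * m)).card = (Ico (k * m) ((k + 1) * m)).card := by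
      refine card_bij (fun i _ => (i : ℕ)) (fun i hi => ?_) (fun i _ j _ h => Fin.ext h) (fun i hi => ?_)
      · rw [mem_filter] at hi
        rw [mem_Ico]
        exact hi.2
      · rw [mem_Ico] at hi
        exact ⟨⟨i, by omega⟩, by rw [mem_filter]; exact ⟨mem_univ _, hi⟩, rfl⟩
    rw [h3, Nat.card_Ico, Nat.succ_mul]
    omega
  · rw [disjoint_left]
    intro i hi hj
    rw [Finset.mem_map] at hi hj
    obtain ⟨i', hi', rfl⟩ := hi
    obtain ⟨j', hj', hji⟩ := hj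
    have : j' = i' := Subtype.ext hji
    subst this
    rw [mem_filter] at hi' hj'
    rcases Nat.lt_or_ge k l with h | h
    · have := Nat.mul_le_mul_right m (show k + 1 ≤ l by omega)
      omega
    · have := Nat.mul_le_mul_right m (show l + 1 ≤ k by omega)
      omega

/-- Many successes, almost surely, for all large `n`. -/
theorem IndepElems.many (hA : IndepElems μ A) {ι : ℕ → Type*} (I : ∀ n, Finset (ι n)) (W : ∀ n, ι n → Finset ℕ)
    (hd : ∀ n, ∀ i ∈ I n, ∀ j ∈ I n, i ≠ j → Disjoint (W n i) (W n j)) (τ : ℕ → ℝ) (K : ℕ → ℕ)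
    (hτ : ∀ᶠ n : ℕ in atTop, 0 < τ n ∧ ∀ i ∈ I n, τ n ≤ ∏ a ∈ W n i, μ.real {ω | a ∈ A ω})
    (hK : ∀ᶠ n : ℕ in atTop, K n ≤ n ∧ (K n : ℝ) * (4 * Real.log n / τ n + 1) ≤ (I n).card) :
    ∀ᵐ ω ∂μ, ∀ᶠ n : ℕ in atTop, ∃ J ⊆ I n, K n ≤ J.card ∧ ∀ i ∈ J, ∀ a ∈ W n i, a ∈ A ω := by
  classical
  obtain ⟨m, hm⟩ : ∃ m : ℕ → ℕ, m = fun n : ℕ => ⌈4 * Real.log (n : ℝ) / τ n⌉₊ := ⟨_, rfl⟩
  have hg : ∀ n, ∃ G : ℕ → Finset (ι n), K n * m n ≤ (I n).card →
      ((∀ k, G k ⊆ I n) ∧ (∀ k < K n, (G k).card = m n) ∧ ∀ k < K n, ∀ l < K n, k ≠ l → Disjoint (G k) (G l)) := by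
    intro n
    by_cases h : K n * m n ≤ (I n).card
    · obtain ⟨G, hG⟩ := groups (I n) (m n) (K n) h
      exact ⟨G, fun _ => hG⟩
    · exact ⟨fun _ => ∅, fun h' => absurd h' h⟩
  choose G hG using hg
  obtain ⟨E, hE⟩ : ∃ E : ℕ → Set Ω, E = fun n => ⋃ k ∈ range (K n), {ω | ∀ i ∈ G n k, ¬ ∀ a ∈ W n i, a ∈ A ω} := ⟨_, rfl⟩
  have hprob : ∀ᶠ n : ℕ in atTop, μ.real (E n) ≤ (n : ℝ) ^ (-3 : ℝ) := by
    filter_upwards [hτ, hK, eventually_ge_atTop 2] with n h1 h2 h3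
    have hn0 : (0 : ℝ) < n := by exact_mod_cast (show 0 < n by omega)
    have hL : 0 < Real.log (n : ℝ) := Real.log_pos (by exact_mod_cast (show 1 < n by omega))
    have hm1 : (m n : ℝ) ≤ 4 * Real.log n / τ n + 1 := by
      rw [hm]
      exact (Nat.ceil_lt_add_one (by have := h1.1; positivity)).le
    have hm2 : 4 * Real.log n / τ n ≤ m n := by
      rw [hm]
      exact Nat.le_ceil _
    have hcard : K n * m n ≤ (I n).card := by
      have : (K n : ℝ) * m n ≤ (I n).card := (mul_le_mul_of_nonneg_left hm1 (Nat.cast_nonneg _)).trans h2.2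
      exact_mod_cast this
    obtain ⟨g1, g2, g3⟩ := hG n hcard
    have h4 : ∀ k ∈ range (K n), μ.real {ω | ∀ i ∈ G n k, ¬ ∀ a ∈ W n i, a ∈ A ω} ≤ (n : ℝ) ^ (-4 : ℝ) := by
      intro k hk
      rw [mem_range] at hk
      refine (hA.prob_none_le (G n k) (W n) (fun i hi j hj => hd n i (g1 k hi) j (g1 k hj)) (τ := τ n)
        (fun i hi => h1.2 i (g1 k hi))).trans ?_
      rw [g2 k hk, Real.rpow_def_of_pos hn0, Real.exp_le_exp]
      rw [div_le_iff₀ h1.1] at hm2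
      linarith
    have h5 : μ.real (E n) ≤ ∑ k ∈ range (K n), μ.real {ω | ∀ i ∈ G n k, ¬ ∀ a ∈ W n i, a ∈ A ω} := by
      rw [hE]
      exact measureReal_biUnion_finset_le _ _
    refine h5.trans ((sum_le_sum h4).trans ?_)
    rw [sum_const, card_range, nsmul_eq_mul]
    have h6 : (K n : ℝ) ≤ n := by exact_mod_cast h2.1
    have h7 : (n : ℝ) ^ (-3 : ℝ) = n * (n : ℝ) ^ (-4 : ℝ) := by
      nth_rw 2 [← Real.rpow_one (n : ℝ)]
      rw [← Real.rpow_add hn0]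
      norm_num
    rw [h7]
    exact mul_le_mul_of_nonneg_right h6 (Real.rpow_nonneg hn0.le _)
  have hbc : ∀ᵐ ω ∂μ, ∀ᶠ n in atTop, ω ∉ E n :=
    Pool.Agent.Q197.CI.bc hprob (Real.summable_nat_rpow.2 (by norm_num))
  filter_upwards [hbc] with ω h1
  filter_upwards [h1, hτ, hK, eventually_ge_atTop 2] with n h2 h3 h4 h5
  have hn0 : (0 : ℝ) < n := by exact_mod_cast (show 0 < n by omega)
  have hL : 0 < Real.log (n : ℝ) := Real.log_pos (by exact_mod_cast (show 1 < n by omega))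
  have hm1 : (m n : ℝ) ≤ 4 * Real.log n / τ n + 1 := by
    rw [hm]
    exact (Nat.ceil_lt_add_one (by have := h3.1; positivity)).le
  have hcard : K n * m n ≤ (I n).card := by
    have : (K n : ℝ) * m n ≤ (I n).card := (mul_le_mul_of_nonneg_left hm1 (Nat.cast_nonneg _)).trans h4.2
    exact_mod_cast this
  obtain ⟨g1, g2, g3⟩ := hG n hcard
  have h6 : ∀ k < K n, ∃ i ∈ G n k, ∀ a ∈ W n i, a ∈ A ω := by
    intro k hk
    by_contra hne
    push Not at hne
    apply h2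
    rw [hE]
    simp only [Set.mem_iUnion, mem_range, Set.mem_ofPred_eq]
    refine ⟨k, hk, fun i hi h7 => ?_⟩
    obtain ⟨a, ha, ha'⟩ := hne i hi
    exact ha' (h7 a ha)
  have h7 : ∀ k : Fin (K n), ∃ i ∈ G n k, ∀ a ∈ W n i, a ∈ A ω := fun k => h6 k k.2
  choose f hf1 hf2 using h7
  have hinj : Function.Injective f := by
    intro k l hkl
    by_contra hne
    have h8 := g3 k k.2 l l.2 (fun h => hne (Fin.ext h))
    exact (disjoint_left.1 h8) (hf1 k) (hkl ▸ hf1 l)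
  refine ⟨univ.image f, fun i hi => ?_, ?_, fun i hi => ?_⟩
  · rw [mem_image] at hi
    obtain ⟨k, _, rfl⟩ := hi
    exact g1 k (hf1 k)
  · rw [card_image_of_injective _ hinj, card_univ, Fintype.card_fin]
  · rw [mem_image] at hi
    obtain ⟨k, _, rfl⟩ := hi
    exact hf2 k

end Pool.Agent.Q197.FM
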