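import Pool.Agent.Q197.FM.Pow
import Pool.Agent.Q253.Line.Main

/-!
# Families of polynomials on the lines `x + y = n`: disjoint sets of rough values
-/

set_option autoImplicit false
set_option linter.unusedSectionVars false

namespace Pool.Agent.Q197.FM

open Finset Filter Polynomial Pool.Agent.Q253.Line
open scoped Topology

/-- A symmetric relation with few neighbours has a large independent set. -/
theorem indep_subset {α : Type*} [DecidableEq α] (X : Finset α) (R : α → α → Prop) (hs : ∀ x y, R x y → R y x)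
    (Δ : ℕ) (hΔ : ∀ x ∈ X, ∀ Y ⊆ X, (∀ y ∈ Y, R x y) → Y.card ≤ Δ) :
    ∃ I ⊆ X, X.card ≤ (Δ + 1) * I.card ∧ ∀ x ∈ I, ∀ y ∈ I, x ≠ y → ¬ R x y := by
  classical
  obtain ⟨P, hP⟩ : ∃ P : Finset α → Prop, ∀ I, P I ↔ ∀ x ∈ I, ∀ y ∈ I, x ≠ y → ¬ R x y := ⟨_, fun _ => Iff.rfl⟩
  obtain ⟨I, hI, hmax⟩ := exists_max_image (X.powerset.filter P) card
    ⟨∅, by
      rw [mem_filter, hP]
      simp⟩
  rw [mem_filter, mem_powerset, hP] at hI
  refine ⟨I, hI.1, ?_, hI.2⟩
  have hcov : X ⊆ I.biUnion (fun i => insert i (X.filter (R i))) := by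
    intro x hx
    rw [mem_biUnion]
    by_contra hcon
    push Not at hcon
    have hxI : x ∉ I := fun h => hcon x h (mem_insert_self _ _)
    have h1 : insert x I ∈ X.powerset.filter P := by
      rw [mem_filter, mem_powerset, hP]
      refine ⟨insert_subset hx hI.1, fun a ha b hb hab hR => ?_⟩
      rw [mem_insert] at ha hb
      rcases ha with rfl | ha <;> rcases hb with rfl | hb
      · exact hab rfl
      · exact hcon b hb (mem_insert_of_mem (mem_filter.2 ⟨hx, hs _ _ hR⟩))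
      · exact hcon a ha (mem_insert_of_mem (mem_filter.2 ⟨hx, hR⟩))
      · exact hI.2 a ha b hb hab hR
    have h2 := hmax _ h1
    rw [card_insert_of_notMem hxI] at h2
    omega
  refine (card_le_card hcov).trans ((card_biUnion_le).trans ?_)
  refine (sum_le_card_nsmul _ _ (Δ + 1) (fun i hi => ?_)).trans (by rw [smul_eq_mul, mul_comm])
  have h1 := hΔ i (hI.1 hi) (X.filter (R i)) (filter_subset _ _) (fun y hy => (mem_filter.1 hy).2)
  exact (card_insert_le _ _).trans (by omega)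

theorem roots_card {g : ℤ[X]} (hg : 1 ≤ g.natDegree) (t : ℤ) (Y : Finset ℕ) (hY : ∀ x ∈ Y, g.eval (x : ℤ) = t) :
    Y.card ≤ g.natDegree := by
  classical
  have h3 : g - C t ≠ 0 := by
    intro h
    have h4 : g = C t := sub_eq_zero.1 h
    rw [h4, natDegree_C] at hg
    omega
  have h4 : Y.card ≤ (g - C t).roots.toFinset.card := by
    apply card_le_card_of_injOn (fun x : ℕ => (x : ℤ))
    · intro x hx
      rw [mem_coe, Multiset.mem_toFinset, mem_roots h3, IsRoot.def, eval_sub, eval_C, hY x (mem_coe.1 hx), sub_self]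
    · intro x _ y _ h
      have h' : (x : ℤ) = (y : ℤ) := h
      exact_mod_cast h'
  refine h4.trans ((Multiset.toFinset_card_le _).trans ((card_roots' _).trans ?_))
  rw [natDegree_sub_C]

theorem roots_abs_card {g : ℤ[X]} (hg : 1 ≤ g.natDegree) (v : ℕ) (Y : Finset ℕ)
    (hY : ∀ x ∈ Y, (g.eval (x : ℤ)).natAbs = v) : Y.card ≤ 2 * g.natDegree := by
  classical
  have h1 : Y = Y.filter (fun x : ℕ => g.eval (x : ℤ) = v) ∪ Y.filter (fun x : ℕ => g.eval (x : ℤ) = -v) := by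
    ext x
    rw [mem_union, mem_filter, mem_filter]
    constructor
    · intro hx
      have h2 := hY x hx
      rcases Int.natAbs_eq (g.eval (x : ℤ)) with h3 | h3
      · left
        exact ⟨hx, by rw [h3, h2]⟩
      · right
        exact ⟨hx, by rw [h3, h2]⟩
    · rintro (h | h) <;> exact h.1
  rw [h1]
  refine (card_union_le _ _).trans ?_
  have h2 := roots_card hg (v : ℤ) (Y.filter (fun x : ℕ => g.eval (x : ℤ) = v)) (fun x hx => (mem_filter.1 hx).2)
  have h3 := roots_card hg (-(v : ℤ)) (Y.filter (fun x : ℕ => g.eval (x : ℤ) = -v)) (fun x hx => (mem_filter.1 hx).2)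
  omega

/-- The values of the family at `x`. -/
noncomputable def vals {m : ℕ} (f : Fin m → MvPolynomial (Fin 2) ℤ) (n x : ℕ) : Finset ℕ :=
  univ.image (fun k => (val (f k) x (n - x)).natAbs)

theorem log_pow_small (D : ℕ) (ε : ℝ) (hε : 0 < ε) : ∀ᶠ n : ℕ in atTop, Real.log n ^ D ≤ (n : ℝ) ^ ε := by
  filter_upwards [log_small 1 1 (ε / (D + 1)) (by positivity) one_pos, eventually_ge_atTop 1] with n h2 h4
  have hn0 : (0 : ℝ) < n := by exact_mod_cast h4
  have hL : 0 ≤ Real.log (n : ℝ) := Real.log_natCast_nonneg n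
  calc Real.log (n : ℝ) ^ D ≤ ((n : ℝ) ^ (ε / (D + 1))) ^ D := pow_le_pow_left₀ hL (by linarith) _
    _ = (n : ℝ) ^ (ε / (D + 1) * D) := by
      rw [← Real.rpow_natCast, ← Real.rpow_mul hn0.le]
    _ ≤ (n : ℝ) ^ ε := by
      refine Real.rpow_le_rpow_of_exponent_le (by exact_mod_cast h4) ?_
      have hd : (0 : ℝ) ≤ D := Nat.cast_nonneg _
      rw [div_mul_eq_mul_div, div_le_iff₀ (by positivity)]
      nlinarith

theorem main_size (D : ℕ) {a b ε : ℝ} (ha : 0 ≤ a) (hb : 0 < b) (hε : 0 < ε) (hε1 : ε ≤ 1 / 2) :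
    ∀ᶠ n : ℕ in atTop, a * (n : ℝ) ^ (1 - ε) + a ≤ b * (n / Real.log n ^ D) := by
  filter_upwards [log_pow_small D (ε / 2) (by linarith), log_small (2 * a / b) 1 (ε / 2) (by linarith) one_pos,
    eventually_ge_atTop 3] with n h1 h2 h3
  have hn0 : (0 : ℝ) < n := by exact_mod_cast (show 0 < n by omega)
  have hn1 : (1 : ℝ) ≤ n := by exact_mod_cast (show 1 ≤ n by omega)
  have hL : 0 < Real.log (n : ℝ) := Real.log_pos (by exact_mod_cast (show 1 < n by omega))
  have h4 : 2 * a / b ≤ (n : ℝ) ^ (ε / 2) := by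
    have h7 : 0 ≤ 2 * a / b := by positivity
    nlinarith
  have h5 : (1 : ℝ) ≤ (n : ℝ) ^ (1 - ε) := Real.one_le_rpow hn1 (by linarith)
  have h6 : (n : ℝ) ^ (1 - ε) * ((n : ℝ) ^ (ε / 2) * (n : ℝ) ^ (ε / 2)) = n := by
    rw [← Real.rpow_add hn0, ← Real.rpow_add hn0]
    conv_rhs => rw [← Real.rpow_one (n : ℝ)]
    congr 1
    ring
  rw [div_le_iff₀ hb] at h4
  have h7 : a * (n : ℝ) ^ (1 - ε) + a ≤ 2 * a * (n : ℝ) ^ (1 - ε) := by nlinarith
  refine h7.trans ?_
  have h8 : 0 < (n : ℝ) ^ (1 - ε) := by positivity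
  have h9 : 0 < (n : ℝ) ^ (ε / 2) := by positivity
  rw [mul_div_assoc', le_div_iff₀ (by positivity)]
  calc 2 * a * (n : ℝ) ^ (1 - ε) * Real.log n ^ D ≤ 2 * a * (n : ℝ) ^ (1 - ε) * (n : ℝ) ^ (ε / 2) :=
        mul_le_mul_of_nonneg_left h1 (by positivity)
    _ ≤ ((n : ℝ) ^ (ε / 2) * b) * (n : ℝ) ^ (1 - ε) * (n : ℝ) ^ (ε / 2) := by
        refine mul_le_mul_of_nonneg_right (mul_le_mul_of_nonneg_right h4 h8.le) h9.le
    _ = b * ((n : ℝ) ^ (1 - ε) * ((n : ℝ) ^ (ε / 2) * (n : ℝ) ^ (ε / 2))) := by ring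
    _ = b * n := by rw [h6]

/-- Disjoint sets of rough values. -/
theorem line_places : ∃ K : ℕ, ∀ (m : ℕ) (f : Fin m → MvPolynomial (Fin 2) ℤ), Admissible f →
    ∀ ε : ℝ, 0 < ε → ∀ᶠ n : ℕ in atTop, ∃ I : Finset ℕ, (n : ℝ) ^ (1 - ε) ≤ I.card ∧
      (∀ x ∈ I, ∀ y ∈ I, x ≠ y → Disjoint (vals f n x) (vals f n y)) ∧
      ∀ x ∈ I, 0 < x ∧ x < n ∧ ∀ v ∈ vals f n x, 1 < v ∧ v ≤ n ^ (deg f + 1) ∧
        ∀ p : ℕ, p.Prime → p ∣ v → n < p ^ (K * (deg f + 1)) := by
  classical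
  obtain ⟨K, hK⟩ := Pool.Agent.Q253.Line.main
  refine ⟨K, fun m f hf => ?_⟩
  obtain ⟨c, C₀, N, hc, hmain⟩ := hK m f hf
  obtain ⟨N₀, hadm⟩ := hf
  choose L hL using fun k => abs_val_le (f k)
  intro ε0 hε0
  obtain ⟨ε, hεd⟩ : ∃ ε : ℝ, ε = min ε0 (1 / 2) := ⟨_, rfl⟩
  have hε : 0 < ε := by rw [hεd]; exact lt_min hε0 (by norm_num)
  have hε1 : ε ≤ 1 / 2 := by rw [hεd]; exact min_le_right _ _
  have hε2 : ε ≤ ε0 := by rw [hεd]; exact min_le_left _ _
  obtain ⟨Δ, hΔ⟩ : ∃ Δ : ℕ, Δ = m * m * (2 * deg f) + m * (2 * deg f) := ⟨_, rfl⟩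
  filter_upwards [main_size (deg f) (a := (Δ : ℝ) + 1) (b := c ^ 2) (by positivity) (by positivity) hε hε1,
    eventually_ge_atTop (N + N₀ + 3), eventually_ge_atTop (∑ k, L k)] with n hsize hn hnL
  obtain ⟨h1, h2, _, h4, _⟩ := hmain n (by omega)
  obtain ⟨hirr, hnd⟩ := hadm n (by omega)
  have hn0 : (0 : ℝ) < n := by exact_mod_cast (show 0 < n by omega)
  have hn1 : (1 : ℝ) ≤ n := by exact_mod_cast (show 1 ≤ n by omega)
  have hdegk : ∀ k, (onLine (f k) n).natDegree ≤ deg f := by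
    intro k
    refine (natDegree_onLine (f k) n).trans ?_
    exact single_le_sum (f := fun k => (f k).totalDegree) (fun _ _ => Nat.zero_le _) (mem_univ k)
  have hpos : ∀ k, 1 ≤ (onLine (f k) n).natDegree := fun k => natDegree_pos hirr hnd k
  have hval : ∀ k (x : ℕ), (val (f k) x (n - x)).natAbs = ((onLine (f k) n).eval (x : ℤ)).natAbs := by
    intro k x
    rw [eval_onLine]
  -- the set without values 1
  obtain ⟨X, hX⟩ : ∃ X : Finset ℕ, X = (almost f K n).filter (fun x : ℕ => ∀ k, (val (f k) x (n - x)).natAbs ≠ 1) := ⟨_, rfl⟩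
  have hXc : (almost f K n).card ≤ X.card + m * (2 * deg f) := by
    have h5 : almost f K n ⊆ X ∪ univ.biUnion (fun k => (almost f K n).filter (fun x : ℕ => (val (f k) x (n - x)).natAbs = 1)) := by
      intro x hx
      rw [mem_union, hX, mem_filter, mem_biUnion]
      by_cases h6 : ∀ k, (val (f k) x (n - x)).natAbs ≠ 1
      · exact Or.inl ⟨hx, h6⟩
      · right
        push Not at h6
        obtain ⟨k, hk⟩ := h6
        exact ⟨k, mem_univ k, mem_filter.2 ⟨hx, hk⟩⟩
    refine (card_le_card h5).trans ((card_union_le _ _).trans (Nat.add_le_add_left ?_ _))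
    refine card_biUnion_le.trans ?_
    refine (sum_le_card_nsmul _ _ (2 * deg f) (fun k _ => ?_)).trans (by simp)
    refine (roots_abs_card (hpos k) 1 _ (fun x hx => ?_)).trans (Nat.mul_le_mul_left 2 (hdegk k))
    rw [← hval]
    exact (mem_filter.1 hx).2
  obtain ⟨I, hI1, hI2, hI3⟩ := indep_subset X (fun x y => ∃ a, a ∈ vals f n x ∧ a ∈ vals f n y)
    (fun x y ⟨a, h1, h2⟩ => ⟨a, h2, h1⟩) (m * m * (2 * deg f)) (fun x _ Y _ hY => by
      have h5 : Y ⊆ (univ : Finset (Fin m × Fin m)).biUnion (fun ij =>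
          Y.filter (fun y : ℕ => (val (f ij.2) y (n - y)).natAbs = (val (f ij.1) x (n - x)).natAbs)) := by
        intro y hy
        obtain ⟨a, ha1, ha2⟩ := hY y hy
        unfold vals at ha1 ha2
        rw [mem_image] at ha1 ha2
        obtain ⟨i, _, hi⟩ := ha1
        obtain ⟨j, _, hj⟩ := ha2
        rw [mem_biUnion]
        exact ⟨(i, j), mem_univ _, mem_filter.2 ⟨hy, by rw [hj, hi]⟩⟩
      refine (card_le_card h5).trans (card_biUnion_le.trans ?_)
      refine (sum_le_card_nsmul _ _ (2 * deg f) (fun ij _ => ?_)).trans (by simp)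
      refine (roots_abs_card (hpos ij.2) (val (f ij.1) x (n - x)).natAbs _ (fun y hy => ?_)).trans
        (Nat.mul_le_mul_left 2 (hdegk ij.2))
      rw [← hval]
      exact (mem_filter.1 hy).2)
  refine ⟨I, ?_, fun x hx y hy hxy => ?_, fun x hx => ?_⟩
  · have h5 : (almost f K n).card ≤ (Δ + 1) * I.card + Δ := by
      have h6 : X.card ≤ (Δ + 1) * I.card := hI2.trans (Nat.mul_le_mul_right _ (by omega))
      omega
    have h6 : ((almost f K n).card : ℝ) ≤ (Δ + 1) * I.card + Δ := by exact_mod_cast h5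
    have h7 : c ^ 2 * (n / Real.log n ^ deg f) ≤ ((almost f K n).card : ℝ) := by
      refine le_trans ?_ h2
      have h8 : n * (c / Real.log n ^ deg f) ≤ n * V f n := mul_le_mul_of_nonneg_left h1 hn0.le
      calc c ^ 2 * (n / Real.log n ^ deg f) = c * (n * (c / Real.log n ^ deg f)) := by ring
        _ ≤ _ := mul_le_mul_of_nonneg_left h8 hc.le
    have h8 : ((Δ : ℝ) + 1) * (n : ℝ) ^ (1 - ε) ≤ (Δ + 1) * I.card := by linarith
    have h9 : (n : ℝ) ^ (1 - ε) ≤ I.card := le_of_mul_le_mul_left h8 (by positivity)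
    exact (Real.rpow_le_rpow_of_exponent_le hn1 (by linarith)).trans h9
  · rw [disjoint_left]
    intro a ha hb
    exact hI3 x hx y hy hxy ⟨a, ha, hb⟩
  · have hxX := hI1 hx
    rw [hX, mem_filter] at hxX
    obtain ⟨hxa, hx1⟩ := hxX
    have hxa' := hxa
    unfold almost at hxa'
    rw [mem_filter, mem_Ioo] at hxa'
    obtain ⟨⟨hx0, hxn⟩, hrough⟩ := hxa'
    refine ⟨hx0, hxn, fun v hv => ?_⟩
    unfold vals at hv
    rw [mem_image] at hv
    obtain ⟨k, _, rfl⟩ := hv
    obtain ⟨hne, _⟩ := h4 x hxa k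
    have hne1 := hx1 k
    refine ⟨?_, ?_, fun p hp hpd => ?_⟩
    · have : (val (f k) x (n - x)).natAbs ≠ 0 := Int.natAbs_ne_zero.2 hne
      omega
    · have h5 := hL k n x (n - x) (by omega) (by
        rw [abs_of_nonneg (by positivity)]
        exact_mod_cast hxn.le) (by
        rw [abs_of_nonneg (by omega)]
        omega)
      have h6 : (val (f k) x (n - x)).natAbs ≤ L k * n ^ (f k).totalDegree := by
        zify
        exact h5
      have h7 : L k ≤ n := (single_le_sum (f := L) (fun _ _ => Nat.zero_le _) (mem_univ k)).trans hnL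
      have h8 : (f k).totalDegree ≤ deg f := single_le_sum (f := fun k => (f k).totalDegree) (fun _ _ => Nat.zero_le _) (mem_univ k)
      calc (val (f k) x (n - x)).natAbs ≤ L k * n ^ (f k).totalDegree := h6
        _ ≤ n * n ^ deg f := Nat.mul_le_mul h7 (Nat.pow_le_pow_right (by omega) h8)
        _ = n ^ (deg f + 1) := by rw [pow_succ, mul_comm]
    · by_contra hcon
      push Not at hcon
      exact hrough k p hp hcon (Int.natCast_dvd.2 hpd)

end Pool.Agent.Q197.FM
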