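import Pool.Agent.Q197.FM.Line1

/-!
# Random sets and admissible families on the lines `x + y = n`
-/

set_option autoImplicit false
set_option linter.unusedSectionVars false

namespace Pool.Agent.Q197.FM

open Finset Filter MeasureTheory ProbabilityTheory Pool.Agent.Q253.Line
open scoped Topology

variable {Ω : Type*} [MeasurableSpace Ω] {μ : Measure Ω} [IsProbabilityMeasure μ] {A : Ω → Set ℕ}

theorem prod_ge_pow {W : Finset ℕ} {g : ℕ → ℝ} {τ : ℝ} {m : ℕ} (hτ : 0 ≤ τ) (hτ1 : τ ≤ 1) (hW : W.card ≤ m)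
    (hg : ∀ a ∈ W, τ ≤ g a) : τ ^ m ≤ ∏ a ∈ W, g a := by
  calc τ ^ m ≤ τ ^ W.card := pow_le_pow_of_le_one hτ hτ1 hW
    _ = ∏ _a ∈ W, τ := by rw [prod_const]
    _ ≤ ∏ a ∈ W, g a := prod_le_prod (fun _ _ => hτ) hg

theorem line_random (hA : IndepElems μ A) {z : ℕ → ℝ}
    (hz : ∀ ε : ℝ, 0 < ε → ∀ᶠ n : ℕ in atTop, z n ≤ (n : ℝ) ^ ε)
    (hP : ∀ ε : ℝ, 0 < ε → ∀ᶠ n : ℕ in atTop, (∀ q : ℕ, q.Prime → q ∣ n → z n < q) →
      (n : ℝ) ^ (-ε) ≤ μ.real {ω | n ∈ A ω})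
    {m : ℕ} {f : Fin m → MvPolynomial (Fin 2) ℤ} {K : ℕ}
    (hpl : ∀ ε : ℝ, 0 < ε → ∀ᶠ n : ℕ in atTop, ∃ I : Finset ℕ, (n : ℝ) ^ (1 - ε) ≤ I.card ∧
      (∀ x ∈ I, ∀ y ∈ I, x ≠ y → Disjoint (vals f n x) (vals f n y)) ∧
      ∀ x ∈ I, 0 < x ∧ x < n ∧ ∀ v ∈ vals f n x, 1 < v ∧ v ≤ n ^ (deg f + 1) ∧
        ∀ p : ℕ, p.Prime → p ∣ v → n < p ^ K) (ε : ℝ) (hε : 0 < ε) (hε1 : ε ≤ 1) :
    ∀ᵐ ω ∂μ, ∀ᶠ n : ℕ in atTop, ∃ J : Finset ℕ, (n : ℝ) ^ (1 - ε) ≤ J.card ∧
      ∀ x ∈ J, 0 < x ∧ x < n ∧ ∀ k, (val (f k) x (n - x)).natAbs ∈ A ω := by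
  classical
  obtain ⟨n0, hn0⟩ := eventually_atTop.1 (hpl (ε / 4) (by linarith))
  have hI' : ∀ n : ℕ, ∃ I : Finset ℕ, n0 ≤ n → (n : ℝ) ^ (1 - ε / 4) ≤ I.card ∧
      (∀ x ∈ I, ∀ y ∈ I, x ≠ y → Disjoint (vals f n x) (vals f n y)) ∧
      ∀ x ∈ I, 0 < x ∧ x < n ∧ ∀ v ∈ vals f n x, 1 < v ∧ v ≤ n ^ (deg f + 1) ∧
        ∀ p : ℕ, p.Prime → p ∣ v → n < p ^ K := by
    intro n
    by_cases h : n0 ≤ n
    · obtain ⟨I, hI⟩ := hn0 n h
      exact ⟨I, fun _ => hI⟩
    · exact ⟨∅, fun h1 => absurd h1 h⟩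
  choose I hI using hI'
  obtain ⟨D, hD⟩ : ∃ D : ℕ, D = deg f := ⟨_, rfl⟩
  rw [← hD] at hI
  obtain ⟨η, hη⟩ : ∃ η : ℝ, η = ε / (4 * ((m : ℝ) + 1) * (D + 1)) := ⟨_, rfl⟩
  have hη0 : 0 < η := by rw [hη]; positivity
  obtain ⟨n1, hn1⟩ := eventually_atTop.1 (hz (1 / (2 * ((K : ℝ) + 1) * (D + 1))) (by positivity))
  obtain ⟨n2, hn2⟩ := eventually_atTop.1 (hP η hη0)
  have h := hA.many_pow (fun _ => True) I (fun n x => vals f n x) (s := 1 - ε / 4) (t := ε / 4) (ε := ε / 2)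
    (κ := 1) (c := 1) (by
      filter_upwards [eventually_ge_atTop n0] with n hn _ x hx y hy hxy
      exact (hI n hn).2.1 x hx y hy hxy) (by linarith) (by linarith) (by linarith) (by linarith) one_pos one_pos (by
      filter_upwards [eventually_ge_atTop n0] with n hn _
      rw [one_mul]
      exact (hI n hn).1) (by
      filter_upwards [eventually_ge_atTop n0, eventually_ge_atTop ((n1 + n2 + 2) ^ (K + 1))] with n hn hnbig _ x hx
      obtain ⟨_, _, g3⟩ := hI n hn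
      obtain ⟨_, _, g4⟩ := g3 x hx
      have hn1' : 1 ≤ n := le_trans (Nat.one_le_pow _ _ (by omega)) hnbig
      have hnr : (1 : ℝ) ≤ n := by exact_mod_cast hn1'
      have hn0r : (0 : ℝ) < n := by linarith
      rw [one_mul]
      have hcard : (vals f n x).card ≤ m := by
        unfold vals
        refine card_image_le.trans ?_
        simp
      have hτ : ∀ v ∈ vals f n x, (n : ℝ) ^ (-((D + 1) * η)) ≤ μ.real {ω | v ∈ A ω} := by
        intro v hv
        obtain ⟨k1, k2, k3⟩ := g4 v hv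
        obtain ⟨p, hp, hpv⟩ := Nat.exists_prime_and_dvd (show v ≠ 1 by omega)
        have hvbig : n1 + n2 + 2 ≤ v := by
          have h5 : n < p ^ (K + 1) := (k3 p hp hpv).trans_le (Nat.pow_le_pow_right hp.pos (by omega))
          have h6 : p ≤ v := Nat.le_of_dvd (by omega) hpv
          by_contra hlt
          have h7 : p ^ (K + 1) ≤ (n1 + n2 + 2) ^ (K + 1) := Nat.pow_le_pow_left (by omega) _
          omega
        have hvr : (v : ℝ) ≤ (n : ℝ) ^ ((D : ℝ) + 1) := by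
          have : (v : ℝ) ≤ (n : ℝ) ^ (D + 1) := by exact_mod_cast k2
          refine this.trans (le_of_eq ?_)
          rw [← Real.rpow_natCast]
          push_cast
          rfl
        have hv0 : (0 : ℝ) < v := by exact_mod_cast (show 0 < v by omega)
        have h8 : (v : ℝ) ^ (-η) ≤ μ.real {ω | v ∈ A ω} := by
          refine hn2 v (by omega) (fun q hq hqd => ?_)
          have h9 := hn1 v (by omega)
          have h10 : (v : ℝ) ^ (1 / (2 * ((K : ℝ) + 1) * (D + 1))) ≤ (n : ℝ) ^ (1 / ((K : ℝ) + 1)) := by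
            calc (v : ℝ) ^ (1 / (2 * ((K : ℝ) + 1) * (D + 1))) ≤
                  ((n : ℝ) ^ ((D : ℝ) + 1)) ^ (1 / (2 * ((K : ℝ) + 1) * (D + 1))) :=
                  Real.rpow_le_rpow hv0.le hvr (by positivity)
              _ = (n : ℝ) ^ (1 / (2 * ((K : ℝ) + 1))) := by
                rw [← Real.rpow_mul hn0r.le]
                congr 1
                field_simp
              _ ≤ _ := by
                refine Real.rpow_le_rpow_of_exponent_le hnr ?_
                refine one_div_le_one_div_of_le (by positivity) ?_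
                have : (0 : ℝ) ≤ K := Nat.cast_nonneg _
                linarith
          have h11 : (n : ℝ) ^ (1 / ((K : ℝ) + 1)) < q := by
            have h12 : n < q ^ (K + 1) := (k3 q hq hqd).trans_le (Nat.pow_le_pow_right hq.pos (by omega))
            have h13 : (n : ℝ) < (q : ℝ) ^ ((K : ℝ) + 1) := by
              have : (n : ℝ) < (q : ℝ) ^ (K + 1) := by exact_mod_cast h12
              refine this.trans_eq ?_
              rw [← Real.rpow_natCast]
              push_cast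
              rfl
            calc (n : ℝ) ^ (1 / ((K : ℝ) + 1)) < ((q : ℝ) ^ ((K : ℝ) + 1)) ^ (1 / ((K : ℝ) + 1)) :=
                  Real.rpow_lt_rpow hn0r.le h13 (by positivity)
              _ = q := by
                rw [← Real.rpow_mul (Nat.cast_nonneg _)]
                rw [mul_one_div_cancel (by positivity), Real.rpow_one]
          linarith
        refine le_trans ?_ h8
        calc (n : ℝ) ^ (-((D + 1) * η)) = ((n : ℝ) ^ ((D : ℝ) + 1)) ^ (-η) := by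
              rw [← Real.rpow_mul hn0r.le]
              congr 1
              ring
          _ ≤ (v : ℝ) ^ (-η) := Real.rpow_le_rpow_of_nonpos hv0 hvr (by linarith)
      refine le_trans ?_ (prod_ge_pow (by positivity) (Real.rpow_le_one_of_one_le_of_nonpos hnr ?_) hcard hτ)
      · rw [← Real.rpow_natCast, ← Real.rpow_mul hn0r.le]
        refine Real.rpow_le_rpow_of_exponent_le hnr ?_
        have hm0 : (0 : ℝ) ≤ m := Nat.cast_nonneg _
        have : (D + 1) * η * m ≤ ε / 4 := by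
          rw [hη]
          have : ((D : ℝ) + 1) * (ε / (4 * ((m : ℝ) + 1) * (D + 1))) * m = ε / 4 * (m / (m + 1)) := by
            field_simp
          rw [this]
          refine mul_le_of_le_one_right (by linarith) ?_
          rw [div_le_one (by linarith)]
          linarith
        linarith
      · have : 0 ≤ ((D : ℝ) + 1) * η := by positivity
        linarith)
  filter_upwards [h] with ω h1
  filter_upwards [h1, eventually_ge_atTop n0] with n h2 hn
  obtain ⟨J, hJ1, hJ2, hJ3⟩ := h2 trivial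
  refine ⟨J, ?_, fun x hx => ?_⟩
  · refine le_trans (le_of_eq ?_) hJ2
    congr 1
    ring
  · obtain ⟨_, _, g3⟩ := hI n hn
    obtain ⟨g1, g2, _⟩ := g3 x (hJ1 hx)
    refine ⟨g1, g2, fun k => hJ3 x hx _ ?_⟩
    unfold vals
    exact mem_image_of_mem _ (mem_univ k)

theorem countable_mv : Countable (MvPolynomial (Fin 2) ℤ) := by
  rw [← Cardinal.mk_le_aleph0_iff]
  refine (MvPolynomial.cardinalMk_le_max).trans ?_
  simp

/-- All admissible families at once. -/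
theorem all_families (hA : IndepElems μ A) {z : ℕ → ℝ}
    (hz : ∀ ε : ℝ, 0 < ε → ∀ᶠ n : ℕ in atTop, z n ≤ (n : ℝ) ^ ε)
    (hP : ∀ ε : ℝ, 0 < ε → ∀ᶠ n : ℕ in atTop, (∀ q : ℕ, q.Prime → q ∣ n → z n < q) →
      (n : ℝ) ^ (-ε) ≤ μ.real {ω | n ∈ A ω}) :
    ∀ᵐ ω ∂μ, ∀ (m : ℕ) (f : Fin m → MvPolynomial (Fin 2) ℤ), Admissible f → ∀ ε : ℝ, 0 < ε →
      ∀ᶠ n : ℕ in atTop, (n : ℝ) ^ (1 - ε) ≤
        ({x : ℕ | 0 < x ∧ x < n ∧ ∀ k, (val (f k) x (n - x)).natAbs ∈ A ω} : Set ℕ).ncard := by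
  classical
  obtain ⟨K, hK⟩ := line_places
  have := countable_mv
  have h : ∀ (m : ℕ) (f : Fin m → MvPolynomial (Fin 2) ℤ) (j : ℕ), ∀ᵐ ω ∂μ, Admissible f →
      ∀ᶠ n : ℕ in atTop, ∃ J : Finset ℕ, (n : ℝ) ^ (1 - 1 / ((j : ℝ) + 1)) ≤ J.card ∧
      ∀ x ∈ J, 0 < x ∧ x < n ∧ ∀ k, (val (f k) x (n - x)).natAbs ∈ A ω := by
    intro m f j
    by_cases hf : Admissible f
    · have h1 := line_random hA hz hP (hK m f hf) (1 / ((j : ℝ) + 1)) (by positivity) (by
        rw [div_le_one (by positivity)]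
        have : (0 : ℝ) ≤ j := Nat.cast_nonneg _
        linarith)
      filter_upwards [h1] with ω h2 _
      exact h2
    · exact ae_of_all _ (fun ω a => absurd a hf)
  have h2 := ae_all_iff.2 (fun m => ae_all_iff.2 (fun f => ae_all_iff.2 (fun j => h m f j)))
  filter_upwards [h2] with ω h3 m f hf ε hε
  obtain ⟨j, hj⟩ := exists_nat_one_div_lt hε
  filter_upwards [h3 m f j hf, eventually_ge_atTop 1] with n hn hn1
  obtain ⟨J, hJ1, hJ2⟩ := hn
  have h4 : (J : Set ℕ) ⊆ {x : ℕ | 0 < x ∧ x < n ∧ ∀ k, (val (f k) x (n - x)).natAbs ∈ A ω} := fun x hx => hJ2 x hx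
  have h5 := Set.ncard_le_ncard h4 ((Set.finite_Iio n).subset (fun x hx => hx.2.1))
  rw [Set.ncard_coe_finset] at h5
  have h6 : (J.card : ℝ) ≤ (({x : ℕ | 0 < x ∧ x < n ∧ ∀ k, (val (f k) x (n - x)).natAbs ∈ A ω} : Set ℕ).ncard : ℝ) := by
    exact_mod_cast h5
  refine le_trans ?_ (hJ1.trans h6)
  exact Real.rpow_le_rpow_of_exponent_le (by exact_mod_cast hn1) (by linarith)

end Pool.Agent.Q197.FM
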