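import Pool.Agent.Q197.FM.Pow
import Pool.Agent.Results.MP_40574a_nt.RepresentedPrimesLaw

/-!
# Many represented rough quadruples
-/

set_option autoImplicit false
set_option linter.unusedSectionVars false

namespace Pool.Agent.Q197.FM

open Finset Filter MeasureTheory ProbabilityTheory Pool.Agent.Results.MP_40574a_nt.RepresentedPrimesLaw
open scoped Topology

/-- One of the classes modulo `M` contains at least the proportion `1 / M`. -/
theorem class_mod (M : ℕ) (hM : 0 < M) (P : Finset ℕ) :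
    ∃ Q ⊆ P, P.card ≤ M * Q.card ∧ ∀ p ∈ Q, ∀ q ∈ Q, p % M = q % M := by
  classical
  have h1 : P.card = ∑ r ∈ range M, (P.filter (fun p => p % M = r)).card :=
    card_eq_sum_card_fiberwise (fun p _ => mem_coe.2 (mem_range.2 (Nat.mod_lt _ hM)))
  by_contra hne
  push Not at hne
  have h2 : ∀ r ∈ range M, M * (P.filter (fun p => p % M = r)).card < P.card := by
    intro r _
    by_contra hlt
    obtain ⟨p, hp, q, hq, hpq⟩ := hne _ (filter_subset (fun p => p % M = r) P) (by omega)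
    exact hpq (by rw [(mem_filter.1 hp).2, (mem_filter.1 hq).2])
  have h3 := sum_lt_sum_of_nonempty (s := range M) (by rw [nonempty_range_iff]; omega) h2
  rw [← mul_sum, ← h1, sum_const, card_range, smul_eq_mul] at h3
  omega

theorem mod_ne {m m' y a b : ℕ} (h : m % y = m' % y) (ha : a < y) (hb : b < y) (hab : m + a = m' + b) : m = m' := by
  rcases lt_trichotomy m m' with h1 | h1 | h1
  · have h2 : y ∣ m' - m := (Nat.modEq_iff_dvd' h1.le).1 h
    have h3 := Nat.le_of_dvd (by omega) h2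
    omega
  · exact h1
  · have h2 : y ∣ m - m' := (Nat.modEq_iff_dvd' h1.le).1 h.symm
    have h3 := Nat.le_of_dvd (by omega) h2
    omega

theorem tele (z : ℕ) (hz : 1 ≤ z) : ∏ k ∈ Icc 2 z, (1 - 1 / (k : ℝ)) = 1 / z := by
  induction z, hz using Nat.le_induction with
  | base => simp
  | succ z hz ih =>
    have h1 : Icc 2 (z + 1) = insert (z + 1) (Icc 2 z) := by
      ext a
      simp only [mem_Icc, mem_insert]
      omega
    rw [h1, prod_insert (by simp), ih]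
    have h2 : (0 : ℝ) < z := by exact_mod_cast hz
    push_cast
    field_simp
    ring

theorem factor_ge {q : ℕ} (hq : q.Prime) :
    (1 - 1 / (q : ℝ)) ^ 6 ≤ (1 - (nu q : ℝ) / q) / (1 - 1 / (q : ℝ)) ∧ 0 ≤ 1 - 1 / (q : ℝ) ∧ 1 - 1 / (q : ℝ) ≤ 1 := by
  have h2 : (2 : ℝ) ≤ q := by exact_mod_cast hq.two_le
  obtain ⟨x, hx⟩ : ∃ x : ℝ, x = 1 / (q : ℝ) := ⟨_, rfl⟩
  have hx0 : 0 < x := by rw [hx]; positivity
  have hx2 : x ≤ 1 / 2 := by
    rw [hx]
    exact one_div_le_one_div_of_le (by norm_num) h2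
  refine ⟨?_, by linarith, by linarith⟩
  rw [← hx]
  have h3 : (1 - x) ^ 7 ≤ 1 - (nu q : ℝ) / q := by
    unfold nu
    split_ifs with h
    · push_cast
      rw [zero_div, sub_zero]
      exact pow_le_one₀ (by linarith) (by linarith)
    · have h7 : 7 ≤ q := by
        by_contra hlt
        have h4 := hq.two_le
        have h5 : q = 2 ∨ q = 3 ∨ q = 4 ∨ q = 5 ∨ q = 6 := by omega
        rcases h5 with rfl | rfl | rfl | rfl | rfl
        · exact h (by norm_num)
        · exact h (by norm_num)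
        · exact absurd hq (by decide)
        · exact h (by norm_num)
        · exact absurd hq (by decide)
      have h7r : (7 : ℝ) ≤ q := by exact_mod_cast h7
      have hx7 : x ≤ 1 / 7 := by
        rw [hx]
        exact one_div_le_one_div_of_le (by norm_num) h7r
      have h8 : ((4 : ℕ) : ℝ) / q = 4 * x := by
        rw [hx]
        push_cast
        ring
      rw [h8]
      have e2 : (1 - x) ^ 2 ≤ 1 - 13 / 7 * x := by nlinarith
      have e4 : (1 - x) ^ 4 ≤ (1 - 13 / 7 * x) ^ 2 := by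
        have := pow_le_pow_left₀ (sq_nonneg (1 - x)) e2 2
        calc (1 - x) ^ 4 = ((1 - x) ^ 2) ^ 2 := by ring
          _ ≤ _ := this
      have e4' : (1 - 13 / 7 * x) ^ 2 ≤ 1 - 157 / 49 * x := by nlinarith
      have e5 : (1 - x) ^ 6 ≤ (1 - 157 / 49 * x) * (1 - 13 / 7 * x) := by
        calc (1 - x) ^ 6 = (1 - x) ^ 4 * (1 - x) ^ 2 := by ring
          _ ≤ _ := mul_le_mul (e4.trans e4') e2 (sq_nonneg _) (by nlinarith)
      have e6 : (1 - x) ^ 7 ≤ (1 - x) ^ 6 := pow_le_pow_of_le_one (by linarith) (by linarith) (by norm_num)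
      nlinarith
  have h4 : 0 < 1 - x := by linarith
  rw [le_div_iff₀ h4]
  calc (1 - x) ^ 6 * (1 - x) = (1 - x) ^ 7 := by ring
    _ ≤ _ := h3

theorem W_ge (n r : ℕ) (hn : 1 ≤ n) (hr : 1 ≤ r) : (n : ℝ) ^ (-(6 / (r : ℝ))) ≤ W n r := by
  classical
  obtain ⟨z, hz⟩ : ∃ z : ℕ, z = ⌊(n : ℝ) ^ (1 / (r : ℝ))⌋₊ := ⟨_, rfl⟩
  have hn1 : (1 : ℝ) ≤ n := by exact_mod_cast hn
  have hr1 : (1 : ℝ) ≤ r := by exact_mod_cast hr
  have h1 : (1 : ℝ) ≤ (n : ℝ) ^ (1 / (r : ℝ)) := Real.one_le_rpow hn1 (by positivity)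
  have hz1 : 1 ≤ z := by
    rw [hz]
    exact Nat.le_floor (by simpa using h1)
  have hzr : (z : ℝ) ≤ (n : ℝ) ^ (1 / (r : ℝ)) := by
    rw [hz]
    exact Nat.floor_le (by positivity)
  unfold W
  rw [← hz]
  have h2 : ∏ q ∈ (Icc 1 z).filter Nat.Prime, (1 - 1 / (q : ℝ)) ^ 6 ≤
      ∏ q ∈ (Icc 1 z).filter Nat.Prime, (1 - (nu q : ℝ) / q) / (1 - 1 / (q : ℝ)) :=
    prod_le_prod (fun q hq => pow_nonneg (factor_ge (mem_filter.1 hq).2).2.1 _) (fun q hq => (factor_ge (mem_filter.1 hq).2).1)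
  refine le_trans ?_ h2
  have hsub : (Icc 1 z).filter Nat.Prime ⊆ Icc 2 z := by
    intro q hq
    rw [mem_filter, mem_Icc] at hq
    rw [mem_Icc]
    exact ⟨hq.2.two_le, hq.1.2⟩
  have h3 : ∏ k ∈ Icc 2 z, (1 - 1 / (k : ℝ)) ^ 6 ≤ ∏ q ∈ (Icc 1 z).filter Nat.Prime, (1 - 1 / (q : ℝ)) ^ 6 := by
    rw [← prod_sdiff hsub]
    have h4 : ∏ k ∈ Icc 2 z \ (Icc 1 z).filter Nat.Prime, (1 - 1 / (k : ℝ)) ^ 6 ≤ 1 := by
      refine prod_le_one (fun k hk => ?_) (fun k hk => ?_)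
      · positivity
      · have hk2 : 2 ≤ k := (mem_Icc.1 (mem_sdiff.1 hk).1).1
        have hk2r : (2 : ℝ) ≤ k := by exact_mod_cast hk2
        have h5 : 1 / (k : ℝ) ≤ 1 / 2 := one_div_le_one_div_of_le (by norm_num) hk2r
        have h6 : 0 < 1 / (k : ℝ) := by positivity
        exact pow_le_one₀ (by linarith) (by linarith)
    have h5 : 0 ≤ ∏ q ∈ (Icc 1 z).filter Nat.Prime, (1 - 1 / (q : ℝ)) ^ 6 := prod_nonneg (fun q _ => by positivity)
    exact mul_le_of_le_one_left h5 h4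
  refine le_trans ?_ h3
  rw [prod_pow, tele z hz1]
  have hz0 : (0 : ℝ) < z := by exact_mod_cast hz1
  calc (n : ℝ) ^ (-(6 / (r : ℝ))) = ((n : ℝ) ^ (1 / (r : ℝ))) ^ (-(6 : ℝ)) := by
        rw [← Real.rpow_mul (by linarith)]
        congr 1
        ring
    _ ≤ (z : ℝ) ^ (-(6 : ℝ)) := Real.rpow_le_rpow_of_nonpos hz0 hzr (by norm_num)
    _ = (1 / (z : ℝ)) ^ 6 := by
      rw [Real.rpow_neg hz0.le]
      norm_num

end Pool.Agent.Q197.FM
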