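import Pool.Agent.Q197.FM.Quad1

/-!
# Random sets and four squares with `x + 2 y + 5 z`
-/

set_option autoImplicit false
set_option linter.unusedSectionVars false

namespace Pool.Agent.Q197.FM

open Finset Filter MeasureTheory ProbabilityTheory Pool.Agent.Results.MP_40574a_nt.RepresentedPrimesLaw
open scoped Topology

theorem num_eq (p : ℕ) : num p 0 = p - 2 ∧ num p 1 = p ∧ num p 2 = p + 4 ∧ num p 3 = p + 10 := ⟨rfl, rfl, rfl, rfl⟩

theorem num_add (p : ℕ) (hp : 2 < p) (i : Fin 4) : ∃ a < 13, num p i + 2 = p + a ∧ num p i ≤ p + 10 ∧ p ≤ num p i + 2 := by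
  fin_cases i
  · exact ⟨0, by norm_num, by change p - 2 + 2 = p + 0; omega, by change p - 2 ≤ p + 10; omega, by change p ≤ p - 2 + 2; omega⟩
  · exact ⟨2, by norm_num, by change p + 2 = p + 2; omega, by change p ≤ p + 10; omega, by change p ≤ p + 2; omega⟩
  · exact ⟨6, by norm_num, by change p + 4 + 2 = p + 6; omega, by change p + 4 ≤ p + 10; omega, by change p ≤ p + 4 + 2; omega⟩
  · exact ⟨12, by norm_num, by change p + 10 + 2 = p + 12; omega, by change p + 10 ≤ p + 10; omega, by change p ≤ p + 10 + 2; omega⟩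

theorem num_inj {p : ℕ} (hp : 2 < p) : Function.Injective (num p) := by
  intro i j hij
  obtain ⟨h0, h1, h2, h3⟩ := num_eq p
  fin_cases i <;> fin_cases j <;>
    first
    | rfl
    | (exfalso
       simp only [Fin.zero_eta, Fin.mk_one, Fin.reduceFinMk] at hij
       simp only [h0, h1, h2, h3] at hij
       omega)

theorem window {n : ℕ} (hn : 10000 ≤ n) : ∃ A L : ℕ, 29 * n ≤ A ^ 2 ∧ (A + L) ^ 2 ≤ 30 * n ∧ 1 / 20 * Real.sqrt n ≤ L := by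
  have hn0 : (0 : ℝ) ≤ n := Nat.cast_nonneg n
  obtain ⟨s, hs⟩ : ∃ s : ℝ, s = Real.sqrt n := ⟨_, rfl⟩
  have hs0 : 0 ≤ s := by rw [hs]; exact Real.sqrt_nonneg _
  have hss : s ^ 2 = n := by rw [hs]; exact Real.sq_sqrt hn0
  have hs100 : 100 ≤ s := by
    rw [hs, show (100 : ℝ) = Real.sqrt 10000 by rw [show (10000 : ℝ) = 100 ^ 2 by norm_num]; simp]
    exact Real.sqrt_le_sqrt (by exact_mod_cast hn)
  refine ⟨Nat.sqrt (29 * n) + 1, ⌈1 / 20 * s⌉₊, (Nat.lt_succ_sqrt' (29 * n)).le, ?_, ?_⟩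
  · have h1 : ((Nat.sqrt (29 * n) : ℕ) : ℝ) ≤ 5.3852 * s := by
      have h2 : ((Nat.sqrt (29 * n) : ℕ) : ℝ) ^ 2 ≤ 29 * s ^ 2 := by
        rw [hss]
        exact_mod_cast Nat.sqrt_le' (29 * n)
      have h3 : ((Nat.sqrt (29 * n) : ℕ) : ℝ) ^ 2 ≤ (5.3852 * s) ^ 2 := by nlinarith
      exact le_of_sq_le_sq h3 (by positivity)
    have h2 : ((⌈1 / 20 * s⌉₊ : ℕ) : ℝ) ≤ 1 / 20 * s + 1 := (Nat.ceil_lt_add_one (by positivity)).le
    have h3 : ((Nat.sqrt (29 * n) + 1 + ⌈1 / 20 * s⌉₊ : ℕ) : ℝ) ≤ 5.4352 * s + 2 := by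
      push_cast
      linarith
    have h4 : ((Nat.sqrt (29 * n) + 1 + ⌈1 / 20 * s⌉₊ : ℕ) : ℝ) ^ 2 ≤ 30 * n := by
      calc ((Nat.sqrt (29 * n) + 1 + ⌈1 / 20 * s⌉₊ : ℕ) : ℝ) ^ 2 ≤ (5.4352 * s + 2) ^ 2 :=
            pow_le_pow_left₀ (Nat.cast_nonneg _) h3 2
        _ ≤ 30 * n := by
          rw [← hss]
          nlinarith
    exact_mod_cast h4
  · rw [← hs]
    exact Nat.le_ceil _

/-- Many represented rough quadruples. -/
theorem quad_values (ε : ℝ) (hε : 0 < ε) : ∃ δ : ℝ, 0 < δ ∧ ∃ n₀ : ℕ, ∀ n : ℕ, n₀ ≤ n → ¬ 4 ∣ n →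
    ∃ P : Finset ℕ, (n : ℝ) ^ (1 / 2 - ε) ≤ P.card ∧ (∀ p ∈ P, ∀ q ∈ P, p % 13 = q % 13) ∧
      ∀ p ∈ P, 29 * n ≤ p ^ 2 ∧ p ^ 2 ≤ 30 * n ∧ 2 < p ∧ Val n p ∧
        ∀ i, ∀ q : ℕ, q.Prime → q ∣ num p i → (num p i : ℝ) ^ δ < q := by
  classical
  obtain ⟨r1, hr⟩ := Pool.Agent.Results.MP_40574a_nt.RepresentedPrimesLaw.result (1 / 20) (by norm_num) 0 (1 / 2)
    (by norm_num) (by norm_num)
  obtain ⟨r2, hr2⟩ := exists_nat_ge (12 / ε)
  obtain ⟨r, hrd⟩ : ∃ r : ℕ, r = max r1 r2 + 1 := ⟨_, rfl⟩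
  have hrr1 : r1 ≤ r := by rw [hrd]; exact (le_max_left _ _).trans (Nat.le_succ _)
  have hrr2 : r2 ≤ r := by rw [hrd]; exact (le_max_right _ _).trans (Nat.le_succ _)
  have hr1 : 1 ≤ r := by omega
  have hrpos : (0 : ℝ) < r := by exact_mod_cast hr1
  obtain ⟨n1, hn1⟩ := hr r hrr1
  obtain ⟨n2, hn2⟩ := eventually_atTop.1 (log_small (13 * 600) 1 (ε / 2) (by linarith) one_pos)
  refine ⟨1 / r, by positivity, n1 + n2 + 10000, fun n hn h4 => ?_⟩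
  obtain ⟨_, hW, hmain⟩ := hn1 n (by omega) h4
  obtain ⟨A, L, hA, hAL, hL⟩ := window (n := n) (by omega)
  obtain ⟨hcount, _⟩ := hmain 1 A L hA hAL hL
  have hn0 : (0 : ℝ) < n := by exact_mod_cast (show 0 < n by omega)
  have hn1r : (1 : ℝ) ≤ n := by exact_mod_cast (show 1 ≤ n by omega)
  have hlog : Real.log (Nat.sqrt (30 * n)) ≤ Real.log n := by
    refine Real.log_le_log ?_ ?_
    · have : 0 < Nat.sqrt (30 * n) := Nat.sqrt_pos.2 (by omega)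
      exact_mod_cast this
    · have : Nat.sqrt (30 * n) ≤ n := by
        rw [← Nat.lt_succ_iff, Nat.sqrt_lt']
        nlinarith
      exact_mod_cast this
  have hWge : (n : ℝ) ^ (-(ε / 2)) ≤ W n r := by
    refine le_trans ?_ (W_ge n r (by omega) hr1)
    refine Real.rpow_le_rpow_of_exponent_le hn1r ?_
    have h1 : 12 / ε ≤ r := hr2.trans (by exact_mod_cast hrr2)
    rw [div_le_iff₀ hε] at h1
    rw [neg_le_neg_iff, div_le_div_iff₀ hrpos (by norm_num)]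
    linarith
  have hlow : Real.sqrt n * (n : ℝ) ^ (-(ε / 2)) / 600 ≤ ((P n r 1 A L).card : ℝ) * Real.log n := by
    have h1 := (abs_le.1 hcount).1
    have h2 : Real.sqrt n * (n : ℝ) ^ (-(ε / 2)) / 300 ≤ L / 15 * W n r := by
      have h3 : Real.sqrt n / 300 ≤ (L : ℝ) / 15 := by linarith
      calc Real.sqrt n * (n : ℝ) ^ (-(ε / 2)) / 300 = Real.sqrt n / 300 * (n : ℝ) ^ (-(ε / 2)) := by ring
        _ ≤ L / 15 * W n r := mul_le_mul h3 hWge (by positivity) (by positivity)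
    have h3 : ((P n r 1 A L).card : ℝ) * Real.log (Nat.sqrt (30 * n)) ≤ ((P n r 1 A L).card : ℝ) * Real.log n :=
      mul_le_mul_of_nonneg_left hlog (Nat.cast_nonneg _)
    linarith
  obtain ⟨Q, hQ1, hQ2, hQ3⟩ := class_mod 13 (by norm_num) (P n r 1 A L)
  refine ⟨Q, ?_, hQ3, fun p hp => ?_⟩
  · have h1 : ((P n r 1 A L).card : ℝ) ≤ 13 * Q.card := by exact_mod_cast hQ2
    have h2 := hn2 n (by omega)
    have hlogn : 0 ≤ Real.log (n : ℝ) := Real.log_nonneg hn1r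
    have h3 : Real.sqrt n * (n : ℝ) ^ (-(ε / 2)) ≤ Q.card * (n : ℝ) ^ (ε / 2) := by
      have h5 := mul_le_mul_of_nonneg_right h1 hlogn
      have h6 : (Q.card : ℝ) * (13 * 600 * (Real.log n + 1)) ≤ Q.card * (n : ℝ) ^ (ε / 2) :=
        mul_le_mul_of_nonneg_left (by linarith) (Nat.cast_nonneg _)
      have h7 : (0 : ℝ) ≤ Q.card := Nat.cast_nonneg _
      linarith
    have h4 : (n : ℝ) ^ (1 / 2 - ε) * (n : ℝ) ^ (ε / 2) = Real.sqrt n * (n : ℝ) ^ (-(ε / 2)) := by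
      rw [Real.sqrt_eq_rpow, ← Real.rpow_add hn0, ← Real.rpow_add hn0]
      congr 1
      ring
    rw [← h4] at h3
    exact le_of_mul_le_mul_right h3 (by positivity)
  · have h1 := hQ1 hp
    unfold P at h1
    rw [mem_filter, mem_Ioc] at h1
    obtain ⟨⟨g1, g2⟩, _, g3, g4, g5⟩ := h1
    have hlo : 29 * n ≤ p ^ 2 := hA.trans (Nat.pow_le_pow_left g1.le 2)
    have hhi : p ^ 2 ≤ 30 * n := (Nat.pow_le_pow_left g2 2).trans hAL
    refine ⟨hlo, hhi, g3, g4, fun i q hq hqd => ?_⟩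
    by_contra hcon
    push Not at hcon
    obtain ⟨_, _, _, hb, _⟩ := num_add p g3 i
    have hpn : p + 10 ≤ n := by nlinarith
    have h2 : ((num p i : ℕ) : ℝ) ≤ n := by exact_mod_cast hb.trans hpn
    have h3 : (num p i : ℝ) ^ (1 / (r : ℝ)) ≤ (n : ℝ) ^ (1 / (r : ℝ)) :=
      Real.rpow_le_rpow (Nat.cast_nonneg _) h2 (by positivity)
    exact g5 q hq (hcon.trans h3) i hqd

variable {Ω : Type*} [MeasurableSpace Ω] {μ : Measure Ω} [IsProbabilityMeasure μ] {A : Ω → Set ℕ}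

theorem quad_random (hA : IndepElems μ A) {β ε δ : ℝ} (hβ : 0 ≤ β) (hε : 0 < ε) (hβε : 2 * β + 2 * ε ≤ 1 / 2)
    {n₀ : ℕ} (hval : ∀ n : ℕ, n₀ ≤ n → ¬ 4 ∣ n →
    ∃ P : Finset ℕ, (n : ℝ) ^ (1 / 2 - ε) ≤ P.card ∧ (∀ p ∈ P, ∀ q ∈ P, p % 13 = q % 13) ∧
      ∀ p ∈ P, 29 * n ≤ p ^ 2 ∧ p ^ 2 ≤ 30 * n ∧ 2 < p ∧ Val n p ∧
        ∀ i, ∀ q : ℕ, q.Prime → q ∣ num p i → (num p i : ℝ) ^ δ < q)
    {m₀ : ℕ} (hm : ∀ m : ℕ, m₀ ≤ m → (∀ q : ℕ, q.Prime → q ∣ m → (m : ℝ) ^ δ < q) →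
      (m : ℝ) ^ (-β) ≤ μ.real {ω | m ∈ A ω}) :
    ∀ᵐ ω ∂μ, ∀ᶠ n : ℕ in atTop, ¬ 4 ∣ n → ∃ P : Finset ℕ, (n : ℝ) ^ (1 / 2 - 2 * β - 2 * ε) ≤ P.card ∧
      ∀ p ∈ P, 2 < p ∧ Val n p ∧ ∀ i, num p i ∈ A ω := by
  classical
  have hval' : ∀ n : ℕ, ∃ P : Finset ℕ, n₀ ≤ n → ¬ 4 ∣ n → (n : ℝ) ^ (1 / 2 - ε) ≤ P.card ∧
      (∀ p ∈ P, ∀ q ∈ P, p % 13 = q % 13) ∧
      ∀ p ∈ P, 29 * n ≤ p ^ 2 ∧ p ^ 2 ≤ 30 * n ∧ 2 < p ∧ Val n p ∧
        ∀ i, ∀ q : ℕ, q.Prime → q ∣ num p i → (num p i : ℝ) ^ δ < q := by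
    intro n
    by_cases h : n₀ ≤ n ∧ ¬ 4 ∣ n
    · obtain ⟨P, hP⟩ := hval n h.1 h.2
      exact ⟨P, fun _ _ => hP⟩
    · exact ⟨∅, fun h1 h2 => absurd ⟨h1, h2⟩ h⟩
  choose P hP using hval'
  have h := hA.many_pow (fun n => ¬ 4 ∣ n) P (fun _ p => univ.image (num p)) (s := 1 / 2 - ε) (t := 2 * β) (ε := ε)
    (κ := (6 : ℝ) ^ (-(4 * β))) (c := 1) (by
      filter_upwards [eventually_ge_atTop n₀] with n hn h4 p hp q hq hpq
      obtain ⟨_, h2, h3⟩ := hP n hn h4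
      rw [disjoint_left]
      intro a ha hb
      rw [mem_image] at ha hb
      obtain ⟨i, _, rfl⟩ := ha
      obtain ⟨j, _, hj⟩ := hb
      obtain ⟨u, hu, hu2, _⟩ := num_add p (h3 p hp).2.2.1 i
      obtain ⟨v, hv, hv2, _⟩ := num_add q (h3 q hq).2.2.1 j
      exact hpq (mod_ne (h2 p hp q hq) hu hv (by omega))) (by linarith) (by linarith) hε (by linarith) (by positivity)
      one_pos (by
      filter_upwards [eventually_ge_atTop n₀] with n hn h4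
      rw [one_mul]
      exact (hP n hn h4).1) (by
      filter_upwards [eventually_ge_atTop (n₀ + (m₀ + 40) ^ 2)] with n hn h4 p hp
      obtain ⟨_, _, h3⟩ := hP n (by omega) h4
      obtain ⟨g1, g2, g3, _, g5⟩ := h3 p hp
      have hn0 : (0 : ℝ) < n := by
        have : 0 < (m₀ + 40) ^ 2 := by positivity
        exact_mod_cast (show 0 < n by omega)
      rw [prod_image (fun i _ j _ hij => num_inj g3 hij)]
      have hpm : m₀ + 40 ≤ p := by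
        by_contra hlt
        have h5 : p ^ 2 ≤ (m₀ + 40) ^ 2 := Nat.pow_le_pow_left (by omega) 2
        have h6 : 0 < (m₀ + 40) ^ 2 := by positivity
        omega
      have hs : (p : ℝ) + 10 ≤ 6 * Real.sqrt n := by
        have h5 : (p : ℝ) ≤ 5.48 * Real.sqrt n := by
          have h6 : (p : ℝ) ^ 2 ≤ (5.48 * Real.sqrt n) ^ 2 := by
            rw [mul_pow, Real.sq_sqrt hn0.le]
            have : (p : ℝ) ^ 2 ≤ 30 * n := by exact_mod_cast g2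
            nlinarith
          exact le_of_sq_le_sq h6 (by positivity)
        have h6 : (40 : ℝ) ≤ Real.sqrt n := by
          refine Real.le_sqrt_of_sq_le ?_
          have : 40 ^ 2 ≤ (m₀ + 40) ^ 2 := Nat.pow_le_pow_left (by omega) 2
          exact_mod_cast (show 40 ^ 2 ≤ n by omega)
        linarith
      have hone : ∀ i : Fin 4, (6 * Real.sqrt n) ^ (-β) ≤ μ.real {ω | num p i ∈ A ω} := by
        intro i
        obtain ⟨_, _, _, hb, hc⟩ := num_add p g3 i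
        refine le_trans ?_ (hm (num p i) (by omega) (fun q hq hqd => g5 i q hq hqd))
        refine Real.rpow_le_rpow_of_nonpos ?_ ?_ (by linarith)
        · exact_mod_cast (show 0 < num p i by omega)
        · have : ((num p i : ℕ) : ℝ) ≤ p + 10 := by exact_mod_cast hb
          linarith
      calc (6 : ℝ) ^ (-(4 * β)) * (n : ℝ) ^ (-(2 * β)) = ∏ _i : Fin 4, (6 * Real.sqrt n) ^ (-β) := by
            rw [prod_const, card_univ, Fintype.card_fin, ← Real.rpow_natCast, ← Real.rpow_mul (by positivity),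
              Real.mul_rpow (by norm_num) (Real.sqrt_nonneg _), Real.sqrt_eq_rpow, ← Real.rpow_mul hn0.le]
            congr 2 <;> push_cast <;> ring
        _ ≤ _ := prod_le_prod (fun _ _ => by positivity) (fun j _ => hone j))
  filter_upwards [h] with ω h1
  filter_upwards [h1, eventually_ge_atTop n₀] with n h2 hn h4
  obtain ⟨J, hJ1, hJ2, hJ3⟩ := h2 h4
  obtain ⟨_, _, h3⟩ := hP n hn h4
  refine ⟨J, ?_, fun p hp => ?_⟩
  · convert hJ2 using 2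
    ring
  · obtain ⟨_, _, g3, g4, _⟩ := h3 p (hJ1 hp)
    exact ⟨g3, g4, fun i => hJ3 p hp _ (mem_image_of_mem _ (mem_univ i))⟩

end Pool.Agent.Q197.FM
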