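import Pool.Agent.Helper353.SF.P_form_card
import Pool.Agent.H510R2.Div
import Pool.Agent.Q197.FM.Pow

/-!
# The number of representations as a sum of two squares
-/

set_option autoImplicit false
set_option linter.unusedSectionVars false

namespace Pool.Agent.Q197.FM

open Finset

theorem r2_nat (m : ℕ) (hm : 0 < m) (F : Finset (ℕ × ℕ)) (hF : ∀ p ∈ F, p.1 ^ 2 + p.2 ^ 2 = m) :
    F.card ≤ 5 * m.divisors.card ^ 2 + 2 := by
  classical
  have h1 := SF.form_card 1 1 m squarefree_one squarefree_one hm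
  have h2 : F ⊆ ((Finset.range (m + 1)) ×ˢ (Finset.range (m + 1))).filter
      (fun p : ℕ × ℕ => 0 < p.1 ∧ 0 < p.2 ∧ 1 ^ 3 * p.1 ^ 2 + 1 ^ 3 * p.2 ^ 2 = m) ∪ {(0, Nat.sqrt m), (Nat.sqrt m, 0)} := by
    intro p hp
    obtain ⟨a, b⟩ := p
    have h3 := hF (a, b) hp
    dsimp only at h3
    rw [mem_union, mem_filter, mem_product, mem_range, mem_range]
    rcases Nat.eq_zero_or_pos a with ha | ha
    · right
      subst ha
      have : b = Nat.sqrt m := by
        rw [← h3]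
        simp [Nat.sqrt_eq']
      simp [this]
    rcases Nat.eq_zero_or_pos b with hb | hb
    · right
      subst hb
      have : a = Nat.sqrt m := by
        rw [← h3]
        simp [Nat.sqrt_eq']
      simp [this]
    · left
      have h4 : a ≤ a ^ 2 := Nat.le_self_pow (by norm_num) _
      have h5 : b ≤ b ^ 2 := Nat.le_self_pow (by norm_num) _
      refine ⟨⟨by omega, by omega⟩, ha, hb, by simpa using h3⟩
  refine (card_le_card h2).trans ((card_union_le _ _).trans ?_)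
  rw [one_mul] at h1
  have h3 : ({(0, Nat.sqrt m), (Nat.sqrt m, 0)} : Finset (ℕ × ℕ)).card ≤ 2 := card_le_two
  omega

theorem r2_int (m : ℕ) (hm : 0 < m) (F : Finset (ℤ × ℤ)) (hF : ∀ p ∈ F, p.1 ^ 2 + p.2 ^ 2 = m) :
    F.card ≤ 4 * (5 * m.divisors.card ^ 2 + 2) := by
  classical
  obtain ⟨G, hG⟩ : ∃ G : Finset (ℕ × ℕ), G = F.image (fun p => (p.1.natAbs, p.2.natAbs)) := ⟨_, rfl⟩
  have h1 : G.card ≤ 5 * m.divisors.card ^ 2 + 2 := by
    refine r2_nat m hm G (fun p hp => ?_)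
    rw [hG, mem_image] at hp
    obtain ⟨q, hq, rfl⟩ := hp
    have h2 := hF q hq
    have h3 : ((q.1.natAbs : ℤ)) ^ 2 + ((q.2.natAbs : ℤ)) ^ 2 = m := by
      rw [Int.natAbs_sq, Int.natAbs_sq]
      exact h2
    exact_mod_cast h3
  have h2 : F.card ≤ (G ×ˢ ((univ : Finset Bool) ×ˢ (univ : Finset Bool))).card := by
    refine card_le_card_of_injOn (fun p => ((p.1.natAbs, p.2.natAbs), decide (0 ≤ p.1), decide (0 ≤ p.2)))
      (fun p hp => ?_) (fun p _ q _ hpq => ?_)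
    · simp only [coe_product, Set.mem_prod, mem_coe, mem_univ, and_true]
      rw [hG]
      exact mem_image_of_mem (fun p : ℤ × ℤ => (p.1.natAbs, p.2.natAbs)) hp
    · simp only [Prod.mk.injEq, decide_eq_decide] at hpq
      obtain ⟨⟨h3, h4⟩, h5, h6⟩ := hpq
      refine Prod.ext ?_ ?_ <;> omega
  rw [card_product, card_product, card_univ, Fintype.card_bool] at h2
  omega

/-- The number of representations is at most `C m ^ ε`. -/
theorem r2_bound (ε : ℝ) (hε : 0 < ε) : ∃ C : ℝ, 0 < C ∧ ∀ m : ℕ, 0 < m → ∀ F : Finset (ℤ × ℤ),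
    (∀ p ∈ F, p.1 ^ 2 + p.2 ^ 2 = m) → (F.card : ℝ) ≤ C * (m : ℝ) ^ ε := by
  obtain ⟨C, hC, h⟩ := H510R2.divisor_bound (ε / 2) (by linarith)
  refine ⟨4 * (5 * C ^ 2 + 2), by positivity, fun m hm F hF => ?_⟩
  have h1 : (F.card : ℝ) ≤ 4 * (5 * (m.divisors.card : ℝ) ^ 2 + 2) := by exact_mod_cast r2_int m hm F hF
  have h2 := h m hm
  have hm1 : (1 : ℝ) ≤ m := by exact_mod_cast hm
  have h3 : ((m : ℝ) ^ (ε / 2)) ^ 2 = (m : ℝ) ^ ε := by
    rw [← Real.rpow_natCast, ← Real.rpow_mul (by linarith)]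
    congr 1
    push_cast
    ring
  have h4 : (1 : ℝ) ≤ (m : ℝ) ^ ε := Real.one_le_rpow hm1 hε.le
  have h5 : (m.divisors.card : ℝ) ^ 2 ≤ C ^ 2 * (m : ℝ) ^ ε := by
    rw [← h3, ← mul_pow]
    exact pow_le_pow_left₀ (Nat.cast_nonneg _) h2 2
  nlinarith

end Pool.Agent.Q197.FM
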