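import Pool.Agent.Q197.FM.Two2
import Pool.Agent.Y440.LC.Main2

/-!
# The multiplicity of the values of `2^x + 2^y + 2^z + 1`
-/

set_option autoImplicit false
set_option linter.unusedSectionVars false

namespace Pool.Agent.Q197.FM

open Finset

/-- The possible exponents for a sum of three powers of two. -/
def E3 (M : ℕ) : Finset ℕ :=
  (range 2 ×ˢ range 2).biUnion (fun q =>
    {Nat.log 2 M - q.1, Nat.log 2 (M - 2 ^ (Nat.log 2 M - q.1)) - q.2,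
      Nat.log 2 (M - 2 ^ (Nat.log 2 M - q.1) - 2 ^ (Nat.log 2 (M - 2 ^ (Nat.log 2 M - q.1)) - q.2))})

theorem card_E3 (M : ℕ) : (E3 M).card ≤ 12 := by
  unfold E3
  refine card_biUnion_le.trans ?_
  refine (sum_le_card_nsmul _ _ 3 (fun q _ => ?_)).trans (by simp)
  exact card_le_three

theorem mem_E3 {a b c : ℕ} (h1 : c ≤ b) (h2 : b ≤ a) :
    a ∈ E3 (2 ^ a + 2 ^ b + 2 ^ c) ∧ b ∈ E3 (2 ^ a + 2 ^ b + 2 ^ c) ∧ c ∈ E3 (2 ^ a + 2 ^ b + 2 ^ c) := by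
  obtain ⟨M, hM⟩ : ∃ M : ℕ, M = 2 ^ a + 2 ^ b + 2 ^ c := ⟨_, rfl⟩
  rw [← hM]
  have e1 : 2 ^ b ≤ 2 ^ a := Nat.pow_le_pow_right (by norm_num) h2
  have e2 : 2 ^ c ≤ 2 ^ b := Nat.pow_le_pow_right (by norm_num) h1
  have e3 : 0 < 2 ^ c := by positivity
  have l1 : ∃ i < 2, Nat.log 2 M - i = a := by
    have g1 : a ≤ Nat.log 2 M := Nat.le_log_of_pow_le (by norm_num) (by omega)
    have g2 : Nat.log 2 M < a + 2 := Nat.log_lt_of_lt_pow (by omega) (by rw [pow_add]; omega)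
    exact ⟨Nat.log 2 M - a, by omega, by omega⟩
  obtain ⟨i, hi, hi2⟩ := l1
  have l2 : ∃ j < 2, Nat.log 2 (M - 2 ^ a) - j = b := by
    have g1 : b ≤ Nat.log 2 (M - 2 ^ a) := Nat.le_log_of_pow_le (by norm_num) (by omega)
    have g2 : Nat.log 2 (M - 2 ^ a) < b + 2 := Nat.log_lt_of_lt_pow (by omega) (by rw [pow_add]; omega)
    exact ⟨Nat.log 2 (M - 2 ^ a) - b, by omega, by omega⟩
  obtain ⟨j, hj, hj2⟩ := l2
  have l3 : Nat.log 2 (M - 2 ^ a - 2 ^ b) = c := by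
    have : M - 2 ^ a - 2 ^ b = 2 ^ c := by omega
    rw [this, Nat.log_pow (by norm_num)]
  have hmem : ∀ u, (u = a ∨ u = b ∨ u = c) → u ∈ E3 M := by
    intro u hu
    unfold E3
    rw [mem_biUnion]
    refine ⟨(i, j), by rw [mem_product, mem_range, mem_range]; exact ⟨hi, hj⟩, ?_⟩
    dsimp only
    rw [hi2, hj2, l3]
    simpa using hu
  exact ⟨hmem a (Or.inl rfl), hmem b (Or.inr (Or.inl rfl)), hmem c (Or.inr (Or.inr rfl))⟩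

theorem mem_E3' (x y z : ℕ) : x ∈ E3 (2 ^ x + 2 ^ y + 2 ^ z) ∧ y ∈ E3 (2 ^ x + 2 ^ y + 2 ^ z) ∧ z ∈ E3 (2 ^ x + 2 ^ y + 2 ^ z) := by
  rcases le_total x y with h1 | h1 <;> rcases le_total y z with h2 | h2 <;> rcases le_total x z with h3 | h3
  · obtain ⟨a, b, c⟩ := mem_E3 h1 h2
    rw [show 2 ^ z + 2 ^ y + 2 ^ x = 2 ^ x + 2 ^ y + 2 ^ z by ring] at a b c
    exact ⟨c, b, a⟩
  · obtain ⟨a, b, c⟩ := mem_E3 h1 h2
    rw [show 2 ^ z + 2 ^ y + 2 ^ x = 2 ^ x + 2 ^ y + 2 ^ z by ring] at a b c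
    exact ⟨c, b, a⟩
  · obtain ⟨a, b, c⟩ := mem_E3 h3 h2
    rw [show 2 ^ y + 2 ^ z + 2 ^ x = 2 ^ x + 2 ^ y + 2 ^ z by ring] at a b c
    exact ⟨c, a, b⟩
  · obtain ⟨a, b, c⟩ := mem_E3 h3 h1
    rw [show 2 ^ y + 2 ^ x + 2 ^ z = 2 ^ x + 2 ^ y + 2 ^ z by ring] at a b c
    exact ⟨b, a, c⟩
  · obtain ⟨a, b, c⟩ := mem_E3 h1 h3
    rw [show 2 ^ z + 2 ^ x + 2 ^ y = 2 ^ x + 2 ^ y + 2 ^ z by ring] at a b c
    exact ⟨b, c, a⟩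
  · obtain ⟨a, b, c⟩ := mem_E3 h2 h3
    rw [show 2 ^ x + 2 ^ z + 2 ^ y = 2 ^ x + 2 ^ y + 2 ^ z by ring] at a b c
    exact ⟨a, c, b⟩
  · exact mem_E3 h2 h1
  · exact mem_E3 h2 h1

/-- The number attached to a quadruple. -/
def N3 (X : ℕ × ℕ × ℕ × ℕ) : ℕ := 2 ^ X.1 + 2 ^ X.2.1 + 2 ^ X.2.2.1 + 1

theorem fiber_N3 {n N : ℕ} (S : Finset (ℕ × ℕ × ℕ × ℕ))
    (hS : ∀ X ∈ S, n = X.1 ^ 2 + X.2.1 ^ 2 + X.2.2.1 ^ 2 + 4 * X.2.2.2 ^ 2 ∧ N3 X = N) : S.card ≤ 12 ^ 3 := by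
  classical
  have h1 : S.card ≤ (E3 (N - 1) ×ˢ (E3 (N - 1) ×ˢ E3 (N - 1))).card := by
    refine card_le_card_of_injOn (fun X => (X.1, X.2.1, X.2.2.1)) (fun X hX => ?_) (fun X hX Y hY hXY => ?_)
    · obtain ⟨_, h2⟩ := hS X (mem_coe.1 hX)
      have h3 : N - 1 = 2 ^ X.1 + 2 ^ X.2.1 + 2 ^ X.2.2.1 := by
        rw [← h2]
        rfl
      simp only [coe_product, Set.mem_prod, mem_coe]
      rw [h3]
      exact mem_E3' _ _ _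
    · obtain ⟨s1, _⟩ := hS X (mem_coe.1 hX)
      obtain ⟨t1, _⟩ := hS Y (mem_coe.1 hY)
      simp only [Prod.mk.injEq] at hXY
      obtain ⟨e1, e2, e3⟩ := hXY
      rw [e1, e2, e3] at s1
      have e4 : X.2.2.2 ^ 2 = Y.2.2.2 ^ 2 := by omega
      have e5 : X.2.2.2 = Y.2.2.2 := Nat.pow_left_injective (by norm_num) e4
      exact Prod.ext e1 (Prod.ext e2 (Prod.ext e3 e5))
  rw [card_product, card_product] at h1
  have h2 := card_E3 (N - 1)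
  calc S.card ≤ _ := h1
    _ ≤ 12 * (12 * 12) := Nat.mul_le_mul h2 (Nat.mul_le_mul h2 h2)
    _ = 12 ^ 3 := by norm_num

end Pool.Agent.Q197.FM
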