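import Pool.Agent.Q197.FM.Three1

/-!
# Random sets and `2^x + 2^y + 2^z + 1`
-/

set_option autoImplicit false
set_option linter.unusedSectionVars false

namespace Pool.Agent.Q197.FM

open Finset Filter MeasureTheory ProbabilityTheory
open scoped Topology

/-- The exceptional prime factors. -/
def ExcP (n q : ℕ) : Prop :=
  q ≠ 2 ∧
    ((∃ l : ℕ, l.Prime ∧ 5 ≤ l ∧ l ^ 2 ∣ orderOf (2 : ZMod q) ∧ (l : ℤ) ∣ (3 * n - 2) * (9 * n - 2)) ∨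
      (¬ 3 ∣ n ∧ n % 32 ≠ 13 ∧ q ≠ 7 ∧ 3 ∣ orderOf (2 : ZMod q)))

theorem three_values (ε : ℝ) (hε : 0 < ε) : ∃ c : ℝ, 0 < c ∧ ∃ n₀ : ℕ, ∀ n : ℕ, n₀ ≤ n → Odd n →
    ∃ T : Finset ℕ, (n : ℝ) ^ (1 - ε) ≤ (T.card : ℝ) ∧ ∀ N ∈ T,
      (∃ x y z w : ℕ, n = x ^ 2 + y ^ 2 + z ^ 2 + 4 * w ^ 2 ∧ N = 2 ^ x + 2 ^ y + 2 ^ z + 1) ∧
        ∀ q : ℕ, q.Prime → q ∣ N →
          (q : ℝ) ≤ c * (Real.log n * Real.log (Real.log n) / Real.log (Real.log (Real.log n))) → ExcP n q := by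
  classical
  obtain ⟨c, hc, n1, hS⟩ := Pool.Agent.Y440.LC.main2 (ε / 2) (by linarith)
  obtain ⟨n2, hn2⟩ := eventually_atTop.1 (log_small (12 ^ 3) 1 (ε / 2) (by linarith) one_pos)
  refine ⟨c, hc, n1 + n2 + 1, fun n hn hodd => ?_⟩
  obtain ⟨S, g1, g2⟩ := hS n (by omega) hodd
  have hn0 : (0 : ℝ) < n := by exact_mod_cast (show 0 < n by omega)
  refine ⟨S.image N3, ?_, fun N hN => ?_⟩
  · have h1 : (S.card : ℝ) ≤ (S.image N3).card * 12 ^ 3 := by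
      have h2 : S.card ≤ 12 ^ 3 * (S.image N3).card := by
        refine card_le_mul_card_image _ _ (fun v _ => ?_)
        refine fiber_N3 (n := n) (N := v) _ (fun X hX => ?_)
        rw [mem_filter] at hX
        exact ⟨(g2 X.1 X.2.1 X.2.2.1 X.2.2.2 hX.1).1, hX.2⟩
      have h3 : (S.card : ℝ) ≤ 12 ^ 3 * (S.image N3).card := by exact_mod_cast h2
      linarith
    have h3 := hn2 n (by omega)
    have h4 : 0 ≤ Real.log (n : ℝ) := Real.log_natCast_nonneg n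
    have h5 : (12 : ℝ) ^ 3 ≤ (n : ℝ) ^ (ε / 2) := by nlinarith
    have h6 : (n : ℝ) ^ (1 - ε / 2) = (n : ℝ) ^ (1 - ε) * (n : ℝ) ^ (ε / 2) := by
      rw [← Real.rpow_add hn0]
      congr 1
      ring
    have h7 : (n : ℝ) ^ (1 - ε / 2) ≤ (S.image N3).card * (n : ℝ) ^ (ε / 2) :=
      (g1.trans h1).trans (mul_le_mul_of_nonneg_left h5 (Nat.cast_nonneg _))
    rw [h6] at h7
    exact le_of_mul_le_mul_right h7 (by positivity)
  · rw [mem_image] at hN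
    obtain ⟨⟨x, y, z, w⟩, hX, rfl⟩ := hN
    obtain ⟨k1, k2⟩ := g2 x y z w hX
    exact ⟨⟨x, y, z, w, k1, rfl⟩, fun q hq hqN hqc => k2 q hq hqN hqc⟩

/-- Bounds for a number `2^x + 2^y + 2^z + 1`. -/
theorem log_three_upper : ∀ᶠ n : ℕ in atTop, ∀ x y z w : ℕ, n = x ^ 2 + y ^ 2 + z ^ 2 + 4 * w ^ 2 →
    Real.log ((2 ^ x + 2 ^ y + 2 ^ z + 1 : ℕ) : ℝ) ≤ 2 * Real.sqrt n := by
  filter_upwards [eventually_ge_atTop 16] with n hn x y z w h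
  have hsq : (4 : ℝ) ≤ Real.sqrt n := by
    rw [show (4 : ℝ) = Real.sqrt 16 by rw [show (16 : ℝ) = 4 ^ 2 by norm_num]; simp]
    exact Real.sqrt_le_sqrt (by exact_mod_cast hn)
  have hl2 : Real.log 2 ≤ 0.6932 := Real.log_two_lt_d9.le.trans (by norm_num)
  have hl0 : 0 < Real.log 2 := Real.log_pos (by norm_num)
  obtain ⟨M, hM⟩ : ∃ M : ℝ, M = Real.sqrt n := ⟨_, rfl⟩
  rw [← hM] at hsq ⊢
  have e0 : ∀ u : ℕ, u ^ 2 ≤ n → (u : ℝ) ≤ M := by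
    intro u hu
    rw [hM]
    refine Real.le_sqrt_of_sq_le ?_
    exact_mod_cast hu
  have e1 : ∀ u : ℕ, u ^ 2 ≤ n → (2 : ℝ) ^ u ≤ 2 ^ M := by
    intro u hu
    rw [← Real.rpow_natCast]
    exact Real.rpow_le_rpow_of_exponent_le (by norm_num) (e0 u hu)
  have e2 : (1 : ℝ) ≤ 2 ^ M := Real.one_le_rpow (by norm_num) (by linarith)
  have h3 : ((2 ^ x + 2 ^ y + 2 ^ z + 1 : ℕ) : ℝ) ≤ 2 ^ (M + 2) := by
    push_cast
    rw [Real.rpow_add (by norm_num)]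
    have := e1 x (by rw [h]; nlinarith [Nat.zero_le (y ^ 2), Nat.zero_le (z ^ 2), Nat.zero_le (w ^ 2)])
    have := e1 y (by rw [h]; nlinarith [Nat.zero_le (x ^ 2), Nat.zero_le (z ^ 2), Nat.zero_le (w ^ 2)])
    have := e1 z (by rw [h]; nlinarith [Nat.zero_le (y ^ 2), Nat.zero_le (x ^ 2), Nat.zero_le (w ^ 2)])
    norm_num
    linarith
  have h4 : Real.log ((2 ^ x + 2 ^ y + 2 ^ z + 1 : ℕ) : ℝ) ≤ (M + 2) * Real.log 2 := by
    rw [← Real.log_rpow (by norm_num)]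
    exact Real.log_le_log (by positivity) h3
  nlinarith

end Pool.Agent.Q197.FM
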