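import Pool.Agent.Q197.FM.Three2

/-!
# Random sets and `2^x + 2^y + 2^z + 1`: the theorems
-/

set_option autoImplicit false
set_option linter.unusedSectionVars false

namespace Pool.Agent.Q197.FM

open Finset Filter MeasureTheory ProbabilityTheory
open scoped Topology

variable {Ω : Type*} [MeasurableSpace Ω] {μ : Measure Ω} [IsProbabilityMeasure μ] {A : Ω → Set ℕ}

theorem three_random_gen (hA : IndepElems μ A) {β ε : ℝ} (hβ : 0 ≤ β) (hε : 0 < ε) (hβε : β / 2 + ε ≤ 1)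
    (G : ℕ → Prop) (hG : ∀ n, G n → Odd n) (N₀ : ℕ)
    (hP : ∀ c : ℝ, 0 < c → ∀ᶠ n : ℕ in atTop, G n → ∀ N : ℕ, N₀ ≤ N → 16 ≤ N → Real.log N ≤ 2 * Real.sqrt n →
      (∀ q : ℕ, q.Prime → q ∣ N →
        (q : ℝ) ≤ c * (Real.log n * Real.log (Real.log n) / Real.log (Real.log (Real.log n))) → ExcP n q) →
      (Real.log N) ^ (-β) ≤ μ.real {ω | N ∈ A ω}) :
    ∀ᵐ ω ∂μ, ∀ᶠ n : ℕ in atTop, G n → ∃ T : Finset ℕ, (n : ℝ) ^ (1 - β / 2 - ε) ≤ T.card ∧
      ∀ N ∈ T, N ∈ A ω ∧ ∃ x y z w : ℕ, n = x ^ 2 + y ^ 2 + z ^ 2 + 4 * w ^ 2 ∧ N = 2 ^ x + 2 ^ y + 2 ^ z + 1 := by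
  classical
  obtain ⟨c, hc, n1, hT⟩ := three_values (ε / 2) (by linarith)
  have hT' : ∀ n : ℕ, ∃ T : Finset ℕ, n1 ≤ n → Odd n → (n : ℝ) ^ (1 - ε / 2) ≤ (T.card : ℝ) ∧ ∀ N ∈ T,
      (∃ x y z w : ℕ, n = x ^ 2 + y ^ 2 + z ^ 2 + 4 * w ^ 2 ∧ N = 2 ^ x + 2 ^ y + 2 ^ z + 1) ∧
        ∀ q : ℕ, q.Prime → q ∣ N →
          (q : ℝ) ≤ c * (Real.log n * Real.log (Real.log n) / Real.log (Real.log (Real.log n))) → ExcP n q := by
    intro n
    by_cases h : n1 ≤ n ∧ Odd n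
    · obtain ⟨S, h1⟩ := hT n h.1 h.2
      exact ⟨S, fun _ _ => h1⟩
    · exact ⟨∅, fun h1 h2 => absurd ⟨h1, h2⟩ h⟩
  choose T hT using hT'
  have h := hA.many_pow G (fun n => (T n).filter (fun N => N₀ + 16 ≤ N)) (fun _ N => {N}) (s := 1 - ε / 2) (t := β / 2)
    (ε := ε / 2) (κ := (2 : ℝ) ^ (-β)) (c := 1 / 2) (by
      filter_upwards with n _ i _ j _ hij
      simpa using hij) (by linarith) (by linarith) (by linarith) (by linarith) (by positivity) (by norm_num) (by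
      filter_upwards [eventually_ge_atTop (n1 + 1), log_small (2 * (N₀ + 16)) 1 (ε / 2) (by linarith) one_pos] with n hn h0 hGn
      obtain ⟨g1, g2⟩ := hT n (by omega) (hG n hGn)
      have hn0 : (0 : ℝ) < n := by exact_mod_cast (show 0 < n by omega)
      have hn1 : (1 : ℝ) ≤ n := by exact_mod_cast (show 1 ≤ n by omega)
      have h1 : (T n).card ≤ ((T n).filter (fun N => N₀ + 16 ≤ N)).card + (N₀ + 16) := by
        rw [← card_filter_add_card_filter_not (s := T n) (fun N => N₀ + 16 ≤ N)]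
        have h2 : ((T n).filter (fun N => ¬ N₀ + 16 ≤ N)) ⊆ range (N₀ + 16) := by
          intro N hN
          rw [mem_filter] at hN
          rw [mem_range]
          omega
        have := card_le_card h2
        rw [card_range] at this
        omega
      have h2 : ((T n).card : ℝ) ≤ ((T n).filter (fun N => N₀ + 16 ≤ N)).card + (N₀ + 16) := by exact_mod_cast h1
      have h4 : 0 ≤ Real.log (n : ℝ) := Real.log_natCast_nonneg n
      have h5 : 2 * ((N₀ : ℝ) + 16) ≤ (n : ℝ) ^ (1 - ε / 2) := by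
        have h6 : 2 * ((N₀ : ℝ) + 16) ≤ (n : ℝ) ^ (ε / 2) := by
          have : (0 : ℝ) ≤ N₀ := Nat.cast_nonneg _
          nlinarith
        exact h6.trans (Real.rpow_le_rpow_of_exponent_le hn1 (by linarith))
      linarith) (by
      filter_upwards [eventually_ge_atTop (n1 + 16), hP c hc, log_three_upper] with n hn hPn hup hGn N hN
      obtain ⟨g1, g2⟩ := hT n (by omega) (hG n hGn)
      rw [mem_filter] at hN
      obtain ⟨⟨x, y, z, w, k1, k2⟩, k3⟩ := g2 N hN.1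
      have hn0 : (0 : ℝ) < n := by exact_mod_cast (show 0 < n by omega)
      have k4 := hup x y z w k1
      rw [← k2] at k4
      rw [prod_singleton]
      refine le_trans ?_ (hPn hGn N (by omega) (by omega) k4 k3)
      have hNr : (16 : ℝ) ≤ N := by exact_mod_cast (show 16 ≤ N by omega)
      have hlogN : (1 : ℝ) ≤ Real.log N := by
        rw [Real.le_log_iff_exp_le (by linarith)]
        linarith [Real.exp_one_lt_d9]
      calc (2 : ℝ) ^ (-β) * (n : ℝ) ^ (-(β / 2)) = (2 * Real.sqrt n) ^ (-β) := by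
            rw [Real.mul_rpow (by norm_num) (Real.sqrt_nonneg _), Real.sqrt_eq_rpow, ← Real.rpow_mul hn0.le]
            congr 2
            ring
        _ ≤ _ := Real.rpow_le_rpow_of_nonpos (by linarith) k4 (by linarith))
  filter_upwards [h] with ω h1
  filter_upwards [h1, eventually_ge_atTop n1] with n h2 hn hGn
  obtain ⟨J, hJ1, hJ2, hJ3⟩ := h2 hGn
  refine ⟨J, ?_, fun N hN => ?_⟩
  · convert hJ2 using 2
    ring
  · have h3 := hJ1 hN
    rw [mem_filter] at h3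
    obtain ⟨⟨x, y, z, w, k1, k2⟩, _⟩ := (hT n hn (hG n hGn)).2 N h3.1
    exact ⟨hJ3 N hN N (by simp), x, y, z, w, k1, k2⟩

theorem level_large (c K : ℝ) (hc : 0 < c) : ∀ᶠ n : ℕ in atTop,
    K * Real.log n ≤ c * (Real.log n * Real.log (Real.log n) / Real.log (Real.log (Real.log n))) := by
  filter_upwards [rough_fun K c hc,
    ((Real.tendsto_log_atTop.comp tendsto_natCast_atTop_atTop).eventually_ge_atTop (1 : ℝ))] with n h1 h2
  simp only [Function.comp_apply] at h2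
  calc K * Real.log n ≤ (c * (Real.log (Real.log n) / Real.log (Real.log (Real.log n)))) * Real.log n :=
        mul_le_mul_of_nonneg_right h1 (by linarith)
    _ = _ := by ring

/-- Exceptional primes do not occur up to 11. -/
theorem exc_small {n q : ℕ} (hq : q.Prime) (h : ExcP n q) : 13 ≤ q := by
  obtain ⟨h2, h3⟩ := h
  have : Fact q.Prime := ⟨hq⟩
  have h20 : (2 : ZMod q) ≠ 0 := by
    intro h
    have h3 : ((2 : ℕ) : ZMod q) = 0 := by exact_mod_cast h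
    rw [ZMod.natCast_eq_zero_iff] at h3
    exact h2 ((Nat.prime_dvd_prime_iff_eq hq Nat.prime_two).1 h3)
  have hdvd : orderOf (2 : ZMod q) ∣ q - 1 := ZMod.orderOf_dvd_card_sub_one h20
  have hq2 := hq.two_le
  by_contra hlt
  rcases h3 with ⟨l, hl, hl5, hld, _⟩ | ⟨_, _, h7, h3⟩
  · have h4 := Nat.le_of_dvd (by omega) (hld.trans hdvd)
    have h5 : 5 ^ 2 ≤ l ^ 2 := Nat.pow_le_pow_left hl5 2
    omega
  · have h4 : 3 ∣ q - 1 := h3.trans hdvd
    have h5 : q = 4 ∨ q = 7 ∨ q = 10 := by omega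
    rcases h5 with h5 | h5 | h5
    · rw [h5] at hq
      exact absurd hq (by decide)
    · exact h7 h5
    · rw [h5] at hq
      exact absurd hq (by decide)

/-- Exceptional primes are large, if `n` has suitable residues. -/
theorem exc_large {n q : ℕ} (hq : q.Prime) (h : ExcP n q) (hn : 3 ∣ n ∨ n % 32 = 13) {K : ℝ}
    (hl : ∀ l : ℕ, l.Prime → 5 ≤ l → (l : ℤ) ∣ (3 * n - 2) * (9 * n - 2) → K < (l : ℝ) ^ 2) : K < q := by
  obtain ⟨h2, h3⟩ := h
  have : Fact q.Prime := ⟨hq⟩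
  have h20 : (2 : ZMod q) ≠ 0 := by
    intro h
    have h3 : ((2 : ℕ) : ZMod q) = 0 := by exact_mod_cast h
    rw [ZMod.natCast_eq_zero_iff] at h3
    exact h2 ((Nat.prime_dvd_prime_iff_eq hq Nat.prime_two).1 h3)
  have hdvd : orderOf (2 : ZMod q) ∣ q - 1 := ZMod.orderOf_dvd_card_sub_one h20
  have hq2 := hq.two_le
  rcases h3 with ⟨l, hlp, hl5, hld, hln⟩ | ⟨h4, h5, _, _⟩
  · have h4 := Nat.le_of_dvd (by omega) (hld.trans hdvd)
    have h5 : (l : ℝ) ^ 2 ≤ q := by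
      have : l ^ 2 ≤ q := by omega
      exact_mod_cast this
    exact (hl l hlp hl5 hln).trans_le h5
  · rcases hn with h6 | h6
    · exact absurd h6 h4
    · exact absurd h6 h5

/-- All odd `n`, sieved by the primes up to 11. -/
theorem three_random_a (hA : IndepElems μ A) {β ε : ℝ} (hβ : 0 ≤ β) (hε : 0 < ε) (hβε : β / 2 + ε ≤ 1)
    {N₀ : ℕ} (hP : ∀ N : ℕ, N₀ ≤ N → (∀ q : ℕ, q.Prime → q ∣ N → 11 < q) →
      (Real.log N) ^ (-β) ≤ μ.real {ω | N ∈ A ω}) :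
    ∀ᵐ ω ∂μ, ∀ᶠ n : ℕ in atTop, Odd n → ∃ T : Finset ℕ, (n : ℝ) ^ (1 - β / 2 - ε) ≤ T.card ∧
      ∀ N ∈ T, N ∈ A ω ∧ ∃ x y z w : ℕ, n = x ^ 2 + y ^ 2 + z ^ 2 + 4 * w ^ 2 ∧ N = 2 ^ x + 2 ^ y + 2 ^ z + 1 := by
  refine three_random_gen hA hβ hε hβε (fun n => Odd n) (fun _ h => h) N₀ (fun c hc => ?_)
  filter_upwards [level_large c 11 hc,
    ((Real.tendsto_log_atTop.comp tendsto_natCast_atTop_atTop).eventually_ge_atTop (1 : ℝ))] with n h1 h2 _ N hN _ _ hq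
  simp only [Function.comp_apply] at h2
  refine hP N hN (fun q hqp hqN => ?_)
  by_contra hlt
  have h3 : (q : ℝ) ≤ 11 := by exact_mod_cast (show q ≤ 11 by omega)
  have := exc_small hqp (hq q hqp hqN (by linarith))
  omega

/-- Sieved by the primes up to a constant. -/
theorem three_random_b (hA : IndepElems μ A) {β ε : ℝ} (hβ : 0 ≤ β) (hε : 0 < ε) (hβε : β / 2 + ε ≤ 1) (K : ℝ)
    {N₀ : ℕ} (hP : ∀ N : ℕ, N₀ ≤ N → (∀ q : ℕ, q.Prime → q ∣ N → K < q) →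
      (Real.log N) ^ (-β) ≤ μ.real {ω | N ∈ A ω}) :
    ∀ᵐ ω ∂μ, ∀ᶠ n : ℕ in atTop, (Odd n ∧ (3 ∣ n ∨ n % 32 = 13) ∧
      ∀ l : ℕ, l.Prime → 5 ≤ l → (l : ℤ) ∣ (3 * n - 2) * (9 * n - 2) → K < (l : ℝ) ^ 2) →
      ∃ T : Finset ℕ, (n : ℝ) ^ (1 - β / 2 - ε) ≤ T.card ∧
      ∀ N ∈ T, N ∈ A ω ∧ ∃ x y z w : ℕ, n = x ^ 2 + y ^ 2 + z ^ 2 + 4 * w ^ 2 ∧ N = 2 ^ x + 2 ^ y + 2 ^ z + 1 := by
  refine three_random_gen hA hβ hε hβε _ (fun _ h => h.1) N₀ (fun c hc => ?_)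
  filter_upwards [level_large c |K| hc,
    ((Real.tendsto_log_atTop.comp tendsto_natCast_atTop_atTop).eventually_ge_atTop (1 : ℝ))] with n h1 h2 hG N hN _ _ hq
  simp only [Function.comp_apply] at h2
  obtain ⟨_, g2, g3⟩ := hG
  refine hP N hN (fun q hqp hqN => ?_)
  by_contra hlt
  push Not at hlt
  have h4 : K ≤ |K| * Real.log n := by
    have := le_abs_self K
    have := abs_nonneg K
    nlinarith
  have h5 := exc_large hqp (hq q hqp hqN (hlt.trans (h4.trans h1))) g2 g3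
  linarith

/-- Sieved by the primes up to `K log log N`. -/
theorem three_random_c (hA : IndepElems μ A) {β ε : ℝ} (hβ : 0 ≤ β) (hε : 0 < ε) (hβε : β / 2 + ε ≤ 1) (K : ℝ)
    {N₀ : ℕ} (hP : ∀ N : ℕ, N₀ ≤ N → (∀ q : ℕ, q.Prime → q ∣ N → K * Real.log (Real.log N) < q) →
      (Real.log N) ^ (-β) ≤ μ.real {ω | N ∈ A ω}) :
    ∀ᵐ ω ∂μ, ∀ᶠ n : ℕ in atTop, (Odd n ∧ (3 ∣ n ∨ n % 32 = 13) ∧
      ∀ l : ℕ, l.Prime → 5 ≤ l → (l : ℤ) ∣ (3 * n - 2) * (9 * n - 2) → K * Real.log n < (l : ℝ) ^ 2) →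
      ∃ T : Finset ℕ, (n : ℝ) ^ (1 - β / 2 - ε) ≤ T.card ∧
      ∀ N ∈ T, N ∈ A ω ∧ ∃ x y z w : ℕ, n = x ^ 2 + y ^ 2 + z ^ 2 + 4 * w ^ 2 ∧ N = 2 ^ x + 2 ^ y + 2 ^ z + 1 := by
  refine three_random_gen hA hβ hε hβε _ (fun _ h => h.1) N₀ (fun c hc => ?_)
  filter_upwards [level_large c K hc, eventually_ge_atTop 16,
    ((Real.tendsto_log_atTop.comp tendsto_natCast_atTop_atTop).eventually_ge_atTop (1 : ℝ))] with n h1 hn h2 hG N hN h16 hlog hq
  simp only [Function.comp_apply] at h2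
  obtain ⟨_, g2, g3⟩ := hG
  have hNr : (16 : ℝ) ≤ N := by exact_mod_cast h16
  have hlogN : (1 : ℝ) ≤ Real.log N := by
    rw [Real.le_log_iff_exp_le (by linarith)]
    linarith [Real.exp_one_lt_d9]
  have h7 : 0 ≤ Real.log (Real.log (N : ℝ)) := Real.log_nonneg hlogN
  refine hP N hN (fun q hqp hqN => ?_)
  rcases le_or_gt K 0 with h8 | h8
  · have h9 : K * Real.log (Real.log (N : ℝ)) ≤ 0 := mul_nonpos_of_nonpos_of_nonneg h8 h7
    have h10 : (0 : ℝ) < q := by exact_mod_cast hqp.pos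
    linarith
  by_contra hlt
  push Not at hlt
  have h6 : Real.log (Real.log N) ≤ Real.log n :=
    Real.log_le_log (by linarith) (hlog.trans (two_sqrt_le (by exact_mod_cast hn)))
  have h4 : K * Real.log (Real.log N) ≤ K * Real.log n := mul_le_mul_of_nonneg_left h6 h8.le
  have h5 := exc_large hqp (hq q hqp hqN (hlt.trans (h4.trans h1))) g2 g3
  linarith

end Pool.Agent.Q197.FM
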