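import Pool.Agent.Q197.FM.R2
import Pool.Agent.Y440.LC.Main

/-!
# The multiplicity of the values of `2^(x+y) + 2^(z+w) + 1`
-/

set_option autoImplicit false
set_option linter.unusedSectionVars false

namespace Pool.Agent.Q197.FM

open Finset

/-- The number attached to a quadruple. -/
def N2 (X : ℕ × ℕ × ℕ × ℕ) : ℕ := 2 ^ (X.1 + X.2.1) + 2 ^ (X.2.2.1 + X.2.2.2) + 1

theorem pow_sorted {s t s' t' : ℕ} (h1 : t ≤ s) (h2 : t' ≤ s') (h : 2 ^ s + 2 ^ t = 2 ^ s' + 2 ^ t') : s = s' ∧ t = t' := by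
  have h3 : 2 ^ t ≤ 2 ^ s := Nat.pow_le_pow_right (by norm_num) h1
  have h4 : 2 ^ t' ≤ 2 ^ s' := Nat.pow_le_pow_right (by norm_num) h2
  have h5 : 0 < 2 ^ t := by positivity
  have h6 : 0 < 2 ^ t' := by positivity
  have h7 : s = s' := by
    rcases Nat.lt_trichotomy s s' with h8 | h8 | h8
    · have : 2 ^ (s + 1) ≤ 2 ^ s' := Nat.pow_le_pow_right (by norm_num) h8
      rw [pow_succ] at this
      omega
    · exact h8
    · have : 2 ^ (s' + 1) ≤ 2 ^ s := Nat.pow_le_pow_right (by norm_num) h8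
      rw [pow_succ] at this
      omega
  subst h7
  refine ⟨rfl, ?_⟩
  have : 2 ^ t = 2 ^ t' := by omega
  exact Nat.pow_right_injective (le_refl 2) this

theorem pow_pair {s t s' t' : ℕ} (h : 2 ^ s + 2 ^ t = 2 ^ s' + 2 ^ t') : (s = s' ∧ t = t') ∨ (s = t' ∧ t = s') := by
  rcases le_total t s with h1 | h1 <;> rcases le_total t' s' with h2 | h2
  · exact Or.inl (pow_sorted h1 h2 h)
  · exact Or.inr (pow_sorted h1 h2 (by rw [h]; ring))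
  · obtain ⟨a, b⟩ := pow_sorted h1 h2 (by rw [← h]; ring)
    exact Or.inr ⟨b, a⟩
  · obtain ⟨a, b⟩ := pow_sorted h1 h2 (by rw [add_comm, h]; ring)
    exact Or.inl ⟨b, a⟩

theorem fiber_st {n s t : ℕ} (S : Finset (ℕ × ℕ × ℕ × ℕ))
    (hS : ∀ X ∈ S, n = X.1 ^ 2 + X.2.1 ^ 2 + X.2.2.1 ^ 2 + X.2.2.2 ^ 2 ∧ X.1 + X.2.1 = s ∧ X.2.2.1 + X.2.2.2 = t)
    {C ε : ℝ} (hC : 0 < C) (hε : 0 < ε) (hn : 1 ≤ n)
    (hr : ∀ m : ℕ, 0 < m → ∀ F : Finset (ℤ × ℤ), (∀ p ∈ F, p.1 ^ 2 + p.2 ^ 2 = m) → (F.card : ℝ) ≤ C * (m : ℝ) ^ ε) :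
    (S.card : ℝ) ≤ (C * 2 ^ ε + 1) * (n : ℝ) ^ ε := by
  classical
  have hn1 : (1 : ℝ) ≤ n := by exact_mod_cast hn
  have hne : (1 : ℝ) ≤ (n : ℝ) ^ ε := Real.one_le_rpow hn1 hε.le
  rcases S.eq_empty_or_nonempty with h0 | ⟨X0, hX0⟩
  · rw [h0, card_empty, Nat.cast_zero]
    positivity
  obtain ⟨F, hF⟩ : ∃ F : Finset (ℤ × ℤ), F = S.image (fun X => ((X.1 : ℤ) - X.2.1, (X.2.2.1 : ℤ) - X.2.2.2)) := ⟨_, rfl⟩
  have hFc : F.card = S.card := by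
    rw [hF]
    refine card_image_of_injOn (fun X hX Y hY hXY => ?_)
    obtain ⟨_, s2, s3⟩ := hS X (mem_coe.1 hX)
    obtain ⟨_, t2, t3⟩ := hS Y (mem_coe.1 hY)
    simp only [Prod.mk.injEq] at hXY
    obtain ⟨e1, e2⟩ := hXY
    refine Prod.ext (by omega) (Prod.ext (by omega) (Prod.ext (by omega) (by omega)))
  have hval : ∀ X ∈ S, ((X.1 : ℤ) - X.2.1) ^ 2 + ((X.2.2.1 : ℤ) - X.2.2.2) ^ 2 = 2 * n - s ^ 2 - t ^ 2 := by
    intro X hX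
    obtain ⟨s1, s2, s3⟩ := hS X hX
    rw [s1, ← s2, ← s3]
    push_cast
    ring
  have hm0 : (0 : ℤ) ≤ 2 * n - s ^ 2 - t ^ 2 := by
    rw [← hval X0 hX0]
    positivity
  obtain ⟨m, hm⟩ := Int.eq_ofNat_of_zero_le hm0
  rw [hm] at hval
  have hFm : ∀ p ∈ F, p.1 ^ 2 + p.2 ^ 2 = (m : ℤ) := by
    intro p hp
    rw [hF, mem_image] at hp
    obtain ⟨X, hX, rfl⟩ := hp
    exact hval X hX
  rcases Nat.eq_zero_or_pos m with h1 | h1
  · have h2 : F ⊆ {(0, 0)} := by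
      intro p hp
      have h3 := hFm p hp
      rw [h1, Nat.cast_zero] at h3
      have h4 : p.1 ^ 2 = 0 := by nlinarith [sq_nonneg p.1, sq_nonneg p.2]
      have h5 : p.2 ^ 2 = 0 := by nlinarith [sq_nonneg p.1, sq_nonneg p.2]
      rw [mem_singleton]
      exact Prod.ext (pow_eq_zero_iff (by norm_num) |>.1 h4) (pow_eq_zero_iff (by norm_num) |>.1 h5)
    have h3 := card_le_card h2
    rw [card_singleton, hFc] at h3
    have h4 : (S.card : ℝ) ≤ 1 := by exact_mod_cast h3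
    have h5 : 0 ≤ C * 2 ^ ε * (n : ℝ) ^ ε := by positivity
    linarith
  · have h2 := hr m h1 F hFm
    rw [hFc] at h2
    have h3 : (m : ℝ) ≤ 2 * n := by
      have : (m : ℤ) ≤ 2 * n := by
        have h9 := sq_nonneg (s : ℤ)
        have h10 := sq_nonneg (t : ℤ)
        linarith
      exact_mod_cast this
    have h4 : (m : ℝ) ^ ε ≤ 2 ^ ε * (n : ℝ) ^ ε := by
      rw [← Real.mul_rpow (by norm_num) (by linarith)]
      exact Real.rpow_le_rpow (Nat.cast_nonneg _) h3 hε.le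
    have h5 := mul_le_mul_of_nonneg_left h4 hC.le
    have h6 : 0 ≤ (n : ℝ) ^ ε := by positivity
    linarith

theorem fiber_N2 {n N : ℕ} (S : Finset (ℕ × ℕ × ℕ × ℕ))
    (hS : ∀ X ∈ S, n = X.1 ^ 2 + X.2.1 ^ 2 + X.2.2.1 ^ 2 + X.2.2.2 ^ 2 ∧ N2 X = N)
    {C ε : ℝ} (hC : 0 < C) (hε : 0 < ε) (hn : 1 ≤ n)
    (hr : ∀ m : ℕ, 0 < m → ∀ F : Finset (ℤ × ℤ), (∀ p ∈ F, p.1 ^ 2 + p.2 ^ 2 = m) → (F.card : ℝ) ≤ C * (m : ℝ) ^ ε) :
    (S.card : ℝ) ≤ 2 * (C * 2 ^ ε + 1) * (n : ℝ) ^ ε := by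
  classical
  rcases S.eq_empty_or_nonempty with h0 | ⟨X0, hX0⟩
  · rw [h0, card_empty, Nat.cast_zero]
    positivity
  obtain ⟨s, hs⟩ : ∃ s, s = X0.1 + X0.2.1 := ⟨_, rfl⟩
  obtain ⟨t, ht⟩ : ∃ t, t = X0.2.2.1 + X0.2.2.2 := ⟨_, rfl⟩
  have h1 : S = S.filter (fun X => X.1 + X.2.1 = s ∧ X.2.2.1 + X.2.2.2 = t) ∪
      S.filter (fun X => X.1 + X.2.1 = t ∧ X.2.2.1 + X.2.2.2 = s) := by
    ext X
    rw [mem_union, mem_filter, mem_filter]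
    constructor
    · intro hX
      have h2 : N2 X = N2 X0 := (hS X hX).2.trans (hS X0 hX0).2.symm
      unfold N2 at h2
      rw [← hs, ← ht] at h2
      have h3 : 2 ^ (X.1 + X.2.1) + 2 ^ (X.2.2.1 + X.2.2.2) = 2 ^ s + 2 ^ t := by omega
      rcases pow_pair h3 with h4 | h4
      · exact Or.inl ⟨hX, h4⟩
      · exact Or.inr ⟨hX, h4⟩
    · rintro (h | h) <;> exact h.1
  have h2 := fiber_st (s := s) (t := t) (n := n) (S.filter (fun X => X.1 + X.2.1 = s ∧ X.2.2.1 + X.2.2.2 = t))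
    (fun X hX => by
      rw [mem_filter] at hX
      exact ⟨(hS X hX.1).1, hX.2⟩) hC hε hn hr
  have h3 := fiber_st (s := t) (t := s) (n := n) (S.filter (fun X => X.1 + X.2.1 = t ∧ X.2.2.1 + X.2.2.2 = s))
    (fun X hX => by
      rw [mem_filter] at hX
      exact ⟨(hS X hX.1).1, hX.2⟩) hC hε hn hr
  have h4 : (S.card : ℝ) ≤ ((S.filter (fun X => X.1 + X.2.1 = s ∧ X.2.2.1 + X.2.2.2 = t)).card : ℝ) +
      (S.filter (fun X => X.1 + X.2.1 = t ∧ X.2.2.1 + X.2.2.2 = s)).card := by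
    have := card_union_le (S.filter (fun X => X.1 + X.2.1 = s ∧ X.2.2.1 + X.2.2.2 = t))
      (S.filter (fun X => X.1 + X.2.1 = t ∧ X.2.2.1 + X.2.2.2 = s))
    rw [← h1] at this
    exact_mod_cast this
  linarith

theorem N2_upper {n : ℕ} {x y z w : ℕ} (h : n = x ^ 2 + y ^ 2 + z ^ 2 + w ^ 2) :
    ((x + y : ℕ) : ℝ) ≤ Real.sqrt 2 * Real.sqrt n := by
  rw [← Real.sqrt_mul (by norm_num)]
  refine Real.le_sqrt_of_sq_le ?_
  have : (x + y) ^ 2 ≤ 2 * n := by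
    rw [h]
    nlinarith [sq_nonneg ((x : ℤ) - y), Nat.zero_le (z ^ 2 + w ^ 2), add_pow_two x y, two_mul_le_add_sq x y]
  exact_mod_cast this

end Pool.Agent.Q197.FM
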