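import Pool.Agent.Q197.FM.Two1

/-!
# Random sets and four squares with `2^(x+y) + 2^(z+w) + 1`
-/

set_option autoImplicit false
set_option linter.unusedSectionVars false

namespace Pool.Agent.Q197.FM

open Finset Filter MeasureTheory ProbabilityTheory
open scoped Topology

/-- Bounds for a number `2^s + 2^t + 1` with `s, t ≤ √2 √n`. -/
theorem log_pow_upper : ∀ᶠ n : ℕ in atTop, ∀ s t : ℕ, (s : ℝ) ≤ Real.sqrt 2 * Real.sqrt n →
    (t : ℝ) ≤ Real.sqrt 2 * Real.sqrt n → Real.log ((2 ^ s + 2 ^ t + 1 : ℕ) : ℝ) ≤ 2 * Real.sqrt n := by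
  filter_upwards [eventually_ge_atTop 16] with n hn s t hs ht
  have hsq : (4 : ℝ) ≤ Real.sqrt n := by
    rw [show (4 : ℝ) = Real.sqrt 16 by rw [show (16 : ℝ) = 4 ^ 2 by norm_num]; simp]
    exact Real.sqrt_le_sqrt (by exact_mod_cast hn)
  have h2 : Real.sqrt 2 ≤ 1.42 := by
    rw [Real.sqrt_le_left (by norm_num)]
    norm_num
  have hl2 : Real.log 2 ≤ 0.6932 := Real.log_two_lt_d9.le.trans (by norm_num)
  have hl0 : 0 < Real.log 2 := Real.log_pos (by norm_num)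
  obtain ⟨M, hM⟩ : ∃ M : ℝ, M = Real.sqrt 2 * Real.sqrt n := ⟨_, rfl⟩
  rw [← hM] at hs ht
  have e1 : ∀ u : ℕ, (u : ℝ) ≤ M → (2 : ℝ) ^ u ≤ 2 ^ M := by
    intro u hu
    rw [← Real.rpow_natCast]
    exact Real.rpow_le_rpow_of_exponent_le (by norm_num) hu
  have hM0 : 0 ≤ M := by rw [hM]; positivity
  have e2 : (1 : ℝ) ≤ 2 ^ M := Real.one_le_rpow (by norm_num) hM0
  have h3 : ((2 ^ s + 2 ^ t + 1 : ℕ) : ℝ) ≤ 2 ^ (M + 2) := by
    push_cast
    rw [Real.rpow_add (by norm_num)]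
    have := e1 s hs
    have := e1 t ht
    norm_num
    linarith
  have h4 : Real.log ((2 ^ s + 2 ^ t + 1 : ℕ) : ℝ) ≤ (M + 2) * Real.log 2 := by
    rw [← Real.log_rpow (by norm_num)]
    exact Real.log_le_log (by positivity) h3
  have h5 : M ≤ 1.42 * Real.sqrt n := by
    rw [hM]
    exact mul_le_mul_of_nonneg_right h2 (Real.sqrt_nonneg _)
  nlinarith

theorem two_sqrt_le {n : ℝ} (h : 16 ≤ n) : 2 * Real.sqrt n ≤ n := by
  have h1 : (4 : ℝ) ≤ Real.sqrt n := by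
    rw [show (4 : ℝ) = Real.sqrt 16 by rw [show (16 : ℝ) = 4 ^ 2 by norm_num]; simp]
    exact Real.sqrt_le_sqrt h
  have h2 := Real.mul_self_sqrt (show 0 ≤ n by linarith)
  nlinarith

theorem rough_fun (C c : ℝ) (hc : 0 < c) : ∀ᶠ n : ℕ in atTop,
    C ≤ c * (Real.log (Real.log n) / Real.log (Real.log (Real.log n))) := by
  have h1 : Tendsto (fun x : ℝ => x / Real.log x) atTop atTop := by
    have h2 : Tendsto (fun x : ℝ => Real.log x / x) atTop (𝓝 0) := by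
      simpa using (Real.isLittleO_log_id_atTop.tendsto_div_nhds_zero)
    have h3 : ∀ᶠ x : ℝ in atTop, 0 < Real.log x / x := by
      filter_upwards [eventually_gt_atTop 1] with x hx
      have := Real.log_pos hx
      positivity
    have h4 := (tendsto_inv_nhdsGT_zero.comp (tendsto_nhdsWithin_iff.2 ⟨h2, h3⟩))
    refine h4.congr (fun x => ?_)
    simp
  have h5 : Tendsto (fun n : ℕ => Real.log (Real.log (n : ℝ))) atTop atTop :=
    Real.tendsto_log_atTop.comp (Real.tendsto_log_atTop.comp tendsto_natCast_atTop_atTop)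
  have h6 := (h1.comp h5).const_mul_atTop hc
  exact h6.eventually_ge_atTop C

theorem N2_large {n x y z w : ℕ} (h : n = x ^ 2 + y ^ 2 + z ^ 2 + w ^ 2) :
    Nat.sqrt n ≤ 2 ^ (x + y) + 2 ^ (z + w) + 1 := by
  have h1 : x + y < 2 ^ (x + y) := Nat.lt_two_pow_self
  have h2 : z + w < 2 ^ (z + w) := Nat.lt_two_pow_self
  have h3 : Nat.sqrt n ≤ x + y + z + w := by
    rw [← Nat.lt_succ_iff, Nat.sqrt_lt', h]
    nlinarith [Nat.zero_le (x * y), Nat.zero_le (x * z), Nat.zero_le (x * w), Nat.zero_le (y * z),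
      Nat.zero_le (y * w), Nat.zero_le (z * w)]
  omega

theorem two_values (ε : ℝ) (hε : 0 < ε) : ∃ c : ℝ, 0 < c ∧ ∃ n₀ : ℕ, ∀ n : ℕ, n₀ ≤ n → Odd n →
    ∃ T : Finset ℕ, (n : ℝ) ^ (1 - ε) ≤ (T.card : ℝ) ∧ ∀ N ∈ T,
      (∃ x y z w : ℕ, n = x ^ 2 + y ^ 2 + z ^ 2 + w ^ 2 ∧ N = 2 ^ (x + y) + 2 ^ (z + w) + 1) ∧
        ∀ q : ℕ, q.Prime → q ∣ N →
          c * (Real.log n * Real.log (Real.log n) / Real.log (Real.log (Real.log n))) < q := by
  classical
  obtain ⟨c, hc, n1, hS⟩ := Pool.Agent.Y440.LC.main1 (ε / 3) (by linarith)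
  obtain ⟨C1, hC1, hr⟩ := r2_bound (ε / 3) (by linarith)
  obtain ⟨n2, hn2⟩ := eventually_atTop.1 (log_small (2 * (C1 * 2 ^ (ε / 3) + 1)) 1 (ε / 3) (by linarith) one_pos)
  refine ⟨c, hc, n1 + n2 + 1, fun n hn hodd => ?_⟩
  obtain ⟨S, g1, g2⟩ := hS n (by omega) hodd
  have hn0 : (0 : ℝ) < n := by exact_mod_cast (show 0 < n by omega)
  refine ⟨S.image N2, ?_, fun N hN => ?_⟩
  · have h1 : (S.card : ℝ) ≤ (S.image N2).card * (2 * (C1 * 2 ^ (ε / 3) + 1) * (n : ℝ) ^ (ε / 3)) := by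
      have h2 : (S.card : ℝ) = ∑ v ∈ S.image N2, ((S.filter (fun X => N2 X = v)).card : ℝ) := by
        rw [card_eq_sum_card_fiberwise (f := N2) (t := S.image N2) (fun X hX => mem_coe.2 (mem_image_of_mem _ hX))]
        push_cast
        rfl
      rw [h2, ← nsmul_eq_mul]
      refine sum_le_card_nsmul _ _ _ (fun v _ => ?_)
      refine fiber_N2 (n := n) (N := v) _ (fun X hX => ?_) hC1 (by linarith) (by omega) hr
      rw [mem_filter] at hX
      exact ⟨(g2 X.1 X.2.1 X.2.2.1 X.2.2.2 hX.1).1, hX.2⟩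
    have h3 := hn2 n (by omega)
    have h4 : 0 ≤ Real.log (n : ℝ) := Real.log_natCast_nonneg n
    have h5 : 2 * (C1 * 2 ^ (ε / 3) + 1) ≤ (n : ℝ) ^ (ε / 3) := by
      have h6 : 0 ≤ 2 * (C1 * 2 ^ (ε / 3) + 1) := by positivity
      nlinarith
    have h6 : (n : ℝ) ^ (1 - ε / 3) = (n : ℝ) ^ (1 - ε) * ((n : ℝ) ^ (ε / 3) * (n : ℝ) ^ (ε / 3)) := by
      rw [← Real.rpow_add hn0, ← Real.rpow_add hn0]
      congr 1
      ring
    have h7 : (n : ℝ) ^ (1 - ε / 3) ≤ (S.image N2).card * ((n : ℝ) ^ (ε / 3) * (n : ℝ) ^ (ε / 3)) := by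
      refine (g1.trans h1).trans (mul_le_mul_of_nonneg_left ?_ (Nat.cast_nonneg _))
      exact mul_le_mul_of_nonneg_right h5 (by positivity)
    rw [h6] at h7
    exact le_of_mul_le_mul_right h7 (by positivity)
  · rw [mem_image] at hN
    obtain ⟨⟨x, y, z, w⟩, hX, rfl⟩ := hN
    obtain ⟨k1, k2⟩ := g2 x y z w hX
    exact ⟨⟨x, y, z, w, k1, rfl⟩, k2⟩

variable {Ω : Type*} [MeasurableSpace Ω] {μ : Measure Ω} [IsProbabilityMeasure μ] {A : Ω → Set ℕ}

theorem two_random (hA : IndepElems μ A) {β ε C : ℝ} (hβ : 0 ≤ β) (hε : 0 < ε) (hβε : β / 2 + ε ≤ 1)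
    {N₀ : ℕ} (hN : ∀ N : ℕ, N₀ ≤ N → (∀ q : ℕ, q.Prime → q ∣ N → C * Real.log (Real.log N) < q) →
      (Real.log N) ^ (-β) ≤ μ.real {ω | N ∈ A ω}) :
    ∀ᵐ ω ∂μ, ∀ᶠ n : ℕ in atTop, Odd n → ∃ T : Finset ℕ, (n : ℝ) ^ (1 - β / 2 - ε) ≤ T.card ∧
      ∀ N ∈ T, N ∈ A ω ∧ ∃ x y z w : ℕ, n = x ^ 2 + y ^ 2 + z ^ 2 + w ^ 2 ∧ N = 2 ^ (x + y) + 2 ^ (z + w) + 1 := by
  classical
  obtain ⟨c, hc, n1, hS⟩ := Pool.Agent.Y440.LC.main1 (ε / 8) (by linarith)
  obtain ⟨C1, hC1, hr⟩ := r2_bound (ε / 8) (by linarith)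
  have hS' : ∀ n : ℕ, ∃ S : Finset (ℕ × ℕ × ℕ × ℕ), n1 ≤ n → Odd n → (n : ℝ) ^ (1 - ε / 8) ≤ (S.card : ℝ) ∧
      ∀ x y z w : ℕ, (x, y, z, w) ∈ S → n = x ^ 2 + y ^ 2 + z ^ 2 + w ^ 2 ∧
        ∀ q : ℕ, q.Prime → q ∣ 2 ^ (x + y) + 2 ^ (z + w) + 1 →
          c * (Real.log n * Real.log (Real.log n) / Real.log (Real.log (Real.log n))) < q := by
    intro n
    by_cases h : n1 ≤ n ∧ Odd n
    · obtain ⟨S, h1⟩ := hS n h.1 h.2
      exact ⟨S, fun _ _ => h1⟩
    · exact ⟨∅, fun h1 h2 => absurd ⟨h1, h2⟩ h⟩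
  choose S hS using hS'
  obtain ⟨c2, hc2⟩ : ∃ c2 : ℝ, c2 = 1 / (2 * (C1 * 2 ^ (ε / 8) + 1)) := ⟨_, rfl⟩
  have hc2p : 0 < c2 := by rw [hc2]; positivity
  have h := hA.many_pow (fun n => Odd n) (fun n => (S n).image N2) (fun _ N => {N}) (s := 1 - ε / 4) (t := β / 2)
    (ε := 3 * ε / 4) (κ := (2 : ℝ) ^ (-β)) (c := c2) (by
      filter_upwards with n _ i _ j _ hij
      simpa using hij) (by linarith) (by linarith) (by linarith) (by linarith) (by positivity) hc2p (by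
      filter_upwards [eventually_ge_atTop (n1 + 1)] with n hn hodd
      obtain ⟨g1, g2⟩ := hS n (by omega) hodd
      have hn0 : (0 : ℝ) < n := by exact_mod_cast (show 0 < n by omega)
      have h1 : ((S n).card : ℝ) ≤ ((S n).image N2).card * (2 * (C1 * 2 ^ (ε / 8) + 1) * (n : ℝ) ^ (ε / 8)) := by
        have h2 : ((S n).card : ℝ) = ∑ v ∈ (S n).image N2, (((S n).filter (fun X => N2 X = v)).card : ℝ) := by
          rw [card_eq_sum_card_fiberwise (f := N2) (t := (S n).image N2) (fun X hX => mem_coe.2 (mem_image_of_mem _ hX))]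
          push_cast
          rfl
        rw [h2, ← nsmul_eq_mul]
        refine sum_le_card_nsmul _ _ _ (fun v _ => ?_)
        refine fiber_N2 (n := n) (N := v) _ (fun X hX => ?_) hC1 (by linarith) (by omega) hr
        rw [mem_filter] at hX
        exact ⟨(g2 X.1 X.2.1 X.2.2.1 X.2.2.2 hX.1).1, hX.2⟩
      have h3 : (n : ℝ) ^ (1 - ε / 8) = (n : ℝ) ^ (1 - ε / 4) * (n : ℝ) ^ (ε / 8) := by
        rw [← Real.rpow_add hn0]
        congr 1
        ring
      have h4 := g1.trans h1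
      rw [h3, ← mul_assoc] at h4
      have h5 : (n : ℝ) ^ (1 - ε / 4) ≤ ((S n).image N2).card * (2 * (C1 * 2 ^ (ε / 8) + 1)) :=
        le_of_mul_le_mul_right h4 (by positivity)
      rw [hc2, one_div, inv_mul_le_iff₀ (by positivity)]
      linarith) (by
      filter_upwards [eventually_ge_atTop ((N₀ + 16) ^ 2 + n1), log_pow_upper, rough_fun C c hc,
        ((Real.tendsto_log_atTop.comp tendsto_natCast_atTop_atTop).eventually_ge_atTop (1 : ℝ))] with n hn hup hrf hlog1 hodd N hN'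
      simp only [Function.comp_apply] at hlog1
      have h256 : 16 ^ 2 ≤ (N₀ + 16) ^ 2 := Nat.pow_le_pow_left (by omega) 2
      obtain ⟨g1, g2⟩ := hS n (by omega) hodd
      rw [mem_image] at hN'
      obtain ⟨⟨x, y, z, w⟩, hX, rfl⟩ := hN'
      obtain ⟨k1, k2⟩ := g2 x y z w hX
      have hn0 : (0 : ℝ) < n := by
        have : 0 < n := by omega
        exact_mod_cast this
      have k3 : N2 (x, y, z, w) = 2 ^ (x + y) + 2 ^ (z + w) + 1 := rfl
      rw [prod_singleton, k3]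
      have k4 := hup (x + y) (z + w) (N2_upper k1)
        (N2_upper (x := z) (y := w) (z := x) (w := y) (by rw [k1]; ring))
      have k5 : N₀ + 16 ≤ 2 ^ (x + y) + 2 ^ (z + w) + 1 := by
        refine le_trans ?_ (N2_large k1)
        rw [Nat.le_sqrt']
        omega
      obtain ⟨N, hNd⟩ : ∃ N : ℕ, N = 2 ^ (x + y) + 2 ^ (z + w) + 1 := ⟨_, rfl⟩
      rw [← hNd] at k4 k5 k2 ⊢
      have hNr : (16 : ℝ) ≤ N := by exact_mod_cast (show 16 ≤ N by omega)
      have hlogN : (1 : ℝ) ≤ Real.log N := by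
        rw [Real.le_log_iff_exp_le (by linarith)]
        linarith [Real.exp_one_lt_d9]
      have h16 : (16 : ℝ) ≤ n := by
        have : 16 ≤ n := by omega
        exact_mod_cast this
      have k6 : Real.log (Real.log N) ≤ Real.log n := by
        have h2 : Real.log N ≤ n := k4.trans (two_sqrt_le h16)
        exact Real.log_le_log (by linarith) h2
      have k7 : (Real.log N) ^ (-β) ≤ μ.real {ω | N ∈ A ω} := by
        refine hN N (by omega) (fun q hq hqN => ?_)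
        have h7 : 0 ≤ Real.log (Real.log (N : ℝ)) := Real.log_nonneg hlogN
        rcases le_or_gt C 0 with h8 | h8
        · have h9 : C * Real.log (Real.log (N : ℝ)) ≤ 0 := mul_nonpos_of_nonpos_of_nonneg h8 h7
          have h10 : (0 : ℝ) < q := by exact_mod_cast hq.pos
          linarith
        · refine lt_of_le_of_lt ?_ (k2 q hq hqN)
          calc C * Real.log (Real.log N) ≤ C * Real.log n := mul_le_mul_of_nonneg_left k6 h8.le
            _ ≤ (c * (Real.log (Real.log n) / Real.log (Real.log (Real.log n)))) * Real.log n :=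
              mul_le_mul_of_nonneg_right hrf (by linarith)
            _ = _ := by ring
      refine le_trans ?_ k7
      calc (2 : ℝ) ^ (-β) * (n : ℝ) ^ (-(β / 2)) = (2 * Real.sqrt n) ^ (-β) := by
            rw [Real.mul_rpow (by norm_num) (Real.sqrt_nonneg _), Real.sqrt_eq_rpow, ← Real.rpow_mul hn0.le]
            congr 2
            ring
        _ ≤ _ := Real.rpow_le_rpow_of_nonpos (by linarith) k4 (by linarith))
  filter_upwards [h] with ω h1
  filter_upwards [h1, eventually_ge_atTop n1] with n h2 hn hodd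
  obtain ⟨J, hJ1, hJ2, hJ3⟩ := h2 hodd
  refine ⟨J, ?_, fun N hN => ?_⟩
  · convert hJ2 using 2
    ring
  · have h3 := hJ1 hN
    rw [mem_image] at h3
    obtain ⟨⟨x, y, z, w⟩, hX, hXN⟩ := h3
    exact ⟨hJ3 N hN N (by simp), x, y, z, w, ((hS n hn hodd).2 x y z w hX).1, hXN.symm⟩

end Pool.Agent.Q197.FM
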