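import Pool.Agent.Q197.FM.Quad1
import Pool.Agent.Y879.PR.Win

/-!
# Many places with a rough pattern
-/

set_option autoImplicit false
set_option linter.unusedSectionVars false

namespace Pool.Agent.Q197.FM

open Finset Filter Pool.Agent.Y879.PR
open scoped Topology

theorem bern {x : ℝ} {k : ℕ} (hx0 : 0 ≤ x) (hx1 : x < 1) (hk : k * x ≤ 1 / 2) : (1 - x) ^ (2 * k) ≤ 1 - k * x := by
  have h1 : 1 + (2 * k : ℕ) * x ≤ (1 + x) ^ (2 * k) := one_add_mul_le_pow (by linarith) _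
  have h2 : (1 - x) ^ (2 * k) * (1 + x) ^ (2 * k) ≤ 1 := by
    rw [← mul_pow]
    refine pow_le_one₀ ?_ ?_ <;> nlinarith
  have h3 : 0 ≤ (1 - x) ^ (2 * k) := pow_nonneg (by linarith) _
  have h4 : 0 ≤ (k : ℝ) * x := by positivity
  push_cast at h1
  have h5 : (1 - x) ^ (2 * k) * (1 + 2 * k * x) ≤ 1 := (mul_le_mul_of_nonneg_left h1 h3).trans h2
  have h6 : 1 ≤ (1 - k * x) * (1 + 2 * k * x) := by nlinarith
  have h7 : 0 < 1 + 2 * (k : ℝ) * x := by linarith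
  exact le_of_mul_le_mul_right (h5.trans h6) h7

theorem PW_ge {k y N r : ℕ} (hk : 2 * k ≤ y) (hN : 1 ≤ N) (hr : 1 ≤ r) :
    (N : ℝ) ^ (-(2 * k / (r : ℝ))) ≤ PW (primorial y) k N r := by
  classical
  obtain ⟨z, hz⟩ : ∃ z : ℕ, z = ⌊(N : ℝ) ^ (1 / (r : ℝ))⌋₊ := ⟨_, rfl⟩
  have hn1 : (1 : ℝ) ≤ N := by exact_mod_cast hN
  have hr1 : (1 : ℝ) ≤ r := by exact_mod_cast hr
  have h1 : (1 : ℝ) ≤ (N : ℝ) ^ (1 / (r : ℝ)) := Real.one_le_rpow hn1 (by positivity)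
  have hz1 : 1 ≤ z := by
    rw [hz]
    exact Nat.le_floor (by simpa using h1)
  have hzr : (z : ℝ) ≤ (N : ℝ) ^ (1 / (r : ℝ)) := by
    rw [hz]
    exact Nat.floor_le (by positivity)
  unfold PW
  rw [← hz]
  have hfac : ∀ q : ℕ, q.Prime → (1 - 1 / (q : ℝ)) ^ (2 * k) ≤ (1 - (pnu (primorial y) k q : ℝ) / q) / (1 - 1 / (q : ℝ)) ∧
      0 < 1 - 1 / (q : ℝ) ∧ 1 - 1 / (q : ℝ) ≤ 1 := by
    intro q hq
    have h2 : (2 : ℝ) ≤ q := by exact_mod_cast hq.two_le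
    have hq2 : 1 / (q : ℝ) ≤ 1 / 2 := one_div_le_one_div_of_le (by norm_num) h2
    have hq0 : 0 < 1 / (q : ℝ) := by positivity
    refine ⟨?_, by linarith, by linarith⟩
    have h3 : (1 - 1 / (q : ℝ)) ^ (2 * k) ≤ 1 - (pnu (primorial y) k q : ℝ) / q := by
      unfold pnu
      split_ifs with hd
      · push_cast
        rw [zero_div, sub_zero]
        exact pow_le_one₀ (by linarith) (by linarith)
      · have hqy : y < q := by
          by_contra hcon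
          exact hd (dvd_pri hq (by omega))
        have h4 : (2 * (k : ℝ)) ≤ q := by exact_mod_cast (show 2 * k ≤ q by omega)
        have h5 : (k : ℝ) * (1 / (q : ℝ)) ≤ 1 / 2 := by
          rw [mul_one_div, div_le_div_iff₀ (by linarith) (by norm_num)]
          linarith
        have h6 := bern hq0.le (by linarith) h5
        rwa [mul_one_div] at h6
    refine h3.trans ?_
    rw [le_div_iff₀ (by linarith)]
    have h7 : 0 ≤ 1 - (pnu (primorial y) k q : ℝ) / q := (pow_nonneg (by linarith) _).trans h3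
    nlinarith
  have h2 : ∏ q ∈ (Icc 1 z).filter Nat.Prime, (1 - 1 / (q : ℝ)) ^ (2 * k) ≤
      ∏ q ∈ (Icc 1 z).filter Nat.Prime, (1 - (pnu (primorial y) k q : ℝ) / q) / (1 - 1 / (q : ℝ)) :=
    prod_le_prod (fun q hq => pow_nonneg (hfac q (mem_filter.1 hq).2).2.1.le _) (fun q hq => (hfac q (mem_filter.1 hq).2).1)
  refine le_trans ?_ h2
  have hsub : (Icc 1 z).filter Nat.Prime ⊆ Icc 2 z := by
    intro q hq
    rw [mem_filter, mem_Icc] at hq
    rw [mem_Icc]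
    exact ⟨hq.2.two_le, hq.1.2⟩
  have hk2 : ∀ j : ℕ, 2 ≤ j → 0 ≤ 1 - 1 / (j : ℝ) ∧ 1 - 1 / (j : ℝ) ≤ 1 := by
    intro j hj
    have hk2r : (2 : ℝ) ≤ j := by exact_mod_cast hj
    have h5 : 1 / (j : ℝ) ≤ 1 / 2 := one_div_le_one_div_of_le (by norm_num) hk2r
    have h6 : 0 < 1 / (j : ℝ) := by positivity
    exact ⟨by linarith, by linarith⟩
  have h3 : ∏ j ∈ Icc 2 z, (1 - 1 / (j : ℝ)) ^ (2 * k) ≤ ∏ q ∈ (Icc 1 z).filter Nat.Prime, (1 - 1 / (q : ℝ)) ^ (2 * k) := by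
    rw [← prod_sdiff hsub]
    have h4 : ∏ j ∈ Icc 2 z \ (Icc 1 z).filter Nat.Prime, (1 - 1 / (j : ℝ)) ^ (2 * k) ≤ 1 := by
      refine prod_le_one (fun j hj => ?_) (fun j hj => ?_)
      · exact pow_nonneg (hk2 j (mem_Icc.1 (mem_sdiff.1 hj).1).1).1 _
      · have h := hk2 j (mem_Icc.1 (mem_sdiff.1 hj).1).1
        exact pow_le_one₀ h.1 h.2
    have h5 : 0 ≤ ∏ q ∈ (Icc 1 z).filter Nat.Prime, (1 - 1 / (q : ℝ)) ^ (2 * k) :=
      prod_nonneg (fun q hq => pow_nonneg (hfac q (mem_filter.1 hq).2).2.1.le _)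
    exact mul_le_of_le_one_left h5 h4
  refine le_trans ?_ h3
  rw [prod_pow, tele z hz1]
  have hz0 : (0 : ℝ) < z := by exact_mod_cast hz1
  calc (N : ℝ) ^ (-(2 * k / (r : ℝ))) = ((N : ℝ) ^ (1 / (r : ℝ))) ^ (-(2 * k : ℝ)) := by
        rw [← Real.rpow_mul (by linarith)]
        congr 1
        ring
    _ ≤ (z : ℝ) ^ (-(2 * k : ℝ)) := Real.rpow_le_rpow_of_nonpos hz0 hzr (by
      have : (0 : ℝ) ≤ k := Nat.cast_nonneg _
      linarith)
    _ = (1 / (z : ℝ)) ^ (2 * k) := by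
      rw [Real.rpow_neg hz0.le, one_div, inv_pow]
      congr 1
      rw [← Real.rpow_natCast]
      congr 1
      push_cast
      ring

/-- Many places `m` for which all `m + h i` are rough, and `m + h i₀` is a prime. -/
theorem pattern_rough {k y : ℕ} {h : Fin k → ℕ} (hk : 2 ≤ k) (hy3 : 3 ≤ y) (hinj : Function.Injective h)
    (hy : ∀ i, h i < y) (h0 : ∃ i, h i = 0) (hadm : ∀ q : ℕ, q.Prime → ∃ a : ℕ, ∀ i, ¬ q ∣ a + h i) (i : Fin k)
    (ε : ℝ) (hε : 0 < ε) : ∃ r₀ : ℕ, 2 ≤ r₀ ∧ ∀ r : ℕ, r₀ ≤ r → ∃ N₀ : ℕ, ∀ N : ℕ, N₀ ≤ N →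
      ∃ P : Finset ℕ, (N : ℝ) ^ (1 - ε) ≤ P.card ∧ (∀ m ∈ P, ∀ m' ∈ P, m % y = m' % y) ∧
        ∀ m ∈ P, N ≤ 2 * m ∧ m ≤ N ∧ (m + h i).Prime ∧
          ∀ p : ℕ, p.Prime → (p : ℝ) ≤ (N : ℝ) ^ (1 / (r : ℝ)) → ∀ j, ¬ p ∣ m + h j := by
  classical
  have hP : Pat2 (primorial (2 * y)) h (Cl (2 * y) h) := pat_adm hk (by omega) hinj (fun i => by have := hy i; omega) h0
  have hC : (Cl (2 * y) h).Nonempty := cl_ne hadm
  obtain ⟨r1, hr1, hr⟩ := pat_main hP hC 1 (1 / 2) one_pos (by norm_num) (by norm_num) 0 (1 / 2) (by norm_num) (by norm_num)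
  have hky : k ≤ y := by
    have h1 := Finset.card_le_card_of_injOn (s := (univ : Finset (Fin k))) (t := range y) h
      (fun i _ => Finset.mem_coe.2 (mem_range.2 (hy i))) hinj.injOn
    simpa using h1
  obtain ⟨r2, hr2⟩ := exists_nat_ge (4 * k / ε)
  refine ⟨max r1 r2, hr1.trans (le_max_left _ _), fun r hrr => ?_⟩
  obtain ⟨N1, hN1⟩ := hr r ((le_max_left _ _).trans hrr)
  obtain ⟨M, hM⟩ : ∃ M : ℕ, M = primorial (2 * y) := ⟨_, rfl⟩
  have hMpos : 0 < M := by rw [hM]; exact primorial_pos _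
  have hMr : (0 : ℝ) < M := by exact_mod_cast hMpos
  have hyr : (0 : ℝ) < y := by exact_mod_cast (show 0 < y by omega)
  obtain ⟨N2, hN2⟩ := eventually_atTop.1 (log_small (y * (4 * M)) 1 (ε / 2) (by linarith) one_pos)
  refine ⟨N1 + N2 + 2, fun N hN => ?_⟩
  obtain ⟨_, _, hPW, _, _, hmain⟩ := hN1 N (by omega)
  have hN0 : (0 : ℝ) < N := by exact_mod_cast (show 0 < N by omega)
  obtain ⟨hcount, _⟩ := hmain i N (by rw [Real.rpow_one]) (N / 2) (N - N / 2) (by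
    have : N ≤ 2 * (N - N / 2) := by omega
    have : (N : ℝ) ≤ 2 * ((N - N / 2 : ℕ) : ℝ) := by exact_mod_cast this
    linarith) (by omega)
  have hc1 : (1 : ℝ) ≤ (Cl (2 * y) h).card := by exact_mod_cast card_pos.2 hC
  have hL : (N : ℝ) / 2 ≤ ((N - N / 2 : ℕ) : ℝ) := by
    have : N ≤ 2 * (N - N / 2) := by omega
    have : (N : ℝ) ≤ 2 * ((N - N / 2 : ℕ) : ℝ) := by exact_mod_cast this
    linarith
  rw [← hM] at hcount hPW
  have hlogN : 0 < Real.log N := Real.log_pos (by exact_mod_cast (show 1 < N by omega))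
  have hPWge : (N : ℝ) ^ (-(2 * k / (r : ℝ))) ≤ PW M k N r := by
    rw [hM]
    have h2r : 2 ≤ r := hr1.trans ((le_max_left _ _).trans hrr)
    exact PW_ge (by omega) (by omega) (by omega)
  have hexp : (N : ℝ) ^ (-(ε / 2)) ≤ PW M k N r := by
    refine le_trans ?_ hPWge
    refine Real.rpow_le_rpow_of_exponent_le (by exact_mod_cast (show 1 ≤ N by omega)) ?_
    have hrpos : (0 : ℝ) < r := by
      have : 2 ≤ r := hr1.trans ((le_max_left _ _).trans hrr)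
      exact_mod_cast (show 0 < r by omega)
    have h1 : 4 * k / ε ≤ r := hr2.trans (by exact_mod_cast (le_max_right _ _).trans hrr)
    rw [div_le_iff₀ hε] at h1
    rw [neg_le_neg_iff, div_le_div_iff₀ hrpos (by norm_num)]
    linarith
  have hcard : (N : ℝ) / (4 * M) * (N : ℝ) ^ (-(ε / 2)) ≤ ((PP h N r i (N / 2) (N - N / 2)).card : ℝ) * Real.log N := by
    have h1 := (abs_le.1 hcount).1
    have h2 : (N : ℝ) / (2 * M) * (N : ℝ) ^ (-(ε / 2)) ≤
        (Cl (2 * y) h).card * (((N - N / 2 : ℕ) : ℝ) / M * PW M k N r) := by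
      have h3 : (N : ℝ) / (2 * M) ≤ ((N - N / 2 : ℕ) : ℝ) / M := by
        rw [div_le_div_iff₀ (by positivity) hMr]
        nlinarith
      have h4 : (N : ℝ) / (2 * M) * (N : ℝ) ^ (-(ε / 2)) ≤ ((N - N / 2 : ℕ) : ℝ) / M * PW M k N r :=
        mul_le_mul h3 hexp (by positivity) (by positivity)
      have h5 : 0 ≤ ((N - N / 2 : ℕ) : ℝ) / M * PW M k N r := by positivity
      nlinarith
    have h6 : (N : ℝ) / (4 * M) * (N : ℝ) ^ (-(ε / 2)) = (N : ℝ) / (2 * M) * (N : ℝ) ^ (-(ε / 2)) / 2 := by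
      field_simp
      ring
    rw [h6]
    linarith
  obtain ⟨Q, hQ1, hQ2, hQ3⟩ := class_mod y (by omega) (PP h N r i (N / 2) (N - N / 2))
  refine ⟨Q, ?_, hQ3, fun m hm => ?_⟩
  · have h1 : ((PP h N r i (N / 2) (N - N / 2)).card : ℝ) ≤ y * Q.card := by exact_mod_cast hQ2
    have h2 := hN2 N (by omega)
    have h3 : (N : ℝ) / (4 * M) * (N : ℝ) ^ (-(ε / 2)) ≤ (y * Q.card) * Real.log N :=
      hcard.trans (mul_le_mul_of_nonneg_right h1 hlogN.le)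
    have h4 : (N : ℝ) ^ (1 - ε) * (N : ℝ) ^ (ε / 2) = N * (N : ℝ) ^ (-(ε / 2)) := by
      nth_rw 3 [← Real.rpow_one (N : ℝ)]
      rw [← Real.rpow_add hN0, ← Real.rpow_add hN0]
      congr 1
      ring
    have h5 : N * (N : ℝ) ^ (-(ε / 2)) ≤ (4 * M) * ((y * Q.card) * Real.log N) := by
      rw [div_mul_eq_mul_div, div_le_iff₀ (by positivity)] at h3
      linarith
    have h6 : (4 * M) * ((y * Q.card) * Real.log N) ≤ Q.card * (N : ℝ) ^ (ε / 2) := by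
      have h7 : y * (4 * M) * Real.log N ≤ (N : ℝ) ^ (ε / 2) := by
        have h8 : 0 ≤ (y : ℝ) * (4 * M) := by positivity
        linarith
      have h9 := mul_le_mul_of_nonneg_left h7 (Nat.cast_nonneg (α := ℝ) Q.card)
      linarith
    have h7 : (N : ℝ) ^ (1 - ε) * (N : ℝ) ^ (ε / 2) ≤ Q.card * (N : ℝ) ^ (ε / 2) := by
      rw [h4]
      exact h5.trans h6
    exact le_of_mul_le_mul_right h7 (by positivity)
  · have h1 := hQ1 hm
    unfold PP at h1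
    rw [mem_filter, mem_Ioc] at h1
    exact ⟨by omega, by omega, h1.2.1, h1.2.2⟩

end Pool.Agent.Q197.FM
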