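import Pool.Agent.Q197.FM.Win1

/-!
# Patterns in random sets and among rough numbers
-/

set_option autoImplicit false
set_option linter.unusedSectionVars false

namespace Pool.Agent.Q197.FM

open Finset Filter MeasureTheory ProbabilityTheory Pool.Agent.Y879.PR
open scoped Topology

theorem two_mul_rpow_le {N : ℕ} {a : ℕ} {r : ℕ} (hN : 2 ≤ N) (hr : 1 ≤ r) (ha : a ≤ 2 * N) :
    (a : ℝ) ^ (1 / (2 * r : ℝ)) ≤ (N : ℝ) ^ (1 / (r : ℝ)) := by
  have h1 : (a : ℝ) ≤ (N : ℝ) ^ (2 : ℝ) := by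
    rw [Real.rpow_two]
    have : a ≤ N ^ 2 := by nlinarith
    exact_mod_cast this
  have hr0 : (0 : ℝ) < r := by exact_mod_cast hr
  calc (a : ℝ) ^ (1 / (2 * r : ℝ)) ≤ ((N : ℝ) ^ (2 : ℝ)) ^ (1 / (2 * r : ℝ)) :=
        Real.rpow_le_rpow (Nat.cast_nonneg _) h1 (by positivity)
    _ = (N : ℝ) ^ (1 / (r : ℝ)) := by
      rw [← Real.rpow_mul (Nat.cast_nonneg _)]
      congr 1
      field_simp

variable {Ω : Type*} [MeasurableSpace Ω] {μ : Measure Ω} [IsProbabilityMeasure μ] {A : Ω → Set ℕ}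

theorem pattern_random (hA : IndepElems μ A) {z : ℕ → ℝ}
    (hz : ∀ ε : ℝ, 0 < ε → ∀ᶠ n : ℕ in atTop, z n ≤ (n : ℝ) ^ ε)
    (hP : ∀ ε : ℝ, 0 < ε → ∀ᶠ n : ℕ in atTop, (∀ q : ℕ, q.Prime → q ∣ n → z n < q) →
      (n : ℝ) ^ (-ε) ≤ μ.real {ω | n ∈ A ω})
    {k y : ℕ} {h : Fin k → ℕ} (hk : 2 ≤ k) (hy3 : 3 ≤ y) (hinj : Function.Injective h)
    (hy : ∀ i, h i < y) (h0 : ∃ i, h i = 0) (hadm : ∀ q : ℕ, q.Prime → ∃ a : ℕ, ∀ i, ¬ q ∣ a + h i)
    (ε : ℝ) (hε : 0 < ε) (hε1 : ε ≤ 1) :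
    ∀ᵐ ω ∂μ, ∀ᶠ N : ℕ in atTop, ∃ P : Finset ℕ, (N : ℝ) ^ (1 - ε) ≤ P.card ∧
      ∀ m ∈ P, N ≤ 2 * m ∧ m ≤ N ∧ ∀ j, m + h j ∈ A ω := by
  classical
  obtain ⟨i0, hi0⟩ := id h0
  obtain ⟨r, hr2, hr⟩ := pattern_rough hk hy3 hinj hy h0 hadm i0 (ε / 2) (by linarith)
  obtain ⟨N₀, hN₀⟩ := hr r le_rfl
  have hP' : ∀ N : ℕ, ∃ P : Finset ℕ, N₀ ≤ N → (N : ℝ) ^ (1 - ε / 2) ≤ P.card ∧ (∀ m ∈ P, ∀ m' ∈ P, m % y = m' % y) ∧
        ∀ m ∈ P, N ≤ 2 * m ∧ m ≤ N ∧ (m + h i0).Prime ∧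
          ∀ p : ℕ, p.Prime → (p : ℝ) ≤ (N : ℝ) ^ (1 / (r : ℝ)) → ∀ j, ¬ p ∣ m + h j := by
    intro N
    by_cases hN : N₀ ≤ N
    · obtain ⟨P, hP⟩ := hN₀ N hN
      exact ⟨P, fun _ => hP⟩
    · exact ⟨∅, fun h => absurd h hN⟩
  choose P hPP using hP'
  have hkr : (0 : ℝ) < k := by exact_mod_cast (show 0 < k by omega)
  have hrr : (0 : ℝ) < r := by exact_mod_cast (show 0 < r by omega)
  obtain ⟨n1, hn1⟩ := eventually_atTop.1 (hz (1 / (2 * r : ℝ)) (by positivity))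
  obtain ⟨n2, hn2⟩ := eventually_atTop.1 (hP (ε / (4 * k)) (by positivity))
  have hmain := hA.many_pow (fun _ => True) P (fun _ m => univ.image (fun j => m + h j)) (s := 1 - ε / 2) (t := ε / 4)
    (ε := ε / 4) (κ := (2 : ℝ) ^ (-(ε / 4))) (c := 1) (by
      filter_upwards [eventually_ge_atTop N₀] with N hN _ m hm m' hm' hne
      obtain ⟨_, g2, _⟩ := hPP N hN
      rw [disjoint_left]
      intro a ha hb
      rw [mem_image] at ha hb
      obtain ⟨i, _, hi⟩ := ha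
      obtain ⟨j, _, hj⟩ := hb
      exact hne (mod_ne (g2 m hm m' hm') (hy i) (hy j) (hi.trans hj.symm))) (by linarith) (by linarith) (by linarith)
      (by linarith) (by positivity) one_pos (by
      filter_upwards [eventually_ge_atTop N₀] with N hN _
      rw [one_mul]
      exact (hPP N hN).1) (by
      filter_upwards [eventually_ge_atTop (N₀ + 2 * n1 + 2 * n2 + 2 * y + 2)] with N hN _ m hm
      obtain ⟨_, _, g3⟩ := hPP N (by omega)
      obtain ⟨g4, g5, _, g6⟩ := g3 m hm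
      have hN0 : (0 : ℝ) < N := by exact_mod_cast (show 0 < N by omega)
      rw [prod_image (fun i _ j _ hij => hinj (by simpa using hij))]
      have hone : ∀ j : Fin k, (2 * (N : ℝ)) ^ (-(ε / (4 * k))) ≤ μ.real {ω | m + h j ∈ A ω} := by
        intro j
        have hyj := hy j
        have ha1 : m + h j ≤ 2 * N := by omega
        have h1 : ((m + h j : ℕ) : ℝ) ^ (-(ε / (4 * k))) ≤ μ.real {ω | m + h j ∈ A ω} := by
          refine hn2 (m + h j) (by omega) (fun q hq hqd => ?_)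
          by_contra hcon
          push Not at hcon
          have h2 := hn1 (m + h j) (by omega)
          have h3 := two_mul_rpow_le (N := N) (a := m + h j) (r := r) (by omega) (by omega) ha1
          exact g6 q hq (hcon.trans (h2.trans h3)) j hqd
        refine le_trans ?_ h1
        refine Real.rpow_le_rpow_of_nonpos ?_ ?_ ?_
        · exact_mod_cast (show 0 < m + h j by omega)
        · exact_mod_cast ha1
        · have : 0 < ε / (4 * k) := by positivity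
          linarith
      calc (2 : ℝ) ^ (-(ε / 4)) * (N : ℝ) ^ (-(ε / 4)) = ∏ _j : Fin k, (2 * (N : ℝ)) ^ (-(ε / (4 * k))) := by
            rw [prod_const, card_univ, Fintype.card_fin, ← Real.mul_rpow (by norm_num) hN0.le, ← Real.rpow_natCast,
              ← Real.rpow_mul (by positivity)]
            congr 1
            field_simp
        _ ≤ _ := prod_le_prod (fun _ _ => by positivity) (fun j _ => hone j))
  filter_upwards [hmain] with ω h1
  filter_upwards [h1, eventually_ge_atTop N₀] with N h2 hN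
  obtain ⟨J, hJ1, hJ2, hJ3⟩ := h2 trivial
  refine ⟨J, ?_, fun m hm => ?_⟩
  · convert hJ2 using 2
    ring
  · obtain ⟨_, _, g3⟩ := hPP N hN
    obtain ⟨g4, g5, _, _⟩ := g3 m (hJ1 hm)
    exact ⟨g4, g5, fun j => hJ3 m hm _ (mem_image_of_mem _ (mem_univ j))⟩

/-- All admissible patterns at once. -/
theorem all_patterns (hA : IndepElems μ A) {z : ℕ → ℝ}
    (hz : ∀ ε : ℝ, 0 < ε → ∀ᶠ n : ℕ in atTop, z n ≤ (n : ℝ) ^ ε)
    (hP : ∀ ε : ℝ, 0 < ε → ∀ᶠ n : ℕ in atTop, (∀ q : ℕ, q.Prime → q ∣ n → z n < q) →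
      (n : ℝ) ^ (-ε) ≤ μ.real {ω | n ∈ A ω}) :
    ∀ᵐ ω ∂μ, ∀ S : Finset ℕ, Adm S → 0 ∈ S → 2 ≤ S.card → ∀ ε : ℝ, 0 < ε → ∀ᶠ N : ℕ in atTop,
      ∃ P : Finset ℕ, (N : ℝ) ^ (1 - ε) ≤ P.card ∧ ∀ m ∈ P, N ≤ 2 * m ∧ m ≤ N ∧ ∀ s ∈ S, m + s ∈ A ω := by
  have h : ∀ (S : Finset ℕ) (j : ℕ), ∀ᵐ ω ∂μ, Adm S → 0 ∈ S → 2 ≤ S.card → ∀ᶠ N : ℕ in atTop,
      ∃ P : Finset ℕ, (N : ℝ) ^ (1 - 1 / ((j : ℝ) + 1)) ≤ P.card ∧ ∀ m ∈ P, N ≤ 2 * m ∧ m ≤ N ∧ ∀ s ∈ S, m + s ∈ A ω := by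
    intro S j
    by_cases hS : Adm S ∧ 0 ∈ S ∧ 2 ≤ S.card
    · obtain ⟨hS1, hS2, hS3⟩ := hS
      obtain ⟨e, he⟩ : ∃ e : Fin S.card ↪o ℕ, e = S.orderEmbOfFin rfl := ⟨_, rfl⟩
      have hmem : ∀ i, e i ∈ S := fun i => by rw [he]; exact S.orderEmbOfFin_mem rfl i
      have hsurj : ∀ s ∈ S, ∃ i, e i = s := by
        intro s hs
        have : s ∈ Set.range (S.orderEmbOfFin rfl) := by
          rw [Finset.range_orderEmbOfFin]
          exact hs
        rw [he]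
        exact this
      have h1 := pattern_random hA hz hP (k := S.card) (y := S.sup id + 3) (h := fun i => e i) hS3 (by omega)
        e.injective (fun i => by
          have : e i ≤ S.sup id := Finset.le_sup (f := id) (hmem i)
          omega) (hsurj 0 hS2) (fun q hq => by
          obtain ⟨a, ha⟩ := hS1 q hq
          exact ⟨a, fun i => ha _ (hmem i)⟩) (1 / ((j : ℝ) + 1)) (by positivity) (by
          rw [div_le_one (by positivity)]
          have : (0 : ℝ) ≤ j := Nat.cast_nonneg _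
          linarith)
      filter_upwards [h1] with ω h2 _ _ _
      filter_upwards [h2] with N hN
      obtain ⟨P, hP1, hP2⟩ := hN
      refine ⟨P, hP1, fun m hm => ?_⟩
      obtain ⟨g1, g2, g3⟩ := hP2 m hm
      refine ⟨g1, g2, fun s hs => ?_⟩
      obtain ⟨i, hi⟩ := hsurj s hs
      rw [← hi]
      exact g3 i
    · exact ae_of_all _ (fun ω a b c => absurd ⟨a, b, c⟩ hS)
  have h2 := ae_all_iff.2 (fun S => ae_all_iff.2 (fun j => h S j))
  filter_upwards [h2] with ω h3 S hS1 hS2 hS3 ε hε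
  obtain ⟨j, hj⟩ := exists_nat_one_div_lt hε
  filter_upwards [h3 S j hS1 hS2 hS3, eventually_ge_atTop 1] with N hN hN1
  obtain ⟨P, hP1, hP2⟩ := hN
  refine ⟨P, le_trans ?_ hP1, hP2⟩
  exact Real.rpow_le_rpow_of_exponent_le (by exact_mod_cast hN1) (by linarith)

/-- A maximal admissible set that contains `0`. -/
theorem exists_max {y : ℕ} (hy : 3 ≤ y) : ∃ S : Finset ℕ, S ⊆ range y ∧ Adm S ∧ 0 ∈ S ∧ 2 ≤ S.card ∧ S.card = Rh y := by
  classical
  have h2 : 2 ≤ Rh y := by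
    have h1 : ({0, 2} : Finset ℕ).card ≤ Rh y := by
      refine adm_le (fun a ha => ?_) (fun q hq => ?_)
      · rw [mem_insert, mem_singleton] at ha
        rw [mem_range]
        omega
      · rcases Nat.lt_or_ge 2 q with h3 | h3
        · exact free_class q _ (by simpa using h3)
        · have hq2 : q = 2 := le_antisymm h3 hq.two_le
          subst hq2
          refine ⟨1, fun s hs => ?_⟩
          rw [mem_insert, mem_singleton] at hs
          rcases hs with rfl | rfl <;> decide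
    simpa using h1
  have hne : ((range y).powerset.filter Adm).Nonempty := by
    refine ⟨∅, mem_filter.2 ⟨by simp, fun q _ => ⟨0, by simp⟩⟩⟩
  obtain ⟨S, hS, hSm⟩ := exists_mem_eq_sup _ hne Finset.card
  rw [mem_filter, mem_powerset] at hS
  have hcard : S.card = Rh y := by
    unfold Rh
    convert hSm.symm using 2
  have hSne : S.Nonempty := card_pos.1 (by omega)
  obtain ⟨a, ha⟩ : ∃ a, a = S.min' hSne := ⟨_, rfl⟩
  have hmin : ∀ s ∈ S, a ≤ s := fun s hs => ha ▸ S.min'_le s hs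
  refine ⟨S.image (fun s => s - a), ?_, ?_, ?_, ?_, ?_⟩
  · intro b hb
    obtain ⟨s, hs, rfl⟩ := mem_image.1 hb
    have := mem_range.1 (hS.1 hs)
    rw [mem_range]
    omega
  · intro q hq
    obtain ⟨b, hb⟩ := hS.2 q hq
    refine ⟨b + a, fun c hc => ?_⟩
    obtain ⟨s, hs, rfl⟩ := mem_image.1 hc
    have := hmin s hs
    rw [show b + a + (s - a) = b + s by omega]
    exact hb s hs
  · exact mem_image.2 ⟨a, ha ▸ S.min'_mem hSne, by omega⟩
  · rw [card_image_of_injOn (fun s hs t ht hst => by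
      have := hmin s hs
      have := hmin t ht
      omega)]
    omega
  · rw [card_image_of_injOn (fun s hs t ht hst => by
      have := hmin s hs
      have := hmin t ht
      omega)]
    exact hcard

end Pool.Agent.Q197.FM
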