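import Pool.Agent.Q197.FM.Win2

/-!
# The function `ρ` of a set of integers
-/

set_option autoImplicit false
set_option linter.unusedSectionVars false

namespace Pool.Agent.Q197.FM

open Finset Filter MeasureTheory ProbabilityTheory Pool.Agent.Y879.PR
open scoped Topology

/-- The largest number of elements of `B` in infinitely many intervals `(x, x + y]`. -/
noncomputable def rho (B : Set ℕ) (y : ℕ) : ℕ := limsup (fun x : ℕ => (B ∩ Set.Ioc x (x + y)).ncard) atTop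

theorem ncard_win_le (B : Set ℕ) (x y : ℕ) : (B ∩ Set.Ioc x (x + y)).ncard ≤ y := by
  calc (B ∩ Set.Ioc x (x + y)).ncard ≤ (Set.Ioc x (x + y)).ncard :=
        Set.ncard_le_ncard Set.inter_subset_right (Set.finite_Ioc _ _)
    _ = y := by
      rw [← coe_Ioc, Set.ncard_coe_finset, Nat.card_Ioc]
      omega

theorem rho_ge {B : Set ℕ} {y R : ℕ} (h : ∃ᶠ x : ℕ in atTop, R ≤ (B ∩ Set.Ioc x (x + y)).ncard) : R ≤ rho B y := by
  refine le_limsup_of_frequently_le h ?_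
  exact isBoundedUnder_of ⟨y, fun x => ncard_win_le B x y⟩

theorem rho_le {B : Set ℕ} {y R : ℕ} (h : ∀ᶠ x : ℕ in atTop, (B ∩ Set.Ioc x (x + y)).ncard ≤ R) : rho B y ≤ R := by
  refine limsup_le_of_le ?_ h
  exact ⟨0, fun a _ => Nat.zero_le a⟩

theorem window_ge {B : Set ℕ} {y m : ℕ} {S : Finset ℕ} (hS : S ⊆ range y) (hm : 1 ≤ m) (h : ∀ s ∈ S, m + s ∈ B) :
    S.card ≤ (B ∩ Set.Ioc (m - 1) (m - 1 + y)).ncard := by
  classical
  have h1 : ((S.image (fun s => m + s) : Finset ℕ) : Set ℕ) ⊆ B ∩ Set.Ioc (m - 1) (m - 1 + y) := by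
    intro a ha
    rw [mem_coe, mem_image] at ha
    obtain ⟨s, hs, rfl⟩ := ha
    have := mem_range.1 (hS hs)
    exact ⟨h s hs, by rw [Set.mem_Ioc]; omega⟩
  have h2 := Set.ncard_le_ncard h1 ((Set.finite_Ioc _ _).subset Set.inter_subset_right)
  rw [Set.ncard_coe_finset, card_image_of_injective _ (fun a b hab => by
    omega)] at h2
  exact h2

theorem window_le {B : Set ℕ} {y : ℕ} (h : ∀ᶠ n : ℕ in atTop, n ∈ B → ∀ q : ℕ, q.Prime → q ≤ y → ¬ q ∣ n) :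
    ∀ᶠ x : ℕ in atTop, (B ∩ Set.Ioc x (x + y)).ncard ≤ Rh y := by
  classical
  obtain ⟨n0, hn0⟩ := eventually_atTop.1 h
  filter_upwards [eventually_ge_atTop n0] with x hx
  have h1 := win_le y (x + 1) (y : ℝ) le_rfl
  refine le_trans ?_ h1
  rw [← Set.ncard_coe_finset]
  refine Set.ncard_le_ncard (fun n hn => ?_) (Finset.finite_toSet _)
  obtain ⟨hn1, hn2⟩ := hn
  rw [Set.mem_Ioc] at hn2
  rw [mem_coe, mem_filter, mem_Ico]
  refine ⟨⟨by omega, by omega⟩, fun p hp hpy => ?_⟩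
  exact hn0 n (by omega) hn1 p hp (by exact_mod_cast hpy)

/-- The numbers `n` all of whose prime factors are larger than `n ^ δ`. -/
def Rough (δ : ℝ) : Set ℕ := {n | ∀ q : ℕ, q.Prime → q ∣ n → (n : ℝ) ^ δ < q}

theorem rough_upper {δ : ℝ} (hδ : 0 < δ) (y : ℕ) : ∀ᶠ n : ℕ in atTop, n ∈ Rough δ → ∀ q : ℕ, q.Prime → q ≤ y → ¬ q ∣ n := by
  have h1 : Tendsto (fun n : ℕ => (n : ℝ) ^ δ) atTop atTop := (tendsto_rpow_atTop hδ).comp tendsto_natCast_atTop_atTop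
  filter_upwards [h1.eventually_ge_atTop (y : ℝ)] with n hn hr q hq hqy hqn
  have h2 := hr q hq hqn
  have h3 : (q : ℝ) ≤ y := by exact_mod_cast hqy
  linarith

/-- Windows with the maximal number of rough numbers, one of them a prime. -/
theorem rough_lower {y : ℕ} (hy : 3 ≤ y) (ε : ℝ) (hε : 0 < ε) : ∃ δ₀ : ℝ, 0 < δ₀ ∧ ∀ δ : ℝ, δ ≤ δ₀ → ∀ᶠ X : ℕ in atTop,
    (X : ℝ) ^ (1 - ε) ≤ ({x : ℕ | x ≤ X ∧ Rh y ≤ (Rough δ ∩ Set.Ioc x (x + y)).ncard ∧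
      ∃ p, p.Prime ∧ x < p ∧ p ≤ x + y} : Set ℕ).ncard := by
  classical
  obtain ⟨S, hS1, hS2, hS3, hS4, hS5⟩ := exists_max hy
  obtain ⟨e, he⟩ : ∃ e : Fin S.card ↪o ℕ, e = S.orderEmbOfFin rfl := ⟨_, rfl⟩
  have hmem : ∀ i, e i ∈ S := fun i => by rw [he]; exact S.orderEmbOfFin_mem rfl i
  have hsurj : ∀ s ∈ S, ∃ i, e i = s := by
    intro s hs
    have : s ∈ Set.range (S.orderEmbOfFin rfl) := by
      rw [Finset.range_orderEmbOfFin]
      exact hs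
    rw [he]
    exact this
  obtain ⟨i0, hi0⟩ := hsurj 0 hS3
  obtain ⟨r, hr2, hr⟩ := pattern_rough (k := S.card) (y := y) (h := fun i => e i) hS4 hy
    e.injective (fun i => mem_range.1 (hS1 (hmem i))) ⟨i0, hi0⟩ (fun q hq => by
      obtain ⟨a, ha⟩ := hS2 q hq
      exact ⟨a, fun i => ha _ (hmem i)⟩) i0 ε hε
  obtain ⟨N₀, hN₀⟩ := hr r le_rfl
  have hrr : (0 : ℝ) < r := by exact_mod_cast (show 0 < r by omega)
  refine ⟨1 / (2 * r : ℝ), by positivity, fun δ hδ => ?_⟩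
  filter_upwards [eventually_ge_atTop (N₀ + y + 2)] with X hX
  obtain ⟨P, hP1, _, hP3⟩ := hN₀ X (by omega)
  refine hP1.trans ?_
  have hinj : (P.image (fun m => m - 1)).card = P.card := by
    refine card_image_of_injOn (fun m hm m' hm' hmm => ?_)
    have h1 := (hP3 m hm).1
    have h2 := (hP3 m' hm').1
    omega
  have hfin : ({x : ℕ | x ≤ X ∧ Rh y ≤ (Rough δ ∩ Set.Ioc x (x + y)).ncard ∧
      ∃ p, p.Prime ∧ x < p ∧ p ≤ x + y} : Set ℕ).Finite := (Set.finite_Iic X).subset (fun x hx => hx.1)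
  have h1 : ((P.image (fun m => m - 1) : Finset ℕ) : Set ℕ) ⊆ {x : ℕ | x ≤ X ∧
      Rh y ≤ (Rough δ ∩ Set.Ioc x (x + y)).ncard ∧ ∃ p, p.Prime ∧ x < p ∧ p ≤ x + y} := by
    intro x hx
    rw [mem_coe, mem_image] at hx
    obtain ⟨m, hm, rfl⟩ := hx
    obtain ⟨g1, g2, g3, g4⟩ := hP3 m hm
    rw [hi0, add_zero] at g3
    refine ⟨by omega, ?_, m, g3, by omega, by omega⟩
    rw [← hS5]
    refine window_ge hS1 (by omega) (fun s hs q hq hqd => ?_)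
    obtain ⟨j, hj⟩ := hsurj s hs
    have hsy := mem_range.1 (hS1 hs)
    by_contra hcon
    push Not at hcon
    have h3 := two_mul_rpow_le (N := X) (a := m + s) (r := r) (by omega) (by omega) (by omega)
    have h5 : ((m + s : ℕ) : ℝ) ^ δ ≤ ((m + s : ℕ) : ℝ) ^ (1 / (2 * r : ℝ)) :=
      Real.rpow_le_rpow_of_exponent_le (by exact_mod_cast (show 1 ≤ m + s by omega)) hδ
    have h4 := g4 q hq (hcon.trans (h5.trans h3)) j
    rw [hj] at h4
    exact h4 hqd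
  have h2 := Set.ncard_le_ncard h1 hfin
  rw [Set.ncard_coe_finset, hinj] at h2
  exact_mod_cast h2

theorem freq_of_count {p : ℕ → Prop} {ε : ℝ} (hε : ε < 1)
    (h : ∀ᶠ X : ℕ in atTop, (X : ℝ) ^ (1 - ε) ≤ ({x : ℕ | x ≤ X ∧ p x} : Set ℕ).ncard) : ∃ᶠ x : ℕ in atTop, p x := by
  rw [frequently_atTop]
  intro a
  by_contra hcon
  push Not at hcon
  have h1 : Tendsto (fun X : ℕ => (X : ℝ) ^ (1 - ε)) atTop atTop :=
    (tendsto_rpow_atTop (by linarith)).comp tendsto_natCast_atTop_atTop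
  obtain ⟨X, hX1, hX2⟩ := (h.and (h1.eventually_gt_atTop (a : ℝ))).exists
  have h2 : ({x : ℕ | x ≤ X ∧ p x} : Set ℕ) ⊆ (Set.Iio a) := by
    intro x hx
    rw [Set.mem_Iio]
    by_contra hlt
    exact hcon x (by omega) hx.2
  have h3 := Set.ncard_le_ncard h2 (Set.finite_Iio a)
  have h4 : (Set.Iio a).ncard = a := by
    rw [← Finset.coe_range, Set.ncard_coe_finset, card_range]
  rw [h4] at h3
  have h5 : ((({x : ℕ | x ≤ X ∧ p x} : Set ℕ).ncard : ℕ) : ℝ) ≤ a := by exact_mod_cast h3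
  linarith

/-- The function `ρ` of the rough numbers. -/
theorem rho_rough {y : ℕ} (hy : 3 ≤ y) : ∃ δ₀ : ℝ, 0 < δ₀ ∧ ∀ δ : ℝ, 0 < δ → δ ≤ δ₀ → rho (Rough δ) y = Rh y := by
  obtain ⟨δ₀, hδ₀, h⟩ := rough_lower hy (1 / 2) (by norm_num)
  refine ⟨δ₀, hδ₀, fun δ hδ hδδ => le_antisymm (rho_le (window_le (rough_upper hδ y))) (rho_ge ?_)⟩
  have h1 := freq_of_count (ε := 1 / 2) (by norm_num) (h δ hδδ)
  exact h1.mono (fun x hx => hx.1)

variable {Ω : Type*} [MeasurableSpace Ω] {μ : Measure Ω} [IsProbabilityMeasure μ] {A : Ω → Set ℕ}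

/-- Windows in random sets. -/
theorem random_windows (hA : IndepElems μ A) {z : ℕ → ℝ}
    (hz : ∀ ε : ℝ, 0 < ε → ∀ᶠ n : ℕ in atTop, z n ≤ (n : ℝ) ^ ε)
    (hP : ∀ ε : ℝ, 0 < ε → ∀ᶠ n : ℕ in atTop, (∀ q : ℕ, q.Prime → q ∣ n → z n < q) →
      (n : ℝ) ^ (-ε) ≤ μ.real {ω | n ∈ A ω}) :
    ∀ᵐ ω ∂μ, ∀ y : ℕ, 3 ≤ y → Rh y ≤ rho (A ω) y ∧ ∀ ε : ℝ, 0 < ε → ∀ᶠ X : ℕ in atTop,
      (X : ℝ) ^ (1 - ε) ≤ ({x : ℕ | x ≤ X ∧ Rh y ≤ (A ω ∩ Set.Ioc x (x + y)).ncard} : Set ℕ).ncard := by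
  classical
  filter_upwards [all_patterns hA hz hP] with ω h y hy
  obtain ⟨S, hS1, hS2, hS3, hS4, hS5⟩ := exists_max hy
  have key : ∀ ε : ℝ, 0 < ε → ∀ᶠ X : ℕ in atTop,
      (X : ℝ) ^ (1 - ε) ≤ ({x : ℕ | x ≤ X ∧ Rh y ≤ (A ω ∩ Set.Ioc x (x + y)).ncard} : Set ℕ).ncard := by
    intro ε hε
    filter_upwards [h S hS2 hS3 hS4 ε hε, eventually_ge_atTop 2] with X hX hX2
    obtain ⟨P, hP1, hP3⟩ := hX
    refine hP1.trans ?_
    have hinj : (P.image (fun m => m - 1)).card = P.card := by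
      refine card_image_of_injOn (fun m hm m' hm' hmm => ?_)
      have h1 := (hP3 m hm).1
      have h2 := (hP3 m' hm').1
      omega
    have hfin : ({x : ℕ | x ≤ X ∧ Rh y ≤ (A ω ∩ Set.Ioc x (x + y)).ncard} : Set ℕ).Finite :=
      (Set.finite_Iic X).subset (fun x hx => hx.1)
    have h1 : ((P.image (fun m => m - 1) : Finset ℕ) : Set ℕ) ⊆ {x : ℕ | x ≤ X ∧
        Rh y ≤ (A ω ∩ Set.Ioc x (x + y)).ncard} := by
      intro x hx
      rw [mem_coe, mem_image] at hx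
      obtain ⟨m, hm, rfl⟩ := hx
      obtain ⟨g1, g2, g3⟩ := hP3 m hm
      refine ⟨by omega, ?_⟩
      rw [← hS5]
      exact window_ge hS1 (by omega) g3
    have h2 := Set.ncard_le_ncard h1 hfin
    rw [Set.ncard_coe_finset, hinj] at h2
    exact_mod_cast h2
  exact ⟨rho_ge (freq_of_count (ε := 1 / 2) (by norm_num) (key (1 / 2) (by norm_num))), key⟩

end Pool.Agent.Q197.FM
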