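import Pool.Agent.Q197.FM.Win3

/-!
# The gap between `π` and `ρ`
-/

set_option autoImplicit false
set_option linter.unusedSectionVars false

namespace Pool.Agent.Q197.FM

open Finset Filter MeasureTheory ProbabilityTheory Pool.Agent.Y879.PR
open scoped Topology

theorem gain_tendsto : Tendsto (fun y : ℕ => (y : ℝ) * Real.log (Real.log (Real.log y)) / Real.log y ^ 2) atTop atTop := by
  have h1 : Tendsto (fun y : ℕ => (y : ℝ) ^ (1 / 2 : ℝ)) atTop atTop :=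
    (tendsto_rpow_atTop (by norm_num)).comp tendsto_natCast_atTop_atTop
  have h2 : Tendsto (fun y : ℕ => Real.log (Real.log (Real.log (y : ℝ)))) atTop atTop :=
    Real.tendsto_log_atTop.comp (Real.tendsto_log_atTop.comp (Real.tendsto_log_atTop.comp tendsto_natCast_atTop_atTop))
  refine tendsto_atTop_mono' _ ?_ h1
  filter_upwards [log_small 1 1 (1 / 4) (by norm_num) one_pos, h2.eventually_ge_atTop (1 : ℝ), eventually_ge_atTop 3] with y h3 h4 h5
  have hy0 : (0 : ℝ) < y := by exact_mod_cast (show 0 < y by omega)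
  have hL : 0 < Real.log (y : ℝ) := Real.log_pos (by exact_mod_cast (show 1 < y by omega))
  have h6 : Real.log (y : ℝ) ^ 2 ≤ (y : ℝ) ^ (1 / 2 : ℝ) := by
    have h7 : Real.log (y : ℝ) ≤ (y : ℝ) ^ (1 / 4 : ℝ) := by linarith
    calc Real.log (y : ℝ) ^ 2 ≤ ((y : ℝ) ^ (1 / 4 : ℝ)) ^ 2 := pow_le_pow_left₀ hL.le h7 2
      _ = (y : ℝ) ^ (1 / 2 : ℝ) := by
        rw [← Real.rpow_natCast, ← Real.rpow_mul hy0.le]
        norm_num
  rw [le_div_iff₀ (by positivity)]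
  have h8 : (y : ℝ) ^ (1 / 2 : ℝ) * (y : ℝ) ^ (1 / 2 : ℝ) = y := by
    rw [← Real.rpow_add hy0]
    norm_num
  calc (y : ℝ) ^ (1 / 2 : ℝ) * Real.log y ^ 2 ≤ (y : ℝ) ^ (1 / 2 : ℝ) * (y : ℝ) ^ (1 / 2 : ℝ) :=
        mul_le_mul_of_nonneg_left h6 (by positivity)
    _ = y := h8
    _ ≤ y * Real.log (Real.log (Real.log y)) := le_mul_of_one_le_right hy0.le h4

theorem gap_tendsto {R : ℕ → ℕ} (h : ∀ᶠ y : ℕ in atTop, Rh y ≤ R y) :
    Tendsto (fun y : ℕ => (Nat.primeCounting y : ℤ) - R y) atTop atBot := by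
  rw [tendsto_atBot]
  intro b
  obtain ⟨y0, hy0⟩ := rh_low (show (1 / 4 : ℝ) < 1 / 2 by norm_num)
  filter_upwards [h, eventually_ge_atTop y0, gain_tendsto.eventually_ge_atTop (4 * |(b : ℝ)|)] with y h1 h2 h3
  have h4 := hy0 y h2
  have h5 : (Rh y : ℝ) ≤ R y := by exact_mod_cast h1
  have h6 : ((Nat.primeCounting y : ℤ) : ℝ) - ((R y : ℤ) : ℝ) ≤ (b : ℝ) := by
    have := neg_abs_le (b : ℝ)
    push_cast
    linarith
  exact_mod_cast h6

end Pool.Agent.Q197.FM
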